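import Pool.Agent.MQ1.Main

set_option autoImplicit false

namespace Pool.Agent.MQ1

open Pool.Agent.StrLink

variable {k : ℕ}

/-! ## All.lean : the invariant is in `N 2 n` for every `n ≥ 8` -/

theorem f_mem_V_of_le (n : ℕ) (hn : 8 ≤ n) : f ∈ V 2 n := by
  refine ⟨f_mem_V.1, fun w T hT _ => ?_⟩
  have h0 : ∀ j : Fin 2, W1 (fun S : Finset ℕ =>
      (A (⟨switch S w.1, w.2.switch S⟩ : SL 2) (Mag II)).getD j 1) := by
    intro j
    exact ft w (fun _ => Mag II)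
      (fun S => (exists_sol (⟨switch S w.1, w.2.switch S⟩ : SL 2) (Mag II)).choose)
      (fun S => (exists_sol (⟨switch S w.1, w.2.switch S⟩ : SL 2) (Mag II)).choose_spec)
      (fun j => W1_const _) j
  have h1 : W1 (fun S : Finset ℕ => (A (⟨switch S w.1, w.2.switch S⟩ : SL 2) (fun j : Fin 2 =>
      ((A (⟨switch S w.1, w.2.switch S⟩ : SL 2) (Mag II)).getD j 1)⁻¹)).getD
        ((0 : Fin 2) : ℕ) 1) := by
    exact ft w (fun S => fun j : Fin 2 =>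
        ((A (⟨switch S w.1, w.2.switch S⟩ : SL 2) (Mag II)).getD j 1)⁻¹)
      (fun S => (exists_sol (⟨switch S w.1, w.2.switch S⟩ : SL 2) (fun j : Fin 2 =>
        ((A (⟨switch S w.1, w.2.switch S⟩ : SL 2) (Mag II)).getD j 1)⁻¹)).choose)
      (fun S => (exists_sol (⟨switch S w.1, w.2.switch S⟩ : SL 2) (fun j : Fin 2 =>
        ((A (⟨switch S w.1, w.2.switch S⟩ : SL 2) (Mag II)).getD j 1)⁻¹)).choose_spec)
      (fun j => W1_inv (h0 j)) 0
  have h2 : W1 (fun S : Finset ℕ =>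
      (A (⟨switch S w.1, w.2.switch S⟩ : SL 2) (Mag II)).getD ((0 : Fin 2) : ℕ) 1 *
        (Mag II 0)⁻¹ * (Mag II 0)⁻¹ *
        ((A (⟨switch S w.1, w.2.switch S⟩ : SL 2) (Mag II)).getD ((0 : Fin 2) : ℕ) 1 *
          (Mag II 0)⁻¹)⁻¹) :=
    W1_mul (W1_mul (W1_mul (h0 0) (W1_const _)) (W1_const _))
      (W1_inv (W1_mul (h0 0) (W1_const _)))
  have hlt : (0 : Fin (9 + 1)) < Fin.last 9 := by decide
  have h3 := Submodule.sub_mem _ (h1 0 (Fin.last 9) hlt) (h2 0 (Fin.last 9) hlt)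
  have h4 := CD_mono (m := 8) hn h3
  exact CD_alt (m := n) h4 T hT

/-- a nonzero invariant in `N 2 n` for all `n ≥ 8` -/
theorem main_all : ∃ f : SL 2 → ℚ, f ≠ 0 ∧ ∀ n, 8 ≤ n → f ∈ N 2 n :=
  ⟨f, f_ne, fun n hn => ⟨f_mem_V_of_le n hn, fun w hw => f_free w hw⟩⟩

end Pool.Agent.MQ1
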