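import Pool.Agent.MQ1.Uni

set_option autoImplicit false

namespace Pool.Agent.MQ1

open Pool.Agent.StrLink

variable {k : ℕ}

/-! ## CD.lean : functions of low degree on the cube of all `S : Finset ℕ` -/

/-- the monomial `S ↦ [A ⊆ S]` -/
def chi (A : Finset ℕ) : Finset ℕ → ℚ := fun S => if A ⊆ S then 1 else 0

/-- functions of degree at most `m` -/
def CD (m : ℕ) : Submodule ℚ (Finset ℕ → ℚ) := Submodule.span ℚ {F | ∃ A : Finset ℕ, A.card ≤ m ∧ F = chi A}

theorem cd_chi_mem {m : ℕ} {A : Finset ℕ} (h : A.card ≤ m) : chi A ∈ CD m :=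
  Submodule.subset_span ⟨A, h, rfl⟩

theorem cd_chi_mul (A B : Finset ℕ) : chi A * chi B = chi (A ∪ B) := by
  funext S
  simp only [Pi.mul_apply, chi, Finset.union_subset_iff]
  by_cases hA : A ⊆ S <;> by_cases hB : B ⊆ S <;> simp [hA, hB]

theorem CD_mono {m n : ℕ} (h : m ≤ n) : CD m ≤ CD n := by
  apply Submodule.span_mono
  rintro F ⟨A, hA, rfl⟩
  exact ⟨A, hA.trans h, rfl⟩

theorem CD_mul {m n : ℕ} {F G : Finset ℕ → ℚ} (hF : F ∈ CD m) (hG : G ∈ CD n) :
    F * G ∈ CD (m + n) := by
  have h1 : ∀ A : Finset ℕ, A.card ≤ m → ∀ G ∈ CD n, chi A * G ∈ CD (m + n) := by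
    intro A hA G hG
    induction hG using Submodule.span_induction with
    | mem G h =>
      obtain ⟨B, hB, rfl⟩ := h
      rw [cd_chi_mul]
      exact cd_chi_mem ((Finset.card_union_le A B).trans (Nat.add_le_add hA hB))
    | zero => rw [mul_zero]; exact Submodule.zero_mem _
    | add x y _ _ hx hy => rw [mul_add]; exact Submodule.add_mem _ hx hy
    | smul a x _ hx => rw [mul_smul_comm]; exact Submodule.smul_mem _ a hx
  induction hF using Submodule.span_induction with
  | mem F h =>
    obtain ⟨A, hA, rfl⟩ := h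
    exact h1 A hA G hG
  | zero => rw [zero_mul]; exact Submodule.zero_mem _
  | add x y _ _ hx hy => rw [add_mul]; exact Submodule.add_mem _ hx hy
  | smul a x _ hx => rw [smul_mul_assoc]; exact Submodule.smul_mem _ a hx

theorem CD_const (q : ℚ) : (fun _ => q) ∈ CD 0 := by
  have h : (fun _ => q) = q • chi ∅ := by
    funext S
    simp [chi]
  rw [h]
  exact Submodule.smul_mem _ _ (cd_chi_mem (by simp))

theorem CD_ind (t : ℕ) : (fun S => if t ∈ S then (1 : ℚ) else 0) ∈ CD 1 := by
  have h : (fun S => if t ∈ S then (1 : ℚ) else 0) = chi {t} := by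
    funext S
    simp only [chi, Finset.singleton_subset_iff]
  rw [h]
  exact cd_chi_mem (by simp)

theorem cd_alt_chi (A T : Finset ℕ) (h : A.card < T.card) :
    ∑ S ∈ T.powerset, (-1 : ℚ) ^ S.card * chi A S = 0 := by
  obtain ⟨t, htT, htA⟩ : ∃ t ∈ T, t ∉ A := by
    by_contra hc
    push Not at hc
    exact absurd (Finset.card_le_card hc) (not_le.2 h)
  obtain ⟨T', hT', rfl⟩ : ∃ T' : Finset ℕ, t ∉ T' ∧ T = insert t T' :=
    ⟨T.erase t, Finset.notMem_erase t T, (Finset.insert_erase htT).symm⟩
  rw [Finset.sum_powerset_insert hT', ← Finset.sum_add_distrib]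
  apply Finset.sum_eq_zero
  intro S hS
  have htS : t ∉ S := fun h => hT' (Finset.mem_powerset.1 hS h)
  have h1 : chi A (insert t S) = chi A S := by
    simp only [chi, Finset.subset_insert_iff_of_notMem htA]
  rw [h1, Finset.card_insert_of_notMem htS, pow_succ]
  ring

theorem CD_alt {m : ℕ} {F : Finset ℕ → ℚ} (hF : F ∈ CD m) (T : Finset ℕ) (hT : T.card = m + 1) :
    ∑ S ∈ T.powerset, (-1 : ℚ) ^ S.card * F S = 0 := by
  induction hF using Submodule.span_induction with
  | mem F h =>
    obtain ⟨A, hA, rfl⟩ := h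
    exact cd_alt_chi A T (by omega)
  | zero => simp
  | add x y _ _ hx hy =>
    simp only [Pi.add_apply, mul_add, Finset.sum_add_distrib, hx, hy, add_zero]
  | smul a x _ hx =>
    have h1 : ∀ S : Finset ℕ, (-1 : ℚ) ^ S.card * (a • x) S = a * ((-1 : ℚ) ^ S.card * x S) := by
      intro S
      simp only [Pi.smul_apply, smul_eq_mul]
      ring
    simp only [h1, ← Finset.mul_sum, hx, mul_zero]

/-- `x : Finset ℕ → U r` has weight one: the entries at distance `e + 1` have degree at most `e` -/
def W1 {r : ℕ} (x : Finset ℕ → U r) : Prop :=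
  ∀ a b : Fin (r + 1), a < b → (fun S => ent (x S) a b) ∈ CD ((b : ℕ) - a - 1)

theorem W1_mul {r : ℕ} {x y : Finset ℕ → U r} (hx : W1 x) (hy : W1 y) :
    W1 (fun S => x S * y S) := by
  intro a b hab
  have h : (fun S => ent (x S * y S) a b) =
      ∑ c : Fin (r + 1), (fun S => ent (x S) a c) * (fun S => ent (y S) c b) := by
    funext S
    rw [ent_mul, Finset.sum_apply]
    rfl
  rw [h]
  apply Submodule.sum_mem
  intro c _
  rcases lt_trichotomy c a with hca | rfl | hac
  · have h0 : (fun S => ent (x S) a c) * (fun S => ent (y S) c b) = 0 := by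
      funext S
      rw [Pi.mul_apply, ent_low (x S) a c hca.le, if_neg hca.ne', zero_mul]
      rfl
    rw [h0]
    exact Submodule.zero_mem _
  · have h0 : (fun S => ent (x S) c c) * (fun S => ent (y S) c b) = fun S => ent (y S) c b := by
      funext S
      rw [Pi.mul_apply, ent_low (x S) c c le_rfl, if_pos rfl, one_mul]
    rw [h0]
    exact hy c b hab
  · rcases lt_trichotomy b c with hbc | rfl | hcb
    · have h0 : (fun S => ent (x S) a c) * (fun S => ent (y S) c b) = 0 := by
        funext S
        rw [Pi.mul_apply, ent_low (y S) c b hbc.le, if_neg hbc.ne', mul_zero]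
        rfl
      rw [h0]
      exact Submodule.zero_mem _
    · have h0 : (fun S => ent (x S) a b) * (fun S => ent (y S) b b) = fun S => ent (x S) a b := by
        funext S
        rw [Pi.mul_apply, ent_low (y S) b b le_rfl, if_pos rfl, mul_one]
      rw [h0]
      exact hx a b hab
    · refine CD_mono ?_ (CD_mul (hx a c hac) (hy c b hcb))
      have h1 : (a : ℕ) < c := hac
      have h2 : (c : ℕ) < b := hcb
      omega

theorem W1_inv {r : ℕ} {x : Finset ℕ → U r} (hx : W1 x) : W1 (fun S => (x S)⁻¹) := by
  have key : ∀ n : ℕ, ∀ a b : Fin (r + 1), a < b → (b : ℕ) - a = n →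
      (fun S => ent (x S)⁻¹ a b) ∈ CD ((b : ℕ) - a - 1) := by
    intro n
    induction n using Nat.strong_induction_on with
    | _ n ih =>
      intro a b hab hn
      have h : (fun S => ent (x S)⁻¹ a b) =
          - ∑ c ∈ Finset.univ.erase a, (fun S => ent (x S) a c) * (fun S => ent (x S)⁻¹ c b) := by
        funext S
        have h1 := ent_mul (x S) (x S)⁻¹ a b
        rw [mul_inv_cancel, ent_one, if_neg hab.ne,
          ← Finset.add_sum_erase Finset.univ _ (Finset.mem_univ a),
          ent_low (x S) a a le_rfl, if_pos rfl, one_mul] at h1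
        rw [Pi.neg_apply, Finset.sum_apply]
        simp only [Pi.mul_apply]
        linarith
      rw [h]
      apply Submodule.neg_mem
      apply Submodule.sum_mem
      intro c hc
      have hca : c ≠ a := (Finset.mem_erase.1 hc).1
      rcases lt_or_gt_of_ne hca with hca | hac
      · have h0 : (fun S => ent (x S) a c) * (fun S => ent (x S)⁻¹ c b) = 0 := by
          funext S
          rw [Pi.mul_apply, ent_low (x S) a c hca.le, if_neg hca.ne', zero_mul]
          rfl
        rw [h0]
        exact Submodule.zero_mem _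
      · have hac' : (a : ℕ) < c := hac
        rcases lt_trichotomy b c with hbc | rfl | hcb
        · have h0 : (fun S => ent (x S) a c) * (fun S => ent (x S)⁻¹ c b) = 0 := by
            funext S
            rw [Pi.mul_apply, ent_low (x S)⁻¹ c b hbc.le, if_neg hbc.ne', mul_zero]
            rfl
          rw [h0]
          exact Submodule.zero_mem _
        · have h0 : (fun S => ent (x S) a b) * (fun S => ent (x S)⁻¹ b b) =
              fun S => ent (x S) a b := by
            funext S
            rw [Pi.mul_apply, ent_low (x S)⁻¹ b b le_rfl, if_pos rfl, mul_one]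
          rw [h0]
          exact hx a b hab
        · have hcb' : (c : ℕ) < b := hcb
          refine CD_mono ?_ (CD_mul (hx a c hac) (ih ((b : ℕ) - c) (by omega) c b hcb rfl))
          omega
  intro a b hab
  exact key _ a b hab rfl

end Pool.Agent.MQ1
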