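import Pool.Agent.StrLink.Defs

set_option autoImplicit false

/-! # MP_8b9055_gt, Q1 for two strands: labellings of string link diagrams by group elements -/

namespace Pool.Agent.MQ1

open Pool.Agent.StrLink

variable {k : ℕ}

section lab

variable {Γ : Type} [Group Γ]

/-- the Wirtinger rule at a crossing -/
def cr (o : Bool) (g h : Γ) : List Γ := if o then [g⁻¹ * h * g, g] else [h, h * g * h⁻¹]

/-- labellings, existential form -/
def Lab : Word k → List Γ → List Γ → Prop
  | [], l, l' => l = l'
  | .cross i o :: w, l, l' => Lab w (at2 i (cr o) l) l'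
  | .cap i :: w, l, l' => l.getD i 1 * l.getD (i + 1) 1 = 1 ∧ Lab w (at2 i (fun _ _ => []) l) l'
  | .cup i _ _ :: w, l, l' => ∃ g : Γ, Lab w (ins2 i g g⁻¹ l) l'

/-- the labels of the top line, if the `n`-th local minimum gets the label `c n` -/
def runG (c : ℕ → Γ) : ℕ → Word k → List Γ → List Γ
  | _, [], l => l
  | n, .cross i o :: w, l => runG c n w (at2 i (cr o) l)
  | n, .cap i :: w, l => runG c n w (at2 i (fun _ _ => []) l)
  | n, .cup i _ _ :: w, l => runG c (n + 1) w (ins2 i (c n) (c n)⁻¹ l)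

/-- the products of the two labels at the local maxima -/
def capsG (c : ℕ → Γ) : ℕ → Word k → List Γ → List Γ
  | _, [], _ => []
  | n, .cross i o :: w, l => capsG c n w (at2 i (cr o) l)
  | n, .cap i :: w, l => (l.getD i 1 * l.getD (i + 1) 1) :: capsG c n w (at2 i (fun _ _ => []) l)
  | n, .cup i _ _ :: w, l => capsG c (n + 1) w (ins2 i (c n) (c n)⁻¹ l)

/-- number of local minima -/
def ncup : Word k → ℕ
  | [] => 0
  | .cross _ _ :: w => ncup w
  | .cap _ :: w => ncup w
  | .cup _ _ _ :: w => ncup w + 1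

/-- number of local maxima -/
def ncap : Word k → ℕ
  | [] => 0
  | .cross _ _ :: w => ncap w
  | .cap _ :: w => ncap w + 1
  | .cup _ _ _ :: w => ncap w

/-- the labels `g` at the bottom and `c` at the local minima give a labelling -/
def Sol (w : Word k) (g : Fin k → Γ) (c : ℕ → Γ) : Prop :=
  (∀ x ∈ capsG c 0 w (List.ofFn g), x = 1) ∧ ∀ n, ncup w ≤ n → c n = 1

/-- the top labels -/
def top (w : Word k) (g : Fin k → Γ) (c : ℕ → Γ) : List Γ := runG c 0 w (List.ofFn g)

end lab

/-! ### set valued labellings -/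

section setlab

variable {Q : Type}

def runQ (σ : Q → Q) (c : ℕ → Q) : ℕ → Word k → List Q → List Q
  | _, [], l => l
  | n, .cross i _ :: w, l => runQ σ c n w (at2 i (fun x y => [y, x]) l)
  | n, .cap i :: w, l => runQ σ c n w (at2 i (fun _ _ => []) l)
  | n, .cup i _ _ :: w, l => runQ σ c (n + 1) w (ins2 i (c n) (σ (c n)) l)

def okQ (σ : Q → Q) (c : ℕ → Q) : ℕ → Word k → List Q → Prop
  | _, [], _ => True
  | n, .cross i _ :: w, l => okQ σ c n w (at2 i (fun x y => [y, x]) l)
  | n, .cap i :: w, l => (∃ x, l[i]? = some x ∧ l[i + 1]? = some (σ x)) ∧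
      okQ σ c n w (at2 i (fun _ _ => []) l)
  | n, .cup i _ _ :: w, l => okQ σ c (n + 1) w (ins2 i (c n) (σ (c n)) l)

end setlab

/-! ### the group of a string link -/

/-- bottom meridians -/
def bot (w : SL k) (j : Fin k) : group w := PresentedGroup.of (Sum.inl j)

/-- meridians at the local minima -/
def cupg (w : SL k) (n : ℕ) : group w := PresentedGroup.of (Sum.inr n)

/-! ### unitriangular matrices over `ℚ` -/

abbrev Mat (r : ℕ) : Type := Matrix (Fin (r + 1)) (Fin (r + 1)) ℚ

def uni {r : ℕ} (M : Mat r) : Prop := ∀ a b, b ≤ a → M a b = if a = b then 1 else 0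

theorem uni_mul {r : ℕ} {M N : Mat r} (hM : uni M) (hN : uni N) : uni (M * N) := by
  intro a b hab
  rw [Matrix.mul_apply]
  have h : ∀ c, M a c * N c b = if c = a then (if c = b then 1 else 0) else 0 := by
    intro c
    by_cases hca : c ≤ a
    · rw [hM a c hca]
      by_cases hac : a = c
      · subst hac
        rw [hN a b hab]
        by_cases h2 : a = b <;> simp [h2]
      · rw [if_neg hac, if_neg (fun h => hac h.symm), zero_mul]
    · have h1 : b ≤ c := hab.trans (le_of_lt (not_le.mp hca))
      rw [hN c b h1]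
      have h2 : c ≠ a := fun h => hca (by rw [h])
      have h3 : c ≠ b := fun h => hca (by rw [h]; exact hab)
      rw [if_neg h2, if_neg h3, mul_zero]
  simp_rw [h]
  rw [Finset.sum_ite_eq' Finset.univ a]
  simp

/-- the group of unitriangular matrices -/
def UT (r : ℕ) : Subgroup (Mat r)ˣ where
  carrier := {M | uni M.1 ∧ uni (M⁻¹).1}
  one_mem' := by
    constructor <;> intro a b _ <;> simp [Matrix.one_apply]
  mul_mem' := by
    rintro M N ⟨h1, h2⟩ ⟨h3, h4⟩
    refine ⟨uni_mul h1 h3, ?_⟩
    rw [mul_inv_rev]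
    exact uni_mul h4 h2
  inv_mem' := by
    rintro M ⟨h1, h2⟩
    exact ⟨h2, by rw [inv_inv]; exact h1⟩

abbrev U (r : ℕ) : Type := ↥(UT r)

/-- entries -/
def ent {r : ℕ} (x : U r) (a b : Fin (r + 1)) : ℚ := x.1.1 a b

/-- `x` and `y` have the same entries at distance less than `d` from the diagonal -/
def Agree {r : ℕ} (d : ℕ) (x y : U r) : Prop :=
  ∀ a b : Fin (r + 1), (b : ℕ) < a + d → ent x a b = ent y a b

end Pool.Agent.MQ1
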