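import Pool.Agent.MQ1.Track

set_option autoImplicit false

namespace Pool.Agent.MQ1

open Pool.Agent.StrLink

variable {k : ℕ}

/-! ## Diag.lean -/

theorem diag_at2_pos {α : Type} (a : List α) (x y : α) (b : List α) (f : α → α → List α) :
    at2 a.length f (a ++ x :: y :: b) = a ++ f x y ++ b := by
  simp [at2, List.drop_left, List.take_left]

theorem diag_at2_neg {α : Type} (i : ℕ) (l : List α) (h : l.length ≤ i + 1)
    (f : α → α → List α) : at2 i f l = l := by
  unfold at2
  have h1 : (l.drop i).length ≤ 1 := by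
    rw [List.length_drop]; omega
  match hd : l.drop i, h1 with
  | [], _ => rfl
  | [x], _ => rfl
  | x :: y :: b, h1 => simp at h1

theorem diag_split {α : Type} (i : ℕ) (l : List α) (h : i + 1 < l.length) :
    ∃ (a : List α) (x y : α) (b : List α), l = a ++ x :: y :: b ∧ a.length = i := by
  refine ⟨l.take i, l[i]'(by omega), l[i + 1]'h, l.drop (i + 2), ?_, ?_⟩
  · conv_lhs => rw [← List.take_append_drop i l]
    congr 1
    rw [List.drop_eq_getElem_cons (by omega), List.drop_eq_getElem_cons h]
  · rw [List.length_take]; omega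

theorem diag_at2_map {α β : Type} (π : α → β) (i : ℕ) (f : α → α → List α)
    (f' : β → β → List β) (h : ∀ x y, (f x y).map π = f' (π x) (π y)) (l : List α) :
    (at2 i f l).map π = at2 i f' (l.map π) := by
  by_cases hl : i + 1 < l.length
  · obtain ⟨a, x, y, b, rfl, rfl⟩ := diag_split i l hl
    rw [diag_at2_pos]
    simp only [List.map_append, List.map_cons, h]
    rw [show a.length = (a.map π).length by simp, diag_at2_pos]
  · rw [diag_at2_neg i l (by omega), diag_at2_neg i (l.map π) (by simp; omega)]

theorem diag_ins2_map {α β : Type} (π : α → β) (i : ℕ) (x y : α) (l : List α) :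
    (ins2 i x y l).map π = ins2 i (π x) (π y) (l.map π) := by
  simp [ins2, List.map_take, List.map_drop]

theorem diag_at2_length {α β : Type} (i n : ℕ) (f : α → α → List α) (f' : β → β → List β)
    (h : ∀ x y, (f x y).length = n) (h' : ∀ x y, (f' x y).length = n) (l : List α) (l' : List β)
    (hl : l.length = l'.length) : (at2 i f l).length = (at2 i f' l').length := by
  by_cases hi : i + 1 < l.length
  · obtain ⟨a, x, y, b, rfl, rfl⟩ := diag_split i l hi
    obtain ⟨a', x', y', b', rfl, ha⟩ := diag_split a.length l' (by omega)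
    rw [diag_at2_pos, ← ha, diag_at2_pos]
    simp only [List.length_append, List.length_cons] at hl
    simp only [List.length_append, h, h']
    omega
  · rw [diag_at2_neg i l (by omega), diag_at2_neg i l' (by omega), hl]

theorem diag_ins2_length {α β : Type} (i : ℕ) (x y : α) (x' y' : β) (l : List α) (l' : List β)
    (hl : l.length = l'.length) : (ins2 i x y l).length = (ins2 i x' y' l').length := by
  simp [ins2, hl]

theorem diag_cr_length {Γ : Type} [Group Γ] (o : Bool) (x y : Γ) : (cr o x y).length = 2 := by
  cases o <;> rfl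

theorem diag_map {Γ Q : Type} [Group Γ] (π : Γ → Q) (σ : Q → Q)
    (h1 : ∀ g h, π (g⁻¹ * h * g) = π h) (h2 : ∀ g h, π (h * g * h⁻¹) = π g)
    (h3 : ∀ g, π g⁻¹ = σ (π g)) (c : ℕ → Γ) (w : Word k) : ∀ (n : ℕ) (l : List Γ),
    (runG c n w l).map π = runQ σ (fun n => π (c n)) n w (l.map π) := by
  induction w with
  | nil => intro n l; rfl
  | cons p w ih =>
    intro n l
    cases p with
    | cross i o =>
      simp only [runG, runQ]
      rw [ih, diag_at2_map π i (cr o) (fun x y => [y, x])]
      intro x y
      cases o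
      · simp [cr, h2]
      · simp [cr, h1]
    | cap i =>
      simp only [runG, runQ]
      rw [ih, diag_at2_map π i (fun _ _ => []) (fun _ _ => [])]
      intro x y
      rfl
    | cup i d e =>
      simp only [runG, runQ]
      rw [ih, diag_ins2_map, h3]

theorem diag_ok {Γ Q : Type} [Group Γ] (π : Γ → Q) (σ : Q → Q)
    (h1 : ∀ g h, π (g⁻¹ * h * g) = π h) (h2 : ∀ g h, π (h * g * h⁻¹) = π g)
    (h3 : ∀ g, π g⁻¹ = σ (π g)) (c : ℕ → Γ) (w : Word k) : ∀ (n : ℕ) (l : List Γ)
    (pts : List (Pt k)), l.length = pts.length → okW pts w → (∀ x ∈ capsG c n w l, x = 1) →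
    okQ σ (fun n => π (c n)) n w (l.map π) := by
  induction w with
  | nil => intro n l pts _ _ _; trivial
  | cons p w ih =>
    intro n l pts hl hw hc
    cases p with
    | cross i o =>
      simp only [okQ]
      rw [← diag_at2_map π i (cr o) (fun x y => [y, x])]
      · refine ih n _ _ ?_ hw.2 hc
        exact diag_at2_length i 2 _ _ (diag_cr_length o) (fun _ _ => rfl) _ _ hl
      · intro x y
        cases o
        · simp [cr, h2]
        · simp [cr, h1]
    | cap i =>
      simp only [okQ]
      simp only [capsG, List.mem_cons, forall_eq_or_imp] at hc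
      refine ⟨?_, ?_⟩
      · obtain ⟨a, d, ha, hb⟩ := hw.1
        have hi : i + 1 < pts.length := (List.getElem?_eq_some_iff.1 hb).1
        rw [← hl] at hi
        have h4 : l[i]? = some (l.getD i 1) := by
          rw [List.getD_eq_getElem?_getD, List.getElem?_eq_getElem (by omega)]
          rfl
        have h5 : l[i + 1]? = some (l.getD (i + 1) 1) := by
          rw [List.getD_eq_getElem?_getD, List.getElem?_eq_getElem hi]
          rfl
        have h6 : l.getD (i + 1) 1 = (l.getD i 1)⁻¹ := (inv_eq_of_mul_eq_one_right hc.1).symm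
        refine ⟨π (l.getD i 1), ?_, ?_⟩
        · rw [List.getElem?_map, h4]; rfl
        · rw [List.getElem?_map, h5, h6, ← h3]; rfl
      · rw [← diag_at2_map π i (fun _ _ => []) (fun _ _ => [])]
        · refine ih n _ _ ?_ hw.2 hc.2
          exact diag_at2_length i 0 _ _ (fun _ _ => rfl) (fun _ _ => rfl) _ _ hl
        · intro x y; rfl
    | cup i d e =>
      simp only [okQ]
      rw [← h3, ← diag_ins2_map]
      exact ih (n + 1) _ _ (diag_ins2_length i _ _ _ _ _ _ hl) hw.2 hc

theorem diag_runG_length {Γ : Type} [Group Γ] (c : ℕ → Γ) (w : Word k) :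
    ∀ (n : ℕ) (l : List Γ) (pts : List (Pt k)), l.length = pts.length →
    (runG c n w l).length = (run pts w).length := by
  induction w with
  | nil => intro n l pts h; exact h
  | cons p w ih =>
    intro n l pts hl
    cases p with
    | cross i o =>
      exact ih n _ _ (diag_at2_length i 2 _ _ (diag_cr_length o) (fun _ _ => rfl) _ _ hl)
    | cap i =>
      exact ih n _ _ (diag_at2_length i 0 _ _ (fun _ _ => rfl) (fun _ _ => rfl) _ _ hl)
    | cup i d e =>
      exact ih (n + 1) _ _ (diag_ins2_length i _ _ _ _ _ _ hl)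

theorem top_length {Γ : Type} [Group Γ] (w : SL k) (g : Fin k → Γ) (c : ℕ → Γ) :
    (top w.1 g c).length = k := by
  rw [top, diag_runG_length c w.1 0 _ (ends k) (by simp [ends]), w.2.2.1]
  simp [ends]

/-- `track` with `Q = ConjClasses Γ` -/
theorem top_conj {Γ : Type} [Group Γ] (w : SL k) (g : Fin k → Γ) (c : ℕ → Γ)
    (h : Sol w.1 g c) (j : Fin k) : ∃ u : Γ, (top w.1 g c).getD j 1 = u * g j * u⁻¹ := by
  have hinv : ∀ a b : Γ, (IsConj.setoid Γ) a b → (IsConj.setoid Γ) a⁻¹ b⁻¹ := by
    intro a b hab
    obtain ⟨u, hu⟩ := isConj_iff.1 (show IsConj a b from hab)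
    refine isConj_iff.2 ⟨u, ?_⟩
    rw [← hu]
    group
  let σ : ConjClasses Γ → ConjClasses Γ := Quotient.map (fun a => a⁻¹) hinv
  have h1 : ∀ a b : Γ, ConjClasses.mk (a⁻¹ * b * a) = ConjClasses.mk b := by
    intro a b
    rw [ConjClasses.mk_eq_mk_iff_isConj, isConj_iff]
    exact ⟨a, by group⟩
  have h2 : ∀ a b : Γ, ConjClasses.mk (b * a * b⁻¹) = ConjClasses.mk a := by
    intro a b
    rw [ConjClasses.mk_eq_mk_iff_isConj, isConj_iff]
    exact ⟨b⁻¹, by group⟩
  have h3 : ∀ a : Γ, ConjClasses.mk a⁻¹ = σ (ConjClasses.mk a) := fun a => rfl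
  have hσ : ∀ x, σ (σ x) = x := by
    intro x
    obtain ⟨a, rfl⟩ := ConjClasses.mk_surjective x
    rw [← h3, ← h3, inv_inv]
  have hmap := diag_map ConjClasses.mk σ h1 h2 h3 c w.1 0 (List.ofFn g)
  have hok := diag_ok ConjClasses.mk σ h1 h2 h3 c w.1 0 (List.ofFn g) (ends k) (by simp [ends])
    w.2.1 h.1
  have hof : (List.ofFn g).map ConjClasses.mk = List.ofFn (fun j => ConjClasses.mk (g j)) := by
    rw [List.map_ofFn]; rfl
  rw [hof] at hmap hok
  have ht := (track σ hσ w (fun j => ConjClasses.mk (g j)) (fun n => ConjClasses.mk (c n)) hok).1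
  rw [ht] at hmap
  have hlen := top_length w g c
  have hj : (j : ℕ) < (top w.1 g c).length := by rw [hlen]; exact j.2
  have h4 : ConjClasses.mk ((top w.1 g c).getD j 1) = ConjClasses.mk (g j) := by
    have h5 : ((top w.1 g c).map ConjClasses.mk)[(j : ℕ)]? =
        (List.ofFn (fun j => ConjClasses.mk (g j)))[(j : ℕ)]? := by
      rw [top, hmap]
    rw [List.getElem?_map, List.getElem?_eq_getElem hj, List.getElem?_eq_getElem (by simp)] at h5
    simp only [Option.map_some, List.getElem_ofFn, Option.some.injEq] at h5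
    rw [List.getD_eq_getElem?_getD, List.getElem?_eq_getElem hj]
    exact h5
  rw [ConjClasses.mk_eq_mk_iff_isConj] at h4
  obtain ⟨u, hu⟩ := isConj_iff.1 h4.symm
  exact ⟨u, hu.symm⟩

/-- `track` with `Q` the abelian group, `σ x = x⁻¹`, `q = 1` -/
theorem ab_trivial (w : SL k) {Q : Type} [CommGroup Q] (c : ℕ → Q)
    (h : Sol w.1 (fun _ => 1) c) (n : ℕ) : c n = 1 := by
  rcases Nat.lt_or_ge n (ncup w.1) with hn | hn
  · have hok := diag_ok (fun x : Q => x) (fun x => x⁻¹) (fun a b => by
        rw [mul_comm a⁻¹ b, mul_assoc, inv_mul_cancel, mul_one]) (fun a b => by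
        rw [mul_comm b a, mul_assoc, mul_inv_cancel, mul_one]) (fun _ => rfl) c w.1 0
      (List.ofFn (fun _ : Fin k => (1 : Q))) (ends k) (by simp [ends]) w.2.1 h.1
    rw [List.map_id'] at hok
    obtain ⟨j, hj⟩ := (track (fun x : Q => x⁻¹) (fun x => inv_inv x) w (fun _ => 1) c hok).2 n hn
    rcases hj with hj | hj
    · exact hj
    · rw [hj, inv_one]
  · exact h.2 n hn

theorem diag_prod {Γ : Type} [Group Γ] (c : ℕ → Γ) (w : Word k) : ∀ (n : ℕ) (l : List Γ),
    (∀ x ∈ capsG c n w l, x = 1) → (runG c n w l).reverse.prod = l.reverse.prod := by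
  induction w with
  | nil => intro n l _; rfl
  | cons p w ih =>
    intro n l hc
    cases p with
    | cross i o =>
      simp only [runG]
      rw [ih n _ hc]
      by_cases hi : i + 1 < l.length
      · obtain ⟨a, x, y, b, rfl, rfl⟩ := diag_split i l hi
        rw [diag_at2_pos]
        cases o <;> simp [cr, mul_assoc]
      · rw [diag_at2_neg i l (by omega)]
    | cap i =>
      simp only [capsG, List.mem_cons, forall_eq_or_imp] at hc
      simp only [runG]
      rw [ih n _ hc.2]
      by_cases hi : i + 1 < l.length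
      · obtain ⟨a, x, y, b, rfl, rfl⟩ := diag_split i l hi
        rw [diag_at2_pos]
        have h1 : x * y = 1 := by simpa using hc.1
        have h2 : y = x⁻¹ := (inv_eq_of_mul_eq_one_right h1).symm
        rw [h2]
        simp
      · rw [diag_at2_neg i l (by omega)]
    | cup i d e =>
      simp only [runG]
      rw [ih (n + 1) _ hc]
      have h5 : l.reverse.prod = (l.drop i).reverse.prod * (l.take i).reverse.prod := by
        conv_lhs => rw [← List.take_append_drop i l]
        rw [List.reverse_append, List.prod_append]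
      rw [h5]
      simp [ins2]

/-- the product from right to left is unchanged by every piece -/
theorem top_prod {Γ : Type} [Group Γ] (w : SL k) (g : Fin k → Γ) (c : ℕ → Γ)
    (h : Sol w.1 g c) : (top w.1 g c).reverse.prod = (List.ofFn g).reverse.prod :=
  diag_prod c w.1 0 _ h.1

theorem diag_ncap (w : Word k) : ∀ pts : List (Pt k), okW pts w →
    (run pts w).length + 2 * ncap w = pts.length + 2 * ncup w := by
  induction w with
  | nil => intro pts _; rfl
  | cons p w ih =>
    intro pts hw
    have h1 := ih _ hw.2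
    cases p with
    | cross i o =>
      have hi : i + 1 < pts.length := hw.1
      obtain ⟨a, x, y, b, rfl, rfl⟩ := diag_split i pts hi
      simp only [run, ncap, ncup]
      rw [h1]
      simp only [Piece.lab]
      rw [diag_at2_pos]
      simp
    | cap i =>
      obtain ⟨d, e, ha, hb⟩ := hw.1
      have hi : i + 1 < pts.length := (List.getElem?_eq_some_iff.1 hb).1
      clear ha hb
      obtain ⟨a, x, y, b, rfl, rfl⟩ := diag_split i pts hi
      simp only [run, ncap, ncup]
      simp only [Piece.lab] at h1 ⊢
      rw [diag_at2_pos] at h1 ⊢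
      simp only [List.length_append, List.length_cons, List.length_nil] at h1 ⊢
      omega
    | cup i d e =>
      simp only [run, ncap, ncup]
      simp only [Piece.lab] at h1 ⊢
      have h2 : (ins2 i (d, e) (d, !e) pts).length = pts.length + 2 := by
        simp only [ins2, List.length_append, List.length_take, List.length_cons, List.length_nil,
          List.length_drop]
        omega
      rw [h2] at h1
      omega

theorem ncap_eq (w : SL k) : ncap w.1 = ncup w.1 := by
  have h := diag_ncap w.1 (ends k) w.2.1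
  rw [w.2.2.1] at h
  omega

end Pool.Agent.MQ1
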