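import Pool.Agent.MQ1.Uni

set_option autoImplicit false

namespace Pool.Agent.MQ1

open Pool.Agent.StrLink

variable {k : ℕ}

/-! ## Ex.lean : the example (matrices computed with mil.py) -/

/-- the exponents of the monomial; to be chosen -/
def II : Fin 9 → Fin 2 := ![0, 0, 0, 0, 1, 0, 1, 1, 1]

/-- integer matrices as lists of rows -/
abbrev ex_MZ : Type := List (List Int)

def ex_get (m : ex_MZ) (a b : ℕ) : Int := (m.getD a []).getD b 0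

def ex_sum (m n : ex_MZ) (a b : ℕ) : ℕ → Int
  | 0 => 0
  | c + 1 => ex_sum m n a b c + ex_get m a c * ex_get n c b

/-- `m * n = p * q` -/
def ex_eq (m n p q : ex_MZ) : Bool :=
  (List.range 10).all fun a => (List.range 10).all fun b =>
    decide (ex_sum m n a b 10 = ex_sum p q a b 10)

def ex_uni (m : ex_MZ) : Bool :=
  (List.range 10).all fun a => (List.range 10).all fun b =>
    decide (b ≤ a → ex_get m a b = if a = b then 1 else 0)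

def ex_isId (m : ex_MZ) : Bool :=
  (List.range 10).all fun a => (List.range 10).all fun b =>
    decide (ex_get m a b = if a = b then 1 else 0)

/-- `m` is the matrix of `x` -/
def ex_Rep (x : U 9) (m : ex_MZ) : Prop :=
  ∀ a b : Fin 10, ent x a b = ((ex_get m a b : Int) : ℚ)

theorem ex_sum_eq (m n : ex_MZ) (a b N : ℕ) :
    ex_sum m n a b N = ∑ c ∈ Finset.range N, ex_get m a c * ex_get n c b := by
  induction N with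
  | zero => rfl
  | succ N ih => rw [Finset.sum_range_succ, ← ih]; rfl

theorem ex_mul {x y : U 9} {m n : ex_MZ} (hx : ex_Rep x m) (hy : ex_Rep y n) (a b : Fin 10) :
    ent (x * y) a b = ((ex_sum m n a b 10 : Int) : ℚ) := by
  rw [ent_mul, ex_sum_eq, ← Fin.sum_univ_eq_sum_range
    (fun c => ex_get m a c * ex_get n c b) 10]
  push_cast
  apply Finset.sum_congr rfl
  intro c _
  rw [hx a c, hy c b]

theorem ex_eq_mul {x y z t : U 9} {m n p q : ex_MZ} (hx : ex_Rep x m) (hy : ex_Rep y n)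
    (hz : ex_Rep z p) (ht : ex_Rep t q) (h : ex_eq m n p q = true) : x * y = z * t := by
  apply U_ext
  intro a b
  rw [ex_mul hx hy, ex_mul hz ht]
  unfold ex_eq at h
  rw [List.all_eq_true] at h
  have h1 := h a (List.mem_range.2 a.2)
  rw [List.all_eq_true] at h1
  have h2 := h1 b (List.mem_range.2 b.2)
  rw [of_decide_eq_true h2]

theorem ex_exists (m : ex_MZ) (h : ex_uni m = true) : ∃ x : U 9, ex_Rep x m := by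
  obtain ⟨x, hx⟩ := exists_U (r := 9) (fun a b => ((ex_get m a b : Int) : ℚ)) (by
    intro a b hab
    unfold ex_uni at h
    rw [List.all_eq_true] at h
    have h1 := h a (List.mem_range.2 a.2)
    rw [List.all_eq_true] at h1
    have h2 := of_decide_eq_true (h1 b (List.mem_range.2 b.2)) (by exact_mod_cast hab)
    show ((ex_get m a b : Int) : ℚ) = _
    rw [h2]
    by_cases hab' : a = b
    · rw [if_pos hab', if_pos (congrArg Fin.val hab')]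
      simp
    · rw [if_neg hab', if_neg (fun h => hab' (Fin.ext h))]
      simp)
  exact ⟨x, hx⟩

theorem ex_one (m : ex_MZ) (h : ex_isId m = true) : ex_Rep 1 m := by
  intro a b
  unfold ex_isId at h
  rw [List.all_eq_true] at h
  have h1 := h a (List.mem_range.2 a.2)
  rw [List.all_eq_true] at h1
  have h2 := of_decide_eq_true (h1 b (List.mem_range.2 b.2))
  rw [ent_one, h2]
  by_cases hab' : a = b
  · rw [if_pos hab', if_pos (congrArg Fin.val hab')]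
    simp
  · rw [if_neg hab', if_neg (fun h => hab' (Fin.ext h))]
    simp

def ex_Id : ex_MZ := [[1, 0, 0, 0, 0, 0, 0, 0, 0, 0], [0, 1, 0, 0, 0, 0, 0, 0, 0, 0], [0, 0, 1, 0, 0, 0, 0, 0, 0, 0], [0, 0, 0, 1, 0, 0, 0, 0, 0, 0], [0, 0, 0, 0, 1, 0, 0, 0, 0, 0], [0, 0, 0, 0, 0, 1, 0, 0, 0, 0], [0, 0, 0, 0, 0, 0, 1, 0, 0, 0], [0, 0, 0, 0, 0, 0, 0, 1, 0, 0], [0, 0, 0, 0, 0, 0, 0, 0, 1, 0], [0, 0, 0, 0, 0, 0, 0, 0, 0, 1]]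
def ex_E0 : ex_MZ := [[1, 1, 0, 0, 0, 0, 0, 0, 0, 0], [0, 1, 1, 0, 0, 0, 0, 0, 0, 0], [0, 0, 1, 1, 0, 0, 0, 0, 0, 0], [0, 0, 0, 1, 1, 0, 0, 0, 0, 0], [0, 0, 0, 0, 1, 0, 0, 0, 0, 0], [0, 0, 0, 0, 0, 1, 1, 0, 0, 0], [0, 0, 0, 0, 0, 0, 1, 0, 0, 0], [0, 0, 0, 0, 0, 0, 0, 1, 0, 0], [0, 0, 0, 0, 0, 0, 0, 0, 1, 0], [0, 0, 0, 0, 0, 0, 0, 0, 0, 1]]
def ex_E1 : ex_MZ := [[1, 0, 0, 0, 0, 0, 0, 0, 0, 0], [0, 1, 0, 0, 0, 0, 0, 0, 0, 0], [0, 0, 1, 0, 0, 0, 0, 0, 0, 0], [0, 0, 0, 1, 0, 0, 0, 0, 0, 0], [0, 0, 0, 0, 1, 1, 0, 0, 0, 0], [0, 0, 0, 0, 0, 1, 0, 0, 0, 0], [0, 0, 0, 0, 0, 0, 1, 1, 0, 0], [0, 0, 0, 0, 0, 0, 0, 1, 1, 0], [0, 0, 0, 0, 0, 0, 0, 0, 1, 1], [0, 0, 0, 0, 0, 0, 0, 0, 0, 1]]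
def ex_ac0 : ex_MZ := [[1, 0, 0, 0, 0, 0, 0, 0, 0, 0], [0, 1, 0, 0, 0, 0, 0, 0, 0, -1], [0, 0, 1, 0, 0, 0, 0, 0, 1, -4], [0, 0, 0, 1, 0, 0, 0, -1, 3, -6], [0, 0, 0, 0, 1, -1, 0, -2, 3, -4], [0, 0, 0, 0, 0, 1, 0, 0, 1, -2], [0, 0, 0, 0, 0, 0, 1, -1, 1, -1], [0, 0, 0, 0, 0, 0, 0, 1, -1, 1], [0, 0, 0, 0, 0, 0, 0, 0, 1, -1], [0, 0, 0, 0, 0, 0, 0, 0, 0, 1]]
def ex_ad0 : ex_MZ := [[1, 0, 0, 0, 0, 0, 0, 0, 0, 0], [0, 1, 0, 0, 0, 0, 0, 0, 0, 1], [0, 0, 1, 0, 0, 0, 0, 0, -1, 3], [0, 0, 0, 1, 0, 0, 0, 1, -2, 3], [0, 0, 0, 0, 1, 1, 0, 2, -2, 2], [0, 0, 0, 0, 0, 1, 0, 0, -1, 1], [0, 0, 0, 0, 0, 0, 1, 1, 0, 0], [0, 0, 0, 0, 0, 0, 0, 1, 1, 0], [0, 0, 0, 0, 0, 0, 0, 0, 1, 1], [0, 0, 0, 0, 0, 0, 0, 0, 0, 1]]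
def ex_ac1 : ex_MZ := [[1, 0, 0, 0, 0, 0, 0, 0, 0, 0], [0, 1, 0, 0, 0, 0, 0, 0, 1, -3], [0, 0, 1, 0, 0, 0, 0, 0, 2, -5], [0, 0, 0, 1, 0, -1, 1, 0, 0, 0], [0, 0, 0, 0, 1, -1, 1, 0, -3, 8], [0, 0, 0, 0, 0, 1, 0, -1, 1, 0], [0, 0, 0, 0, 0, 0, 1, -1, 1, -1], [0, 0, 0, 0, 0, 0, 0, 1, -1, 1], [0, 0, 0, 0, 0, 0, 0, 0, 1, -1], [0, 0, 0, 0, 0, 0, 0, 0, 0, 1]]
def ex_ad1 : ex_MZ := [[1, 0, 0, 0, 0, 0, 0, 0, 0, 0], [0, 1, 0, 0, 0, 0, 0, 0, -1, 2], [0, 0, 1, 0, 0, 0, 0, 0, -2, 3], [0, 0, 0, 1, 0, 1, -1, 0, 0, -1], [0, 0, 0, 0, 1, 1, -1, 0, 3, -6], [0, 0, 0, 0, 0, 1, 0, 1, 0, -1], [0, 0, 0, 0, 0, 0, 1, 1, 0, 0], [0, 0, 0, 0, 0, 0, 0, 1, 1, 0], [0, 0, 0, 0, 0, 0, 0, 0, 1, 1], [0, 0, 0, 0, 0, 0, 0, 0, 0, 1]]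
def ex_az0 : ex_MZ := [[1, 0, 0, 0, 0, 0, 0, 0, 0, 1], [0, 1, 0, 0, 0, 0, 0, 0, -1, 4], [0, 0, 1, 0, 0, 0, 0, 1, -3, 6], [0, 0, 0, 1, 0, 1, -1, 3, -4, 5], [0, 0, 0, 0, 1, 1, -1, 2, -2, 2], [0, 0, 0, 0, 0, 1, 0, 1, -1, 1], [0, 0, 0, 0, 0, 0, 1, 1, 0, 0], [0, 0, 0, 0, 0, 0, 0, 1, 1, 0], [0, 0, 0, 0, 0, 0, 0, 0, 1, 1], [0, 0, 0, 0, 0, 0, 0, 0, 0, 1]]
def ex_az1 : ex_MZ := [[1, 0, 0, 0, 0, 0, 0, 0, 0, 0], [0, 1, 0, 0, 0, 0, 0, 0, 0, 1], [0, 0, 1, 0, 0, 0, 0, 0, -1, 3], [0, 0, 0, 1, 0, 0, 0, 1, -2, 3], [0, 0, 0, 0, 1, 1, 0, 2, -2, 2], [0, 0, 0, 0, 0, 1, 0, 0, -1, 1], [0, 0, 0, 0, 0, 0, 1, 1, 0, 0], [0, 0, 0, 0, 0, 0, 0, 1, 1, 0], [0, 0, 0, 0, 0, 0, 0, 0, 1, 1], [0, 0, 0, 0, 0, 0, 0, 0, 0, 1]]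
def ex_az2 : ex_MZ := [[1, 1, 0, 0, 0, 0, 0, 0, 0, -1], [0, 1, 1, 0, 0, 0, 0, 0, 1, -4], [0, 0, 1, 1, 0, 0, 0, -1, 3, -6], [0, 0, 0, 1, 1, -1, 0, -2, 3, -4], [0, 0, 0, 0, 1, 0, 1, -1, 1, -1], [0, 0, 0, 0, 0, 1, 1, -1, 1, -1], [0, 0, 0, 0, 0, 0, 1, 0, 0, 0], [0, 0, 0, 0, 0, 0, 0, 1, 0, 0], [0, 0, 0, 0, 0, 0, 0, 0, 1, 0], [0, 0, 0, 0, 0, 0, 0, 0, 0, 1]]
def ex_az3 : ex_MZ := [[1, 0, 0, 0, 0, 0, 0, 1, -2, 4], [0, 1, 0, 0, 0, 0, 0, -1, 2, -4], [0, 0, 1, 0, 0, 0, 0, 1, -1, 2], [0, 0, 0, 1, 0, 0, 0, -1, 2, -3], [0, 0, 0, 0, 1, -1, 0, 2, -6, 12], [0, 0, 0, 0, 0, 1, 0, 0, -1, 3], [0, 0, 0, 0, 0, 0, 1, -1, 1, -1], [0, 0, 0, 0, 0, 0, 0, 1, -1, 1], [0, 0, 0, 0, 0, 0, 0, 0, 1, -1], [0, 0, 0, 0, 0, 0, 0, 0, 0, 1]]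
def ex_az4 : ex_MZ := [[1, 1, 0, 0, 0, 0, 0, 0, 1, -4], [0, 1, 1, 0, 0, 0, 0, 0, 3, -10], [0, 0, 1, 1, 0, -1, 1, -1, 4, -10], [0, 0, 0, 1, 1, -2, 2, -3, 4, -5], [0, 0, 0, 0, 1, 0, 2, -4, 6, -8], [0, 0, 0, 0, 0, 1, 1, -2, 3, -4], [0, 0, 0, 0, 0, 0, 1, 0, 0, 0], [0, 0, 0, 0, 0, 0, 0, 1, 0, 0], [0, 0, 0, 0, 0, 0, 0, 0, 1, 0], [0, 0, 0, 0, 0, 0, 0, 0, 0, 1]]
def ex_az5 : ex_MZ := [[1, 0, 0, 0, 0, 0, 0, -1, 1, -2], [0, 1, 0, 0, 0, 0, 0, 1, -1, 2], [0, 0, 1, 0, 0, 0, 0, -1, 0, -1], [0, 0, 0, 1, 0, 0, 0, 1, -1, 1], [0, 0, 0, 0, 1, 1, 0, -2, 5, -8], [0, 0, 0, 0, 0, 1, 0, 0, 1, -2], [0, 0, 0, 0, 0, 0, 1, 1, 0, 0], [0, 0, 0, 0, 0, 0, 0, 1, 1, 0], [0, 0, 0, 0, 0, 0, 0, 0, 1, 1], [0, 0, 0, 0, 0, 0, 0, 0, 0, 1]]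
def ex_az6 : ex_MZ := [[1, 0, 0, 0, 0, 0, 0, 0, -1, 2], [0, 1, 0, 0, 0, 0, 0, 0, 0, 1], [0, 0, 1, 0, 0, 0, 0, 0, -3, 6], [0, 0, 0, 1, 0, 1, -1, 1, -1, 1], [0, 0, 0, 0, 1, 1, -1, 2, -2, 2], [0, 0, 0, 0, 0, 1, 0, 1, -1, 1], [0, 0, 0, 0, 0, 0, 1, 1, 0, 0], [0, 0, 0, 0, 0, 0, 0, 1, 1, 0], [0, 0, 0, 0, 0, 0, 0, 0, 1, 1], [0, 0, 0, 0, 0, 0, 0, 0, 0, 1]]
def ex_az7 : ex_MZ := [[1, 0, 0, 0, 0, 0, 0, 0, -1, 4], [0, 1, 0, 0, 0, 0, 0, 0, -3, 10], [0, 0, 1, 0, 0, 1, -2, 3, -7, 14], [0, 0, 0, 1, 0, 2, -4, 7, -10, 13], [0, 0, 0, 0, 1, 1, -2, 6, -9, 12], [0, 0, 0, 0, 0, 1, 0, 2, -3, 4], [0, 0, 0, 0, 0, 0, 1, 1, 0, 0], [0, 0, 0, 0, 0, 0, 0, 1, 1, 0], [0, 0, 0, 0, 0, 0, 0, 0, 1, 1], [0, 0, 0, 0, 0, 0, 0, 0, 0, 1]]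
def ex_at0 : ex_MZ := [[1, 1, 0, 0, 0, 0, 0, 0, 1, -4], [0, 1, 1, 0, 0, 0, 0, 0, 3, -10], [0, 0, 1, 1, 0, -1, 1, -1, 4, -10], [0, 0, 0, 1, 1, -2, 2, -3, 4, -5], [0, 0, 0, 0, 1, 0, 2, -4, 6, -8], [0, 0, 0, 0, 0, 1, 1, -2, 3, -4], [0, 0, 0, 0, 0, 0, 1, 0, 0, 0], [0, 0, 0, 0, 0, 0, 0, 1, 0, 0], [0, 0, 0, 0, 0, 0, 0, 0, 1, 0], [0, 0, 0, 0, 0, 0, 0, 0, 0, 1]]
def ex_at1 : ex_MZ := [[1, 0, 0, 0, 0, 0, 0, 0, -1, 4], [0, 1, 0, 0, 0, 0, 0, 0, -3, 10], [0, 0, 1, 0, 0, 1, -2, 3, -7, 14], [0, 0, 0, 1, 0, 2, -4, 7, -10, 13], [0, 0, 0, 0, 1, 1, -2, 6, -9, 12], [0, 0, 0, 0, 0, 1, 0, 2, -3, 4], [0, 0, 0, 0, 0, 0, 1, 1, 0, 0], [0, 0, 0, 0, 0, 0, 0, 1, 1, 0], [0, 0, 0, 0, 0, 0, 0, 0, 1, 1], [0, 0, 0, 0, 0, 0, 0, 0, 0, 1]]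
def ex_bc0 : ex_MZ := [[1, 0, 0, 0, 0, 0, 0, 0, -1, 5], [0, 1, 0, 0, 0, 0, 0, 0, -3, 12], [0, 0, 1, 0, 0, 1, -2, 4, -9, 18], [0, 0, 0, 1, 0, 2, -4, 10, -17, 23], [0, 0, 0, 0, 1, 1, -2, 8, -14, 20], [0, 0, 0, 0, 0, 1, 0, 2, -4, 6], [0, 0, 0, 0, 0, 0, 1, 1, 0, 0], [0, 0, 0, 0, 0, 0, 0, 1, 1, 0], [0, 0, 0, 0, 0, 0, 0, 0, 1, 1], [0, 0, 0, 0, 0, 0, 0, 0, 0, 1]]
def ex_bd0 : ex_MZ := [[1, 0, 0, 0, 0, 0, 0, 0, 1, -6], [0, 1, 0, 0, 0, 0, 0, 0, 3, -15], [0, 0, 1, 0, 0, -1, 2, -4, 9, -21], [0, 0, 0, 1, 0, -2, 4, -10, 19, -30], [0, 0, 0, 0, 1, -1, 2, -8, 18, -32], [0, 0, 0, 0, 0, 1, 0, -2, 6, -12], [0, 0, 0, 0, 0, 0, 1, -1, 1, -1], [0, 0, 0, 0, 0, 0, 0, 1, -1, 1], [0, 0, 0, 0, 0, 0, 0, 0, 1, -1], [0, 0, 0, 0, 0, 0, 0, 0, 0, 1]]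
def ex_bc1 : ex_MZ := [[1, 0, 0, 0, 0, 0, 0, 0, 0, 1], [0, 1, 0, 0, 0, 0, 0, 0, -1, 2], [0, 0, 1, 0, 0, 0, 0, 0, -4, 7], [0, 0, 0, 1, 0, 1, -1, 1, -7, 10], [0, 0, 0, 0, 1, 1, -1, 2, -5, 8], [0, 0, 0, 0, 0, 1, 0, 1, -1, 2], [0, 0, 0, 0, 0, 0, 1, 1, 0, 0], [0, 0, 0, 0, 0, 0, 0, 1, 1, 0], [0, 0, 0, 0, 0, 0, 0, 0, 1, 1], [0, 0, 0, 0, 0, 0, 0, 0, 0, 1]]
def ex_bd1 : ex_MZ := [[1, 0, 0, 0, 0, 0, 0, 0, 0, -1], [0, 1, 0, 0, 0, 0, 0, 0, 1, -3], [0, 0, 1, 0, 0, 0, 0, 0, 4, -11], [0, 0, 0, 1, 0, -1, 1, -1, 7, -15], [0, 0, 0, 0, 1, -1, 1, -2, 6, -12], [0, 0, 0, 0, 0, 1, 0, -1, 2, -4], [0, 0, 0, 0, 0, 0, 1, -1, 1, -1], [0, 0, 0, 0, 0, 0, 0, 1, -1, 1], [0, 0, 0, 0, 0, 0, 0, 0, 1, -1], [0, 0, 0, 0, 0, 0, 0, 0, 0, 1]]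
def ex_bz0 : ex_MZ := [[1, 0, 0, 0, 0, 0, 0, 0, 0, -1], [0, 1, 0, 0, 0, 0, 0, 0, 1, -4], [0, 0, 1, 0, 0, 0, 0, 0, 2, -8], [0, 0, 0, 1, 0, -1, 1, -2, 5, -9], [0, 0, 0, 0, 1, -1, 1, -4, 9, -16], [0, 0, 0, 0, 0, 1, 0, -1, 3, -6], [0, 0, 0, 0, 0, 0, 1, -1, 1, -1], [0, 0, 0, 0, 0, 0, 0, 1, -1, 1], [0, 0, 0, 0, 0, 0, 0, 0, 1, -1], [0, 0, 0, 0, 0, 0, 0, 0, 0, 1]]
def ex_bz1 : ex_MZ := [[1, 0, 0, 0, 0, 0, 0, 0, 1, -6], [0, 1, 0, 0, 0, 0, 0, 0, 3, -15], [0, 0, 1, 0, 0, -1, 2, -4, 9, -21], [0, 0, 0, 1, 0, -2, 4, -10, 19, -30], [0, 0, 0, 0, 1, -1, 2, -8, 18, -32], [0, 0, 0, 0, 0, 1, 0, -2, 6, -12], [0, 0, 0, 0, 0, 0, 1, -1, 1, -1], [0, 0, 0, 0, 0, 0, 0, 1, -1, 1], [0, 0, 0, 0, 0, 0, 0, 0, 1, -1], [0, 0, 0, 0, 0, 0, 0, 0, 0, 1]]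
def ex_bz2 : ex_MZ := [[1, -1, 1, -1, 1, -1, 0, 0, 0, -1], [0, 1, -1, 1, -1, 1, 0, 0, 2, -8], [0, 0, 1, -1, 1, -2, 3, -5, 5, -4], [0, 0, 0, 1, -1, 1, 2, -5, 7, -9], [0, 0, 0, 0, 1, 0, -1, 1, -1, 1], [0, 0, 0, 0, 0, 1, -1, 1, -1, 1], [0, 0, 0, 0, 0, 0, 1, 0, 0, 0], [0, 0, 0, 0, 0, 0, 0, 1, 0, 0], [0, 0, 0, 0, 0, 0, 0, 0, 1, 0], [0, 0, 0, 0, 0, 0, 0, 0, 0, 1]]
def ex_bz3 : ex_MZ := [[1, 0, 0, 0, 0, 0, 0, 0, -1, 1], [0, 1, 0, 0, 0, 0, 0, -1, -2, 5], [0, 0, 1, 0, 0, 1, -2, -1, -4, 9], [0, 0, 0, 1, 0, 2, -4, 2, -8, 11], [0, 0, 0, 0, 1, 1, -2, 4, -7, 10], [0, 0, 0, 0, 0, 1, 0, 2, -2, 3], [0, 0, 0, 0, 0, 0, 1, 1, 0, 0], [0, 0, 0, 0, 0, 0, 0, 1, 1, 0], [0, 0, 0, 0, 0, 0, 0, 0, 1, 1], [0, 0, 0, 0, 0, 0, 0, 0, 0, 1]]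
def ex_bz4 : ex_MZ := [[1, -1, 1, -1, 1, -1, 0, 0, 0, 0], [0, 1, -1, 1, -1, 1, 0, 0, 3, -9], [0, 0, 1, -1, 1, -2, 3, -3, 4, -5], [0, 0, 0, 1, -1, 0, 4, -4, 6, -8], [0, 0, 0, 0, 1, 0, 0, 0, 0, 0], [0, 0, 0, 0, 0, 1, -1, 0, 0, 0], [0, 0, 0, 0, 0, 0, 1, 0, 0, 0], [0, 0, 0, 0, 0, 0, 0, 1, 0, 0], [0, 0, 0, 0, 0, 0, 0, 0, 1, 0], [0, 0, 0, 0, 0, 0, 0, 0, 0, 1]]
def ex_bz5 : ex_MZ := [[1, 0, 0, 0, 0, 0, 0, 0, 1, -2], [0, 1, 0, 0, 0, 0, 0, 1, 1, -6], [0, 0, 1, 0, 0, -1, 2, 1, 1, -7], [0, 0, 0, 1, 0, -2, 4, -2, 6, -11], [0, 0, 0, 0, 1, -1, 2, -4, 9, -16], [0, 0, 0, 0, 0, 1, 0, -2, 4, -7], [0, 0, 0, 0, 0, 0, 1, -1, 1, -1], [0, 0, 0, 0, 0, 0, 0, 1, -1, 1], [0, 0, 0, 0, 0, 0, 0, 0, 1, -1], [0, 0, 0, 0, 0, 0, 0, 0, 0, 1]]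
def ex_bz6 : ex_MZ := [[1, 0, 0, 0, 0, 0, 0, 0, 0, -2], [0, 1, 0, 0, 0, 0, 0, 0, 0, -3], [0, 0, 1, 0, 0, 0, 0, -1, 2, -6], [0, 0, 0, 1, 0, -1, 1, -4, 8, -13], [0, 0, 0, 0, 1, -1, 1, -4, 9, -16], [0, 0, 0, 0, 0, 1, 0, -1, 3, -6], [0, 0, 0, 0, 0, 0, 1, -1, 1, -1], [0, 0, 0, 0, 0, 0, 0, 1, -1, 1], [0, 0, 0, 0, 0, 0, 0, 0, 1, -1], [0, 0, 0, 0, 0, 0, 0, 0, 0, 1]]
def ex_bz7 : ex_MZ := [[1, 0, 0, 0, 0, 0, 0, 0, 0, -2], [0, 1, 0, 0, 0, 0, 0, 0, 0, -3], [0, 0, 1, 0, 0, 0, 0, -2, 3, -7], [0, 0, 0, 1, 0, 0, 0, -4, 7, -11], [0, 0, 0, 0, 1, -1, 0, -4, 9, -16], [0, 0, 0, 0, 0, 1, 0, 0, 2, -5], [0, 0, 0, 0, 0, 0, 1, -1, 1, -1], [0, 0, 0, 0, 0, 0, 0, 1, -1, 1], [0, 0, 0, 0, 0, 0, 0, 0, 1, -1], [0, 0, 0, 0, 0, 0, 0, 0, 0, 1]]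
def ex_bt0 : ex_MZ := [[1, -1, 1, -1, 1, -1, 0, 0, 0, 0], [0, 1, -1, 1, -1, 1, 0, 0, 3, -9], [0, 0, 1, -1, 1, -2, 3, -3, 4, -5], [0, 0, 0, 1, -1, 0, 4, -4, 6, -8], [0, 0, 0, 0, 1, 0, 0, 0, 0, 0], [0, 0, 0, 0, 0, 1, -1, 0, 0, 0], [0, 0, 0, 0, 0, 0, 1, 0, 0, 0], [0, 0, 0, 0, 0, 0, 0, 1, 0, 0], [0, 0, 0, 0, 0, 0, 0, 0, 1, 0], [0, 0, 0, 0, 0, 0, 0, 0, 0, 1]]
def ex_bt1 : ex_MZ := [[1, 0, 0, 0, 0, 0, 0, 0, 0, -2], [0, 1, 0, 0, 0, 0, 0, 0, 0, -3], [0, 0, 1, 0, 0, 0, 0, -2, 3, -7], [0, 0, 0, 1, 0, 0, 0, -4, 7, -11], [0, 0, 0, 0, 1, -1, 0, -4, 9, -16], [0, 0, 0, 0, 0, 1, 0, 0, 2, -5], [0, 0, 0, 0, 0, 0, 1, -1, 1, -1], [0, 0, 0, 0, 0, 0, 0, 1, -1, 1], [0, 0, 0, 0, 0, 0, 0, 0, 1, -1], [0, 0, 0, 0, 0, 0, 0, 0, 0, 1]]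
def ex_i0 : ex_MZ := [[1, -1, 1, -1, 1, -1, 0, 0, -1, 3], [0, 1, -1, 1, -1, 1, 0, 0, 0, 1], [0, 0, 1, -1, 1, -1, 0, 0, -3, 9], [0, 0, 0, 1, -1, 2, -2, 3, -4, 5], [0, 0, 0, 0, 1, 0, -2, 4, -6, 8], [0, 0, 0, 0, 0, 1, -1, 2, -3, 4], [0, 0, 0, 0, 0, 0, 1, 0, 0, 0], [0, 0, 0, 0, 0, 0, 0, 1, 0, 0], [0, 0, 0, 0, 0, 0, 0, 0, 1, 0], [0, 0, 0, 0, 0, 0, 0, 0, 0, 1]]
def ex_i1 : ex_MZ := [[1, 0, 0, 0, 0, 0, 0, 0, 1, -5], [0, 1, 0, 0, 0, 0, 0, 0, 3, -13], [0, 0, 1, 0, 0, -1, 2, -3, 7, -17], [0, 0, 0, 1, 0, -2, 4, -7, 11, -16], [0, 0, 0, 0, 1, -1, 2, -6, 12, -20], [0, 0, 0, 0, 0, 1, 0, -2, 5, -9], [0, 0, 0, 0, 0, 0, 1, -1, 1, -1], [0, 0, 0, 0, 0, 0, 0, 1, -1, 1], [0, 0, 0, 0, 0, 0, 0, 0, 1, -1], [0, 0, 0, 0, 0, 0, 0, 0, 0, 1]]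
def ex_G : ex_MZ := [[1, 0, 0, 0, 0, 0, 0, 0, 1, -4], [0, 1, 0, 0, 0, 0, 0, 0, 3, -10], [0, 0, 1, 0, 0, -1, 2, -1, 4, -10], [0, 0, 0, 1, 0, -2, 4, -3, 4, -5], [0, 0, 0, 0, 1, 0, 2, -4, 6, -8], [0, 0, 0, 0, 0, 1, 0, -2, 3, -4], [0, 0, 0, 0, 0, 0, 1, 0, 0, 0], [0, 0, 0, 0, 0, 0, 0, 1, 0, 0], [0, 0, 0, 0, 0, 0, 0, 0, 1, 0], [0, 0, 0, 0, 0, 0, 0, 0, 0, 1]]
def ex_R : ex_MZ := [[1, -1, 1, -1, 1, -1, 0, 0, 0, -1], [0, 1, -1, 1, -1, 1, 0, 0, 3, -9], [0, 0, 1, -1, 1, -2, 3, -3, 4, -5], [0, 0, 0, 1, -1, 0, 4, -4, 6, -8], [0, 0, 0, 0, 1, 0, 0, 0, 0, 0], [0, 0, 0, 0, 0, 1, -1, 0, 0, 0], [0, 0, 0, 0, 0, 0, 1, 0, 0, 0], [0, 0, 0, 0, 0, 0, 0, 1, 0, 0], [0, 0, 0, 0, 0, 0, 0, 0, 1, 0], [0, 0, 0, 0, 0, 0, 0, 0, 0, 1]]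

/-- the checker -/
def ex_chk : Word 2 → List (ex_MZ × ex_MZ) → List ex_MZ → List ex_MZ → Option (List ex_MZ)
  | [], _, l, _ => some l
  | .cross i o :: w, cs, l, zs =>
      match l.drop i, zs with
      | g :: h :: b, z :: zs =>
          if (ex_uni z && (if o then ex_eq g z h g else ex_eq z h h g)) = true then
            ex_chk w cs (l.take i ++ (if o then [z, g] else [h, z]) ++ b) zs
          else none
      | _, _ => none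
  | .cap i :: w, cs, l, zs =>
      match l.drop i with
      | g :: h :: b => if ex_eq g h ex_Id ex_Id = true then ex_chk w cs (l.take i ++ b) zs
          else none
      | _ => none
  | .cup i _ _ :: w, cs, l, zs =>
      match cs with
      | (c, d) :: cs => if ex_eq c d ex_Id ex_Id = true then
          ex_chk w cs (l.take i ++ [c, d] ++ l.drop i) zs else none
      | [] => none

theorem ex_id : ex_Rep 1 ex_Id := ex_one _ (by decide +kernel)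

theorem ex_drop {i : ℕ} {L : List (U 9)} {l : List ex_MZ} (h : List.Forall₂ ex_Rep L l) :
    List.Forall₂ ex_Rep (L.drop i) (l.drop i) := List.forall₂_drop i h

theorem ex_take {i : ℕ} {L : List (U 9)} {l : List ex_MZ} (h : List.Forall₂ ex_Rep L l) :
    List.Forall₂ ex_Rep (L.take i) (l.take i) := List.forall₂_take i h

/-- the simulation -/
theorem ex_sim (w : Word 2) : ∀ (n : ℕ) (cs : List (ex_MZ × ex_MZ)) (l zs l' : List ex_MZ)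
    (c : ℕ → U 9) (L : List (U 9)),
    (∀ j p, cs[j]? = some p → ex_Rep (c (n + j)) p.1 ∧ ∃ y : U 9, ex_Rep y p.2) →
    List.Forall₂ ex_Rep L l → ex_chk w cs l zs = some l' →
    List.Forall₂ ex_Rep (runG c n w L) l' ∧ ∀ x ∈ capsG c n w L, x = 1 := by
  induction w with
  | nil =>
    intro n cs l zs l' c L hc hL h
    simp only [ex_chk, Option.some.injEq] at h
    subst h
    exact ⟨hL, fun x hx => by simp [capsG] at hx⟩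
  | cons p w ih =>
    intro n cs l zs l' c L hc hL h
    cases p with
    | cross i o =>
      have hd := ex_drop (i := i) hL
      have ht := ex_take (i := i) hL
      simp only [ex_chk] at h
      split at h
      · rename_i g' h' b' z' zs' hl
        rw [hl] at hd
        obtain ⟨g, L1, hg, hd1, hLd⟩ : ∃ g L1, ex_Rep g g' ∧ List.Forall₂ ex_Rep L1 (h' :: b') ∧
            L.drop i = g :: L1 := by
          cases hd' : L.drop i with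
          | nil => rw [hd'] at hd; cases hd
          | cons g L1 =>
            rw [hd'] at hd
            cases hd with
            | cons h1 h2 => exact ⟨g, L1, h1, h2, rfl⟩
        obtain ⟨hh, L2, hh1, hd2, hLd2⟩ : ∃ hh L2, ex_Rep hh h' ∧ List.Forall₂ ex_Rep L2 b' ∧
            L1 = hh :: L2 := by
          cases hd1 with
          | cons h1 h2 => exact ⟨_, _, h1, h2, rfl⟩
        subst hLd2
        by_cases hcond : (ex_uni z' && (if o then ex_eq g' z' h' g' else ex_eq z' h' h' g')) = true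
        · rw [if_pos hcond] at h
          rw [Bool.and_eq_true] at hcond
          obtain ⟨z, hz⟩ := ex_exists z' hcond.1
          have hat : at2 i (cr o) L = L.take i ++ cr o g hh ++ L2 := by
            unfold at2
            rw [hLd]
          have key : List.Forall₂ ex_Rep (at2 i (cr o) L)
              (l.take i ++ (if o then [z', g'] else [h', z']) ++ b') := by
            rw [hat]
            apply List.rel_append _ hd2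
            apply List.rel_append ht
            cases o with
            | true =>
              have e1 : g * z = hh * g := ex_eq_mul hg hz hh1 hg (by simpa using hcond.2)
              have e2 : g⁻¹ * hh * g = z := by
                rw [mul_assoc, ← e1, inv_mul_cancel_left]
              simp only [cr, if_true, e2]
              exact List.Forall₂.cons hz (List.Forall₂.cons hg List.Forall₂.nil)
            | false =>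
              have e1 : z * hh = hh * g := ex_eq_mul hz hh1 hh1 hg (by simpa using hcond.2)
              have e2 : hh * g * hh⁻¹ = z := by
                rw [← e1, mul_inv_cancel_right]
              simp only [cr, if_neg Bool.false_ne_true, e2]
              exact List.Forall₂.cons hh1 (List.Forall₂.cons hz List.Forall₂.nil)
          exact ih n cs _ _ l' c _ hc key h
        · rw [if_neg hcond] at h
          cases h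
      · cases h
    | cap i =>
      have hd := ex_drop (i := i) hL
      have ht := ex_take (i := i) hL
      simp only [ex_chk] at h
      split at h
      · rename_i g' h' b' hl
        rw [hl] at hd
        obtain ⟨g, L1, hg, hd1, hLd⟩ : ∃ g L1, ex_Rep g g' ∧ List.Forall₂ ex_Rep L1 (h' :: b') ∧
            L.drop i = g :: L1 := by
          cases hd' : L.drop i with
          | nil => rw [hd'] at hd; cases hd
          | cons g L1 =>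
            rw [hd'] at hd
            cases hd with
            | cons h1 h2 => exact ⟨g, L1, h1, h2, rfl⟩
        obtain ⟨hh, L2, hh1, hd2, hLd2⟩ : ∃ hh L2, ex_Rep hh h' ∧ List.Forall₂ ex_Rep L2 b' ∧
            L1 = hh :: L2 := by
          cases hd1 with
          | cons h1 h2 => exact ⟨_, _, h1, h2, rfl⟩
        subst hLd2
        split at h
        · rename_i hcond
          have e1 : g * hh = 1 := by
            have := ex_eq_mul hg hh1 ex_id ex_id hcond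
            rwa [one_mul] at this
          have hat : at2 i (fun _ _ => []) L = L.take i ++ L2 := by
            unfold at2
            rw [hLd]
            simp
          have key : List.Forall₂ ex_Rep (at2 i (fun _ _ => []) L) (l.take i ++ b') := by
            rw [hat]
            exact List.rel_append ht hd2
          obtain ⟨h1, h2⟩ := ih n cs _ _ l' c _ hc key h
          refine ⟨h1, ?_⟩
          intro x hx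
          simp only [capsG, List.mem_cons] at hx
          rcases hx with hx | hx
          · rw [hx]
            have q0 : L[i]? = some g := by
              have := congrArg (fun t => t[0]?) hLd
              simpa using this
            have q1 : L[i + 1]? = some hh := by
              have := congrArg (fun t => t[1]?) hLd
              simpa using this
            rw [List.getD_eq_getElem?_getD, List.getD_eq_getElem?_getD, q0, q1]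
            exact e1
          · exact h2 x hx
        · cases h
      · cases h
    | cup i a b =>
      have hd := ex_drop (i := i) hL
      have ht := ex_take (i := i) hL
      simp only [ex_chk] at h
      split at h
      · rename_i c' d' cs'
        split at h
        · rename_i hcond
          obtain ⟨hc0, y, hy⟩ := hc 0 (c', d') (by simp)
          rw [Nat.add_zero] at hc0
          have e1 : c n * y = 1 := by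
            have := ex_eq_mul hc0 hy ex_id ex_id hcond
            rwa [one_mul] at this
          have e2 : (c n)⁻¹ = y := inv_eq_of_mul_eq_one_right e1
          have key : List.Forall₂ ex_Rep (ins2 i (c n) (c n)⁻¹ L)
              (l.take i ++ [c', d'] ++ l.drop i) := by
            unfold ins2
            apply List.rel_append _ hd
            apply List.rel_append ht
            rw [e2]
            exact List.Forall₂.cons hc0 (List.Forall₂.cons hy List.Forall₂.nil)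
          have hc' : ∀ j p, cs'[j]? = some p → ex_Rep (c (n + 1 + j)) p.1 ∧
              ∃ y : U 9, ex_Rep y p.2 := by
            intro j p hp
            have := hc (j + 1) p (by simpa using hp)
            rwa [show n + (j + 1) = n + 1 + j by omega] at this
          exact ih (n + 1) cs' _ _ l' c _ hc' key h
        · cases h
      · cases h

/-- the word -/
def ex_w : Word 2 := [.cup 0 1 false, .cross 1 false, .cross 2 true, .cross 1 false, .cap 0,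
  .cup 1 1 false, .cross 0 true, .cross 1 false, .cross 2 true, .cross 0 true, .cap 1,
  .cross 0 false]

theorem ex_w_sl : IsStringLink ex_w := by
  refine ⟨?_, ?_, ?_⟩
  · simp [ex_w, okW, Piece.ok, Piece.lab, ends, at2, ins2, List.ofFn_succ]
  · simp [ex_w, run, Piece.lab, ends, at2, ins2, List.ofFn_succ]
  · simp [ex_w, noClosed, at2, ins2, List.range_succ]

theorem ex_ca : ex_chk ex_w [(ex_ac0, ex_ad0), (ex_ac1, ex_ad1)] [ex_E0, ex_E1]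
    [ex_az0, ex_az1, ex_az2, ex_az3, ex_az4, ex_az5, ex_az6, ex_az7] =
      some [ex_at0, ex_at1] := by
  decide +kernel

theorem ex_cb : ex_chk ex_w [(ex_bc0, ex_bd0), (ex_bc1, ex_bd1)] [ex_i0, ex_i1]
    [ex_bz0, ex_bz1, ex_bz2, ex_bz3, ex_bz4, ex_bz5, ex_bz6, ex_bz7] =
      some [ex_bt0, ex_bt1] := by
  decide +kernel

theorem ex_mag (i : Fin 2) (m : ex_MZ) (h : ∀ a b : Fin 10, ex_get m a b =
    if a = b then 1 else if ∃ s : Fin 9, II s = i ∧ a = s.castSucc ∧ b = s.succ then 1 else 0) :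
    ex_Rep (Mag II i) m := by
  intro a b
  rw [Mag_ent, h a b]
  split_ifs <;> simp

/-- two labels at the local minima give a labelling -/
theorem ex_solve (g : Fin 2 → U 9) (m0 m1 c0 d0 c1 d1 t0 t1 : ex_MZ) (zs : List ex_MZ)
    (h0 : ex_Rep (g 0) m0) (h1 : ex_Rep (g 1) m1)
    (hu : (ex_uni c0 && ex_uni d0 && ex_uni c1 && ex_uni d1) = true)
    (h : ex_chk ex_w [(c0, d0), (c1, d1)] [m0, m1] zs = some [t0, t1]) :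
    ∃ c : ℕ → U 9, Sol ex_w g c ∧ ex_Rep ((top ex_w g c).getD 0 1) t0 ∧
      ex_Rep ((top ex_w g c).getD 1 1) t1 := by
  simp only [Bool.and_eq_true] at hu
  obtain ⟨⟨⟨hu0, hu1⟩, hu2⟩, hu3⟩ := hu
  obtain ⟨x0, hx0⟩ := ex_exists c0 hu0
  obtain ⟨y0, hy0⟩ := ex_exists d0 hu1
  obtain ⟨x1, hx1⟩ := ex_exists c1 hu2
  obtain ⟨y1, hy1⟩ := ex_exists d1 hu3
  obtain ⟨q1, q2⟩ := ex_sim ex_w 0 [(c0, d0), (c1, d1)] [m0, m1] zs [t0, t1]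
    (fun n => if n = 0 then x0 else if n = 1 then x1 else 1) (List.ofFn g) (by
      intro j p hp
      match j, hp with
      | 0, hp =>
        simp only [List.getElem?_cons_zero, Option.some.injEq] at hp
        subst hp
        exact ⟨by simpa using hx0, y0, hy0⟩
      | 1, hp =>
        simp only [List.getElem?_cons_succ, List.getElem?_cons_zero, Option.some.injEq] at hp
        subst hp
        exact ⟨by simpa using hx1, y1, hy1⟩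
      | (j + 2), hp => simp at hp) (by
      have : List.ofFn g = [g 0, g 1] := by simp [List.ofFn_succ]
      rw [this]
      exact List.Forall₂.cons h0 (List.Forall₂.cons h1 List.Forall₂.nil)) h
  refine ⟨fun n => if n = 0 then x0 else if n = 1 then x1 else 1, ⟨q2, ?_⟩, ?_⟩
  · intro n hn
    have : (2 : ℕ) ≤ n := hn
    simp only
    rw [if_neg (by omega), if_neg (by omega)]
  · unfold top
    cases hr : runG (fun n => if n = 0 then x0 else if n = 1 then x1 else 1) 0 ex_w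
        (List.ofFn g) with
    | nil => rw [hr] at q1; cases q1
    | cons a l =>
      rw [hr] at q1
      cases q1 with
      | cons ha hl =>
        cases hl with
        | cons hb hl' => exact ⟨ha, hb⟩

theorem ex_ua : (ex_uni ex_ac0 && ex_uni ex_ad0 && ex_uni ex_ac1 && ex_uni ex_ad1) = true := by
  decide +kernel

theorem ex_ub : (ex_uni ex_bc0 && ex_uni ex_bd0 && ex_uni ex_bc1 && ex_uni ex_bd1) = true := by
  decide +kernel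

theorem ex_k1 : ex_eq ex_at0 ex_i0 ex_Id ex_Id = true := by decide +kernel

theorem ex_k2 : ex_eq ex_at1 ex_i1 ex_Id ex_Id = true := by decide +kernel

theorem ex_k3 : ex_eq ex_G ex_E0 ex_at0 ex_Id = true := by decide +kernel

theorem ex_k4 : ex_eq ex_R ex_at0 ex_G ex_Id = true := by decide +kernel

theorem ex_k5 : ex_uni ex_i0 = true ∧ ex_uni ex_i1 = true ∧ ex_uni ex_G = true ∧
    ex_uni ex_R = true := by decide +kernel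

theorem ex_kE0 : ∀ a b : Fin 10, ex_get ex_E0 a b =
    if a = b then 1 else if ∃ s : Fin 9, II s = 0 ∧ a = s.castSucc ∧ b = s.succ then 1 else 0 := by
  decide +kernel

theorem ex_kE1 : ∀ a b : Fin 10, ex_get ex_E1 a b =
    if a = b then 1 else if ∃ s : Fin 9, II s = 1 ∧ a = s.castSucc ∧ b = s.succ then 1 else 0 := by
  decide +kernel

theorem ex_inv {A B : U 9} {m n : ex_MZ} (hA : ex_Rep A m) (hB : ex_Rep B n)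
    (h : ex_eq m n ex_Id ex_Id = true) : ex_Rep A⁻¹ n := by
  have h1 : A * B = 1 * 1 := ex_eq_mul hA hB ex_id ex_id h
  have h2 : A⁻¹ = B := inv_eq_of_mul_eq_one_right (h1.trans (one_mul 1))
  rw [h2]
  exact hB

theorem ex_fin (A E : U 9) (hA : ex_Rep A ex_at0) (hE : ex_Rep E ex_E0) :
    ent (A * E⁻¹ * E⁻¹ * (A * E⁻¹)⁻¹) 0 (Fin.last 9) = -1 := by
  obtain ⟨G, hG⟩ := ex_exists ex_G ex_k5.2.2.1
  obtain ⟨R, hR⟩ := ex_exists ex_R ex_k5.2.2.2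
  have h1 : G * E = A * 1 := ex_eq_mul hG hE hA ex_id ex_k3
  have h2 : R * A = G * 1 := ex_eq_mul hR hA hG ex_id ex_k4
  rw [mul_one] at h1 h2
  have f1 : A * E⁻¹ = G := by rw [← h1, mul_inv_cancel_right]
  have f2 : G * E⁻¹ * G⁻¹ = R := by
    rw [mul_inv_eq_iff_eq_mul, mul_inv_eq_iff_eq_mul, mul_assoc, h1, h2]
  rw [f1, f2, hR 0 (Fin.last 9)]
  have g2 : ex_get ex_R 0 9 = -1 := by decide +kernel
  show ((ex_get ex_R 0 9 : Int) : ℚ) = -1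
  rw [g2]
  norm_num

theorem ex_fin2 (A : U 9) (hA : ex_Rep A ex_bt0) : ent A 0 (Fin.last 9) = 0 := by
  rw [hA 0 (Fin.last 9)]
  have g2 : ex_get ex_bt0 0 9 = 0 := by decide +kernel
  show ((ex_get ex_bt0 0 9 : Int) : ℚ) = 0
  rw [g2]
  norm_num

attribute [local irreducible] top Sol

/-- for the labelling `c` with bottom labels `Mag II` and the labelling `c'` with bottom labels
`(top)⁻¹` the defect is not zero -/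
theorem example_ne : ∃ (w : SL 2) (c c' : ℕ → U 9), Sol w.1 (Mag II) c ∧
    Sol w.1 (fun j => ((top w.1 (Mag II) c).getD j 1)⁻¹) c' ∧
    ent ((top w.1 (fun j => ((top w.1 (Mag II) c).getD j 1)⁻¹) c').getD 0 1) 0 (Fin.last 9) ≠
      ent ((top w.1 (Mag II) c).getD 0 1 * (Mag II 0)⁻¹ * (Mag II 0)⁻¹ *
        ((top w.1 (Mag II) c).getD 0 1 * (Mag II 0)⁻¹)⁻¹) 0 (Fin.last 9) := by
  have hE0 : ex_Rep (Mag II 0) ex_E0 := ex_mag 0 ex_E0 ex_kE0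
  have hE1 : ex_Rep (Mag II 1) ex_E1 := ex_mag 1 ex_E1 ex_kE1
  obtain ⟨c, hc, ht0, ht1⟩ := ex_solve (Mag II) ex_E0 ex_E1 ex_ac0 ex_ad0 ex_ac1 ex_ad1
    ex_at0 ex_at1 [ex_az0, ex_az1, ex_az2, ex_az3, ex_az4, ex_az5, ex_az6, ex_az7] hE0 hE1
    ex_ua ex_ca
  obtain ⟨i0, hi0⟩ := ex_exists ex_i0 ex_k5.1
  obtain ⟨i1, hi1⟩ := ex_exists ex_i1 ex_k5.2.1
  have r0 := ex_inv ht0 hi0 ex_k1
  have r1 := ex_inv ht1 hi1 ex_k2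
  obtain ⟨c', hc', ht0', -⟩ := ex_solve
    (fun j : Fin 2 => ((top ex_w (Mag II) c).getD j 1)⁻¹) ex_i0 ex_i1 ex_bc0 ex_bd0 ex_bc1 ex_bd1
    ex_bt0 ex_bt1 [ex_bz0, ex_bz1, ex_bz2, ex_bz3, ex_bz4, ex_bz5, ex_bz6, ex_bz7]
    r0 r1 ex_ub ex_cb
  refine ⟨⟨ex_w, ex_w_sl⟩, c, c', hc, hc', ?_⟩
  intro h
  have h1 := ex_fin2 _ ht0'
  have h2 := ex_fin _ _ ht0 hE0
  have h3 : (0 : ℚ) = -1 := h1.symm.trans (h.trans h2)
  norm_num at h3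

end Pool.Agent.MQ1
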