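import Pool.Agent.MQ1.Defs

set_option autoImplicit false

namespace Pool.Agent.MQ1

open Pool.Agent.StrLink

variable {k : ℕ}

/-! ## Hom.lean : labellings and homomorphisms of the group -/

theorem Hom_at2_map {α β : Type} (φ : α → β) (i : ℕ) (f : α → α → List α) (f' : β → β → List β)
    (hf : ∀ x y, (f x y).map φ = f' (φ x) (φ y)) (l : List α) :
    (at2 i f l).map φ = at2 i f' (l.map φ) := by
  unfold at2
  rw [← List.map_drop]
  rcases h : l.drop i with _ | ⟨x, _ | ⟨y, b⟩⟩
  · rfl
  · rfl
  · simp only [List.map_append, List.map_take, List.map_cons, hf]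

theorem Hom_ins2_map {α β : Type} (φ : α → β) (i : ℕ) (x y : α) (l : List α) :
    (ins2 i x y l).map φ = ins2 i (φ x) (φ y) (l.map φ) := by
  unfold ins2
  simp only [List.map_append, List.map_take, List.map_cons, List.map_nil, List.map_drop]

theorem Hom_getD_map {Γ Δ : Type} [Group Γ] [Group Δ] (φ : Γ →* Δ) (l : List Γ) (i : ℕ) :
    (l.map φ).getD i 1 = φ (l.getD i 1) := by
  rw [List.getD_eq_getElem?_getD, List.getD_eq_getElem?_getD, List.getElem?_map]
  rcases l[i]? with _ | x
  · simp
  · rfl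

theorem Hom_cr_map {Γ Δ : Type} [Group Γ] [Group Δ] (φ : Γ →* Δ) (o : Bool) (x y : Γ) :
    (cr o x y).map φ = cr o (φ x) (φ y) := by
  unfold cr
  cases o <;> simp

theorem Hom_caps_map {Γ Δ : Type} [Group Γ] [Group Δ] (φ : Γ →* Δ) (c : ℕ → Γ) (w : Word k) :
    ∀ (n : ℕ) (l : List Γ), capsG (fun n => φ (c n)) n w (l.map φ) = (capsG c n w l).map φ := by
  induction w with
  | nil => intro n l; rfl
  | cons p w ih =>
    intro n l
    cases p with
    | cross i o =>
      simp only [capsG]
      rw [← Hom_at2_map φ i (cr o) (cr o) (Hom_cr_map φ o) l]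
      exact ih n _
    | cap i =>
      simp only [capsG, List.map_cons]
      rw [← Hom_at2_map φ i (fun _ _ => []) (fun _ _ => []) (fun _ _ => rfl) l, ih, Hom_getD_map, Hom_getD_map,
        map_mul]
    | cup i a b =>
      simp only [capsG]
      rw [← ih, Hom_ins2_map, map_inv]

theorem Hom_run_map {Γ Δ : Type} [Group Γ] [Group Δ] (φ : Γ →* Δ) (c : ℕ → Γ) (w : Word k) :
    ∀ (n : ℕ) (l : List Γ), runG (fun n => φ (c n)) n w (l.map φ) = (runG c n w l).map φ := by
  induction w with
  | nil => intro n l; rfl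
  | cons p w ih =>
    intro n l
    cases p with
    | cross i o =>
      simp only [runG]
      rw [← Hom_at2_map φ i (cr o) (cr o) (Hom_cr_map φ o) l]
      exact ih n _
    | cap i =>
      simp only [runG]
      rw [← Hom_at2_map φ i (fun _ _ => []) (fun _ _ => []) (fun _ _ => rfl) l, ih]
    | cup i a b =>
      simp only [runG]
      rw [← ih, Hom_ins2_map, map_inv]

theorem Hom_ofFn {Γ Δ : Type} [Group Γ] [Group Δ] (φ : Γ →* Δ) (g : Fin k → Γ) :
    List.ofFn (fun j => φ (g j)) = (List.ofFn g).map φ := by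
  rw [List.map_ofFn]
  rfl

theorem sol_map {Γ Δ : Type} [Group Γ] [Group Δ] (φ : Γ →* Δ) (w : Word k) (g : Fin k → Γ)
    (c : ℕ → Γ) (h : Sol w g c) : Sol w (fun j => φ (g j)) (fun n => φ (c n)) := by
  refine ⟨?_, fun n hn => ?_⟩
  · rw [Hom_ofFn, Hom_caps_map]
    intro x hx
    obtain ⟨y, hy, rfl⟩ := List.mem_map.1 hx
    rw [h.1 y hy, map_one]
  · change φ (c n) = 1
    rw [h.2 n hn, map_one]

theorem top_map {Γ Δ : Type} [Group Γ] [Group Δ] (φ : Γ →* Δ) (w : Word k) (g : Fin k → Γ)
    (c : ℕ → Γ) : top w (fun j => φ (g j)) (fun n => φ (c n)) = (top w g c).map φ := by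
  unfold top
  rw [Hom_ofFn, Hom_run_map]

theorem Hom_mer_cross {Γ : Type} [Group Γ] (π : FG k →* Γ) (n i : ℕ) (o : Bool) (g : List (FG k)) :
    ((Piece.cross i o : Piece k).mer n g).map π = at2 i (cr o) (g.map π) := by
  unfold Piece.mer
  apply Hom_at2_map
  intro x y
  unfold cr
  cases o <;> simp

/-- the relators map to `1` iff the images give a labelling -/
theorem Hom_rel {Γ : Type} [Group Γ] (π : FG k →* Γ) (w : Word k) : ∀ (n : ℕ) (g : List (FG k)),
    (∀ y ∈ relators n g w, π y = 1) ↔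
      (∀ x ∈ capsG (fun m => π (FreeGroup.of (Sum.inr m))) n w (g.map π), x = 1) ∧
        ∀ m, n + ncup w ≤ m → π (FreeGroup.of (Sum.inr m)) = 1 := by
  induction w with
  | nil =>
    intro n g
    simp only [relators, capsG, ncup]
    constructor
    · intro h
      exact ⟨fun x hx => absurd hx (List.not_mem_nil), fun m hm => h _ ⟨m, hm, rfl⟩⟩
    · rintro ⟨-, h⟩ y ⟨m, hm, rfl⟩
      exact h m hm
  | cons p w ih =>
    intro n g
    cases p with
    | cross i o =>
      simp only [relators, capsG, ncup]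
      rw [ih, Hom_mer_cross]
    | cap i =>
      simp only [relators, capsG, ncup, Set.mem_insert_iff, forall_eq_or_imp, List.mem_cons]
      have e : ((Piece.cap i : Piece k).mer n g).map π = at2 i (fun _ _ => []) (g.map π) := by
        unfold Piece.mer
        exact Hom_at2_map π i _ _ (fun _ _ => rfl) g
      rw [ih, e, Hom_getD_map, Hom_getD_map, map_mul, and_assoc]
    | cup i a b =>
      simp only [relators, capsG, ncup]
      have e : ((Piece.cup i a b : Piece k).mer n g).map π =
          ins2 i (π (FreeGroup.of (Sum.inr n))) (π (FreeGroup.of (Sum.inr n)))⁻¹ (g.map π) := by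
        unfold Piece.mer
        rw [Hom_ins2_map, map_inv]
      rw [ih, e]
      have e2 : n + 1 + ncup w = n + (ncup w + 1) := by omega
      rw [e2]

theorem sol_group (w : SL k) : Sol w.1 (bot w) (cupg w) := by
  have h := (Hom_rel (PresentedGroup.mk (relators 0 (List.ofFn fun j : Fin k => FreeGroup.of (Sum.inl j)) w.1))
    w.1 0 (List.ofFn fun j : Fin k => FreeGroup.of (Sum.inl j))).1 (fun y hy => PresentedGroup.one_of_mem hy)
  refine ⟨?_, fun n hn => ?_⟩
  · have h1 := h.1
    rw [← Hom_ofFn] at h1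
    exact h1
  · exact h.2 n (by omega)

theorem hom_of_sol {Γ : Type} [Group Γ] (w : SL k) (g : Fin k → Γ) (c : ℕ → Γ)
    (h : Sol w.1 g c) :
    ∃ φ : group w →* Γ, (∀ j, φ (bot w j) = g j) ∧ ∀ n, φ (cupg w n) = c n := by
  have h1 : ∀ y ∈ relators 0 (List.ofFn fun j : Fin k => FreeGroup.of (Sum.inl j)) w.1,
      FreeGroup.lift (Sum.elim g c) y = 1 := by
    refine (Hom_rel (FreeGroup.lift (Sum.elim g c)) w.1 0 _).2 ⟨?_, fun m hm => ?_⟩
    · rw [← Hom_ofFn]
      simpa using h.1
    · rw [FreeGroup.lift_apply_of, Sum.elim_inr]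
      exact h.2 m (by omega)
  refine ⟨PresentedGroup.toGroup h1, fun j => ?_, fun n => ?_⟩
  · exact PresentedGroup.toGroup.of h1
  · exact PresentedGroup.toGroup.of h1

theorem Hom_caps_congr {Γ : Type} [Group Γ] (c c' : ℕ → Γ) (w : Word k) : ∀ (n : ℕ) (l : List Γ),
    (∀ m, n ≤ m → c m = c' m) → capsG c n w l = capsG c' n w l := by
  induction w with
  | nil => intro n l _; rfl
  | cons p w ih =>
    intro n l h
    cases p with
    | cross i o => exact ih _ _ h
    | cap i =>
      simp only [capsG]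
      rw [ih _ _ h]
    | cup i a b =>
      simp only [capsG]
      rw [h n le_rfl]
      exact ih _ _ (fun m hm => h m (by omega))

theorem Hom_run_congr {Γ : Type} [Group Γ] (c c' : ℕ → Γ) (w : Word k) : ∀ (n : ℕ) (l : List Γ),
    (∀ m, n ≤ m → c m = c' m) → runG c n w l = runG c' n w l := by
  induction w with
  | nil => intro n l _; rfl
  | cons p w ih =>
    intro n l h
    cases p with
    | cross i o => exact ih _ _ h
    | cap i => exact ih _ _ h
    | cup i a b =>
      simp only [runG]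
      rw [h n le_rfl]
      exact ih _ _ (fun m hm => h m (by omega))

theorem Hom_lab {Γ : Type} [Group Γ] (l' : List Γ) (w : Word k) : ∀ (n : ℕ) (l : List Γ),
    Lab w l l' ↔ ∃ c : ℕ → Γ, ((∀ x ∈ capsG c n w l, x = 1) ∧ ∀ m, n + ncup w ≤ m → c m = 1) ∧
      runG c n w l = l' := by
  induction w with
  | nil =>
    intro n l
    simp only [Lab, capsG, runG, ncup]
    constructor
    · intro h
      exact ⟨fun _ => 1, ⟨fun x hx => absurd hx List.not_mem_nil, fun _ _ => rfl⟩, h⟩
    · rintro ⟨_, _, h⟩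
      exact h
  | cons p w ih =>
    intro n l
    cases p with
    | cross i o =>
      simp only [Lab, capsG, runG, ncup]
      exact ih n _
    | cap i =>
      simp only [Lab, capsG, runG, ncup, List.mem_cons, forall_eq_or_imp]
      rw [ih n]
      constructor
      · rintro ⟨h1, c, ⟨h2, h3⟩, h4⟩
        exact ⟨c, ⟨⟨h1, h2⟩, h3⟩, h4⟩
      · rintro ⟨c, ⟨⟨h1, h2⟩, h3⟩, h4⟩
        exact ⟨h1, c, ⟨h2, h3⟩, h4⟩
    | cup i a b =>
      simp only [Lab, capsG, runG, ncup]
      constructor
      · rintro ⟨g, hg⟩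
        obtain ⟨c, ⟨h2, h3⟩, h4⟩ := (ih (n + 1) _).1 hg
        have hc : ∀ m, n + 1 ≤ m → Function.update c n g m = c m := by
          intro m hm
          exact Function.update_of_ne (by omega) _ _
        refine ⟨Function.update c n g, ⟨?_, fun m hm => ?_⟩, ?_⟩
        · rw [Function.update_self, Hom_caps_congr _ c w (n + 1) _ hc]
          exact h2
        · rw [hc m (by omega)]
          exact h3 m (by omega)
        · rw [Function.update_self, Hom_run_congr _ c w (n + 1) _ hc]
          exact h4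
      · rintro ⟨c, ⟨h2, h3⟩, h4⟩
        exact ⟨c n, (ih (n + 1) _).2 ⟨c, ⟨h2, fun m hm => h3 m (by omega)⟩, h4⟩⟩

theorem lab_iff {Γ : Type} [Group Γ] (w : Word k) (g : Fin k → Γ) (l' : List Γ) :
    Lab w (List.ofFn g) l' ↔ ∃ c, Sol w g c ∧ top w g c = l' := by
  rw [Hom_lab l' w 0]
  unfold Sol top
  simp only [Nat.zero_add]

end Pool.Agent.MQ1
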