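import Pool.Agent.MQ1.Uni

set_option autoImplicit false

namespace Pool.Agent.MQ1

open Pool.Agent.StrLink

variable {k : ℕ}

/-! ## UniqU.lean (induction on `d`: `Agree d (χ y) (χ' y)` for all `y`; the differences of the
entries at distance `d` are homomorphisms `G → ℚ`) -/

/-- The induction step. -/
theorem uniqU_step {G : Type} [Group G] (X : Set G)
    (hX : ∀ α : G →* Multiplicative ℚ, (∀ x ∈ X, α x = 1) → α = 1)
    {r : ℕ} (χ χ' : G →* U r) (h : ∀ x ∈ X, χ x = χ' x) (d : ℕ) (hd : 1 ≤ d)
    (hA : ∀ y, Agree d (χ y) (χ' y)) (a b : Fin (r + 1)) (hab : (b : ℕ) = a + d) (y : G) :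
    ent (χ y) a b = ent (χ' y) a b := by
  let α : G →* Multiplicative ℚ :=
    { toFun := fun y => Multiplicative.ofAdd (ent (χ y) a b - ent (χ' y) a b)
      map_one' := by
        rw [map_one, map_one, sub_self]
        rfl
      map_mul' := by
        intro y z
        rw [map_mul, map_mul, diff_mul hd (hA y) (hA z) a b hab]
        rfl }
  have h1 : α = 1 := by
    refine hX α fun x hx => ?_
    change Multiplicative.ofAdd (ent (χ x) a b - ent (χ' x) a b) = 1
    rw [h x hx, sub_self]
    rfl
  have h2 : Multiplicative.ofAdd (ent (χ y) a b - ent (χ' y) a b) = (1 : Multiplicative ℚ) :=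
    DFunLike.congr_fun h1 y
  have h3 : ent (χ y) a b - ent (χ' y) a b = 0 := by
    have h4 := congrArg Multiplicative.toAdd h2
    simpa using h4
  exact sub_eq_zero.mp h3

theorem hom_unique {G : Type} [Group G] (X : Set G)
    (hX : ∀ α : G →* Multiplicative ℚ, (∀ x ∈ X, α x = 1) → α = 1)
    {r : ℕ} (χ χ' : G →* U r) (h : ∀ x ∈ X, χ x = χ' x) : χ = χ' := by
  have key : ∀ d : ℕ, ∀ y, Agree (d + 1) (χ y) (χ' y) := by
    intro d
    induction d with
    | zero =>
      intro y a b hab
      have hba : b ≤ a := by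
        rw [Fin.le_def]
        omega
      rw [ent_low _ a b hba, ent_low _ a b hba]
    | succ d ih =>
      intro y a b hab
      rcases Nat.lt_or_ge (b : ℕ) ((a : ℕ) + (d + 1)) with h1 | h1
      · exact ih y a b h1
      · exact uniqU_step X hX χ χ' h (d + 1) (by omega) ih a b (by omega) y
  refine MonoidHom.ext fun y => U_ext fun a b => key r y a b ?_
  have := b.isLt
  omega

end Pool.Agent.MQ1
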