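import Pool.Agent.MQ1.Uni
import Pool.Agent.MQ1.UniqU
import Pool.Agent.MQ1.Diag
import Pool.Agent.MQ1.Hom

set_option autoImplicit false

namespace Pool.Agent.MQ1

open Pool.Agent.StrLink

variable {k : ℕ}

/-! ## Exist.lean (levels: correct the entries at distance `d` of the `c n` by solving a linear
system over `ℚ` with as many equations (`ncap`) as unknowns (`ncup`), which is injective by
`ab_trivial` for `Multiplicative ℚ`) -/

private lemma exist_at2_map {α β : Type} (φ : α → β) (f : α → α → List α) (f' : β → β → List β)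
    (h : ∀ x y, f' (φ x) (φ y) = (f x y).map φ) (i : ℕ) (l : List α) :
    at2 i f' (l.map φ) = (at2 i f l).map φ := by
  unfold at2
  rw [← List.map_drop]
  rcases hd : l.drop i with _ | ⟨x, _ | ⟨y, b⟩⟩
  · simp
  · simp
  · simp [h, List.map_take]

private lemma exist_getD_map {Γ Δ : Type} [Group Γ] [Group Δ] (φ : Γ →* Δ) (l : List Γ) (j : ℕ) :
    (l.map φ).getD j 1 = φ (l.getD j 1) := by
  rw [List.getD_eq_getElem?_getD, List.getD_eq_getElem?_getD, List.getElem?_map]
  cases l[j]? <;> simp

private lemma exist_caps_map {Γ Δ : Type} [Group Γ] [Group Δ] (φ : Γ →* Δ) (c : ℕ → Γ) :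
    ∀ (w : Word k) (n : ℕ) (l : List Γ),
      capsG (fun n => φ (c n)) n w (l.map φ) = (capsG c n w l).map φ
  | [], _, _ => rfl
  | .cross i o :: w, n, l => by
    rw [capsG, capsG, exist_at2_map φ (cr o) (cr o) (fun x y => by
      unfold cr
      cases o <;> simp) i l]
    exact exist_caps_map φ c w n _
  | .cap i :: w, n, l => by
    rw [capsG, capsG, List.map_cons, exist_at2_map φ (fun _ _ => []) (fun _ _ => []) (fun _ _ => rfl) i l,
      exist_caps_map φ c w n _]
    congr 1
    rw [map_mul, exist_getD_map, exist_getD_map]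
  | .cup i _ _ :: w, n, l => by
    rw [capsG, capsG]
    have h : ins2 i (φ (c n)) (φ (c n))⁻¹ (l.map φ) = (ins2 i (c n) (c n)⁻¹ l).map φ := by
      unfold ins2
      simp [List.map_take, List.map_drop]
    rw [h]
    exact exist_caps_map φ c w (n + 1) _

private lemma exist_caps_len {Γ : Type} [Group Γ] (c : ℕ → Γ) :
    ∀ (w : Word k) (n : ℕ) (l : List Γ), (capsG c n w l).length = ncap w
  | [], _, _ => rfl
  | .cross i o :: w, n, l => by rw [capsG, ncap, exist_caps_len c w]
  | .cap i :: w, n, l => by rw [capsG, ncap, List.length_cons, exist_caps_len c w]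
  | .cup i _ _ :: w, n, l => by rw [capsG, ncap, exist_caps_len c w]

/-- extension by zero -/
private def exist_ext {m : ℕ} (δ : Fin m → ℚ) (n : ℕ) : ℚ := if h : n < m then δ ⟨n, h⟩ else 0

/-- the abelian system is uniquely solvable -/
private lemma exist_ab (w : SL k) : ∀ b : Fin (ncup w.1) → ℚ, ∃ δ : Fin (ncup w.1) → ℚ,
    ∀ i : Fin (ncup w.1), (capsG (fun n => Multiplicative.ofAdd (exist_ext δ n)) 0 w.1
      (List.ofFn fun _ : Fin k => (1 : Multiplicative ℚ))).getD i 1 = Multiplicative.ofAdd (b i) := by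
  obtain ⟨m, hm⟩ : ∃ m, m = ncup w.1 := ⟨_, rfl⟩
  rw [← hm]
  obtain ⟨e, he⟩ : ∃ e : ℕ → Multiplicative (Fin m → ℚ), e = fun n =>
    Multiplicative.ofAdd fun j : Fin m => if (j : ℕ) = n then (1 : ℚ) else 0 := ⟨_, rfl⟩
  obtain ⟨K, hK⟩ : ∃ K : Matrix (Fin m) (Fin m) ℚ, K = Matrix.of fun i : Fin m =>
    Multiplicative.toAdd ((capsG e 0 w.1
      (List.ofFn fun _ : Fin k => (1 : Multiplicative (Fin m → ℚ)))).getD (i : ℕ) 1) := ⟨_, rfl⟩
  obtain ⟨φ, hφ⟩ : ∃ φ : (Fin m → ℚ) → (Multiplicative (Fin m → ℚ) →* Multiplicative ℚ),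
      ∀ δ a, φ δ a = Multiplicative.ofAdd (∑ j, Multiplicative.toAdd a j * δ j) := by
    refine ⟨fun δ => { toFun := fun a => Multiplicative.ofAdd (∑ j, Multiplicative.toAdd a j * δ j)
                       map_one' := ?_
                       map_mul' := ?_ }, fun _ _ => rfl⟩
    · simp
    · intro x y
      rw [← ofAdd_add, ← Finset.sum_add_distrib]
      congr 1
      refine Finset.sum_congr rfl fun j _ => ?_
      rw [toAdd_mul, Pi.add_apply]
      ring
  have hcaps : ∀ δ : Fin m → ℚ, capsG (fun n => Multiplicative.ofAdd (exist_ext δ n)) 0 w.1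
      (List.ofFn fun _ : Fin k => (1 : Multiplicative ℚ)) =
      (capsG e 0 w.1 (List.ofFn fun _ : Fin k => (1 : Multiplicative (Fin m → ℚ)))).map (φ δ) := by
    intro δ
    rw [← exist_caps_map]
    congr 1
    · funext n
      rw [he, hφ]
      congr 1
      unfold exist_ext
      simp only [toAdd_ofAdd, ite_mul, one_mul, zero_mul]
      split_ifs with h
      · rw [Finset.sum_eq_single (⟨n, h⟩ : Fin m)]
        · simp
        · intro j _ hj
          rw [if_neg]
          intro h2
          exact hj (Fin.ext h2)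
        · intro h2
          exact absurd (Finset.mem_univ _) h2
      · symm
        refine Finset.sum_eq_zero fun j _ => ?_
        rw [if_neg]
        intro h2
        exact h (h2 ▸ j.2)
    · rw [List.map_ofFn]
      congr 1
      funext j
      simp
  have hget : ∀ (δ : Fin m → ℚ) (i : ℕ), (capsG (fun n => Multiplicative.ofAdd (exist_ext δ n)) 0 w.1
      (List.ofFn fun _ : Fin k => (1 : Multiplicative ℚ))).getD i 1 =
      φ δ ((capsG e 0 w.1
        (List.ofFn fun _ : Fin k => (1 : Multiplicative (Fin m → ℚ)))).getD i 1) := by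
    intro δ i
    rw [hcaps, exist_getD_map]
  have hmul : ∀ (δ : Fin m → ℚ) (i : Fin m),
      (capsG (fun n => Multiplicative.ofAdd (exist_ext δ n)) 0 w.1
      (List.ofFn fun _ : Fin k => (1 : Multiplicative ℚ))).getD i 1 =
      Multiplicative.ofAdd (K.mulVec δ i) := by
    intro δ i
    rw [hget, hφ, hK]
    rfl
  have hinj : Function.Injective K.mulVec := by
    rw [← Matrix.coe_mulVecLin, ← LinearMap.ker_eq_bot, LinearMap.ker_eq_bot']
    intro δ hδ
    rw [Matrix.coe_mulVecLin] at hδ
    have hsol : Sol w.1 (fun _ => 1) (fun n => Multiplicative.ofAdd (exist_ext δ n)) := by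
      refine ⟨?_, ?_⟩
      · intro x hx
        obtain ⟨i, hi, rfl⟩ := List.getElem_of_mem hx
        have hi' : i < m := by
          rw [exist_caps_len, ncap_eq, ← hm] at hi
          exact hi
        have h1 := hmul δ ⟨i, hi'⟩
        rw [hδ] at h1
        rw [List.getD_eq_getElem _ _ hi] at h1
        rw [h1]
        rfl
      · intro n hn
        have h9 : ¬ n < m := by rw [hm]; exact not_lt.2 hn
        show Multiplicative.ofAdd (exist_ext δ n) = 1
        unfold exist_ext
        rw [dif_neg h9]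
        rfl
    funext j
    have h2 := ab_trivial w _ hsol j
    have h3 : exist_ext δ j = 0 := h2
    unfold exist_ext at h3
    rw [dif_pos j.2] at h3
    exact h3
  have hsurj : Function.Surjective K.mulVec :=
    Matrix.mulVec_surjective_iff_isUnit.2 (Matrix.mulVec_injective_iff_isUnit.1 hinj)
  intro b
  obtain ⟨δ, hδ⟩ := hsurj b
  refine ⟨δ, fun i => ?_⟩
  rw [hmul, hδ]

/-- one level -/
private lemma exist_step (w : SL k) {r : ℕ} (g : Fin k → U r) (d : ℕ) (hd : 1 ≤ d) (c : ℕ → U r)
    (h1 : ∀ n, ncup w.1 ≤ n → c n = 1)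
    (h2 : ∀ x ∈ capsG c 0 w.1 (List.ofFn g), Agree d x 1) :
    ∃ c' : ℕ → U r, (∀ n, ncup w.1 ≤ n → c' n = 1) ∧
      ∀ x ∈ capsG c' 0 w.1 (List.ofFn g), Agree (d + 1) x 1 := by
  have hab := exist_ab w
  choose δ hδ using fun a : Fin (r + 1) => hab (fun i => if h : (a : ℕ) + d < r + 1 then
    -ent ((capsG c 0 w.1 (List.ofFn g)).getD i 1) a ⟨(a : ℕ) + d, h⟩ else 0)
  have hex : ∀ n : ℕ, ∃ x : U r, ∀ a b : Fin (r + 1),
      ent x a b = ent (c n) a b + if (b : ℕ) = a + d then exist_ext (δ a) n else 0 := by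
    intro n
    refine exists_U (fun a b => ent (c n) a b + if (b : ℕ) = a + d then exist_ext (δ a) n else 0) ?_
    intro a b hba
    have h3 : (b : ℕ) ≤ a := hba
    have h9 : ¬ (b : ℕ) = a + d := by omega
    show ent (c n) a b + (if (b : ℕ) = a + d then exist_ext (δ a) n else 0) = _
    rw [if_neg h9, add_zero]
    exact ent_low _ _ _ hba
  choose c' hc' using hex
  have hagree : ∀ n, Agree d (c' n) (c n) := by
    intro n a b hab2
    rw [hc', if_neg (by omega), add_zero]
  refine ⟨c', ?_, ?_⟩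
  · intro n hn
    rw [← h1 n hn]
    refine U_ext fun a b => ?_
    rw [hc']
    unfold exist_ext
    rw [dif_neg (not_lt.2 hn)]
    simp
  -- pairs of labels which agree below distance `d`
  obtain ⟨P, hP⟩ : ∃ P : Subgroup (U r × U r), ∀ x, x ∈ P ↔ Agree d x.1 x.2 := by
    refine ⟨{ carrier := {x | Agree d x.1 x.2}
              one_mem' := fun _ _ _ => rfl
              mul_mem' := fun hx hy => agree_mul hx hy
              inv_mem' := fun hx => agree_inv hx }, fun x => Iff.rfl⟩
  obtain ⟨cP, hcP⟩ : ∃ cP : ℕ → P, ∀ n, (cP n : U r × U r) = (c' n, c n) :=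
    ⟨fun n => ⟨(c' n, c n), (hP _).2 (hagree n)⟩, fun _ => rfl⟩
  obtain ⟨gP, hgP⟩ : ∃ gP : Fin k → P, ∀ j, (gP j : U r × U r) = (g j, g j) :=
    ⟨fun j => ⟨(g j, g j), (hP _).2 (fun _ _ _ => rfl)⟩, fun _ => rfl⟩
  obtain ⟨F, hF⟩ : ∃ F : P →* U r, ∀ x, F x = (x : U r × U r).1 :=
    ⟨(MonoidHom.fst _ _).comp P.subtype, fun _ => rfl⟩
  obtain ⟨S, hS⟩ : ∃ S : P →* U r, ∀ x, S x = (x : U r × U r).2 :=
    ⟨(MonoidHom.snd _ _).comp P.subtype, fun _ => rfl⟩
  have hLF : capsG c' 0 w.1 (List.ofFn g) = (capsG cP 0 w.1 (List.ofFn gP)).map F := by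
    rw [← exist_caps_map]
    congr 1
    · funext n
      rw [hF, hcP]
    · rw [List.map_ofFn]
      congr 1
      funext j
      rw [Function.comp_apply, hF, hgP]
  have hLS : capsG c 0 w.1 (List.ofFn g) = (capsG cP 0 w.1 (List.ofFn gP)).map S := by
    rw [← exist_caps_map]
    congr 1
    · funext n
      rw [hS, hcP]
    · rw [List.map_ofFn]
      congr 1
      funext j
      rw [Function.comp_apply, hS, hgP]
  intro x hx
  rw [hLF] at hx
  obtain ⟨p, hp, rfl⟩ := List.mem_map.1 hx
  have h3 : Agree d (S p) 1 := by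
    apply h2
    rw [hLS]
    exact List.mem_map.2 ⟨p, hp, rfl⟩
  have h4 : Agree d (F p) (S p) := by
    rw [hF, hS]
    exact (hP _).1 p.2
  intro a b hb
  rcases Nat.lt_or_ge b (a + d) with hbd | hbd
  · rw [h4 a b hbd, h3 a b hbd]
  · have hb' : (b : ℕ) = a + d := by omega
    have had : (a : ℕ) + d < r + 1 := hb' ▸ b.2
    obtain ⟨D, hD⟩ : ∃ D : P →* Multiplicative ℚ, ∀ x, D x = Multiplicative.ofAdd
        (ent (x : U r × U r).1 a b - ent (x : U r × U r).2 a b) := by
      refine ⟨{ toFun := fun x => Multiplicative.ofAdd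
                  (ent (x : U r × U r).1 a b - ent (x : U r × U r).2 a b)
                map_one' := ?_
                map_mul' := ?_ }, fun _ => rfl⟩
      · show Multiplicative.ofAdd (ent (1 : U r) a b - ent (1 : U r) a b) = 1
        rw [sub_self]
        rfl
      · intro x y
        rw [← ofAdd_add]
        congr 1
        exact diff_mul hd ((hP _).1 x.2) ((hP _).1 y.2) a b hb'
    have hLD : capsG (fun n => Multiplicative.ofAdd (exist_ext (δ a) n)) 0 w.1
        (List.ofFn fun _ : Fin k => (1 : Multiplicative ℚ)) =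
        (capsG cP 0 w.1 (List.ofFn gP)).map D := by
      rw [← exist_caps_map]
      congr 1
      · funext n
        rw [hD, hcP]
        show _ = Multiplicative.ofAdd (ent (c' n) a b - ent (c n) a b)
        rw [hc', if_pos hb', add_sub_cancel_left]
      · rw [List.map_ofFn]
        congr 1
        funext j
        rw [Function.comp_apply, hD, hgP]
        show _ = Multiplicative.ofAdd (ent (g j) a b - ent (g j) a b)
        rw [sub_self]
        rfl
    obtain ⟨i, hi, rfl⟩ := List.getElem_of_mem hp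
    have hi' : i < ncup w.1 := by
      have := hi
      rw [exist_caps_len, ncap_eq] at this
      exact this
    have h5 := hδ a ⟨i, hi'⟩
    rw [hLD, hLS, dif_pos had] at h5
    simp only at h5
    rw [List.getD_eq_getElem _ _ (by rw [List.length_map]; exact hi), List.getElem_map,
      List.getD_eq_getElem _ _ (by rw [List.length_map]; exact hi), List.getElem_map, hD] at h5
    have h6 : (⟨(a : ℕ) + d, had⟩ : Fin (r + 1)) = b := Fin.ext hb'.symm
    rw [h6] at h5
    have h7 := Multiplicative.ofAdd.injective h5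
    rw [hF]
    rw [hS] at h7
    have hne : a ≠ b := by
      intro h
      rw [h] at hb'
      omega
    rw [ent_one, if_neg hne]
    linarith

theorem exists_sol (w : SL k) {r : ℕ} (g : Fin k → U r) : ∃ c, Sol w.1 g c := by
  have key : ∀ d : ℕ, ∃ c : ℕ → U r, (∀ n, ncup w.1 ≤ n → c n = 1) ∧
      ∀ x ∈ capsG c 0 w.1 (List.ofFn g), Agree (d + 1) x 1 := by
    intro d
    induction d with
    | zero =>
      refine ⟨fun _ => 1, fun _ _ => rfl, fun x _ a b hab => ?_⟩
      have hba : b ≤ a := by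
        have : (b : ℕ) ≤ a := by omega
        exact this
      rw [ent_low x a b hba, ent_low 1 a b hba]
    | succ d ih =>
      obtain ⟨c, hc1, hc2⟩ := ih
      exact exist_step w g (d + 1) (by omega) c hc1 hc2
  obtain ⟨c, hc1, hc2⟩ := key r
  refine ⟨c, fun x hx => ?_, hc1⟩
  refine U_ext fun a b => hc2 x hx a b ?_
  have := b.2
  omega

/-- from `hom_unique`, `ab_trivial`, `hom_of_sol` -/
theorem sol_unique (w : SL k) {r : ℕ} (g : Fin k → U r) (c c' : ℕ → U r) (h : Sol w.1 g c)
    (h' : Sol w.1 g c') : c = c' := by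
  obtain ⟨φ, hφ1, hφ2⟩ := hom_of_sol w g c h
  obtain ⟨φ', hφ1', hφ2'⟩ := hom_of_sol w g c' h'
  have hX : ∀ α : group w →* Multiplicative ℚ, (∀ x ∈ Set.range (bot w), α x = 1) → α = 1 := by
    intro α hα
    have h1 := sol_map α w.1 (bot w) (cupg w) (sol_group w)
    have h2 : (fun j => α (bot w j)) = fun _ => 1 := by
      funext j
      exact hα _ ⟨j, rfl⟩
    rw [h2] at h1
    refine PresentedGroup.ext ?_
    rintro (j | n)
    · exact hα _ ⟨j, rfl⟩
    · exact ab_trivial w _ h1 n
  have h3 : φ = φ' := by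
    refine hom_unique (Set.range (bot w)) hX φ φ' ?_
    rintro _ ⟨j, rfl⟩
    rw [hφ1, hφ1']
  funext n
  rw [← hφ2, ← hφ2', h3]

end Pool.Agent.MQ1
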