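import Pool.Agent.MQ1.CD
import Pool.Agent.MQ1.Diag
import Pool.Agent.MQ1.Hom

set_option autoImplicit false

namespace Pool.Agent.MQ1

open Pool.Agent.StrLink

variable {k : ℕ}

/-! ## FT.lean : finite type (induction on the distance `d`; modulo functions of degree `< d` the
entries at distance `d` are an abelian labelling of `w` itself, so zero by `ab_trivial`) -/

namespace FTAux

/-! ### lists -/

theorem at2_map {α β : Type} (φ : α → β) (i : ℕ) (f : α → α → List α) (f' : β → β → List β)
    (l : List α) (h : ∀ x ∈ l, ∀ y ∈ l, f' (φ x) (φ y) = (f x y).map φ) :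
    at2 i f' (l.map φ) = (at2 i f l).map φ := by
  unfold at2
  rw [← List.map_drop, ← List.map_take]
  have hmem : ∀ z ∈ l.drop i, z ∈ l := fun z hz => List.mem_of_mem_drop hz
  generalize l.drop i = m at hmem ⊢
  match m with
  | [] => rfl
  | [x] => rfl
  | x :: y :: b =>
    simp only [List.map_cons, List.map_append]
    rw [h x (hmem x (by simp)) y (hmem y (by simp))]

theorem at2_mem {α : Type} (i : ℕ) (f : α → α → List α) (l : List α) (z : α)
    (hz : z ∈ at2 i f l) : z ∈ l ∨ ∃ x ∈ l, ∃ y ∈ l, z ∈ f x y := by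
  unfold at2 at hz
  have hmem : ∀ z ∈ l.drop i, z ∈ l := fun z hz => List.mem_of_mem_drop hz
  generalize l.drop i = m at hmem hz
  match m with
  | [] => exact Or.inl hz
  | [x] => exact Or.inl hz
  | x :: y :: b =>
    simp only [List.mem_append] at hz
    rcases hz with (hz | hz) | hz
    · exact Or.inl (List.mem_of_mem_take hz)
    · exact Or.inr ⟨x, hmem x (by simp), y, hmem y (by simp), hz⟩
    · exact Or.inl (hmem z (by simp [hz]))

theorem ins2_map {α β : Type} (φ : α → β) (i : ℕ) (x y : α) (l : List α) :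
    ins2 i (φ x) (φ y) (l.map φ) = (ins2 i x y l).map φ := by
  unfold ins2
  simp [List.map_take, List.map_drop]

theorem ins2_mem {α : Type} (i : ℕ) (x y : α) (l : List α) (z : α) (hz : z ∈ ins2 i x y l) :
    z = x ∨ z = y ∨ z ∈ l := by
  unfold ins2 at hz
  simp only [List.mem_append, List.mem_cons, List.not_mem_nil, or_false] at hz
  rcases hz with (hz | hz | hz) | hz
  · exact Or.inr (Or.inr (List.mem_of_mem_take hz))
  · exact Or.inl hz
  · exact Or.inr (Or.inl hz)
  · exact Or.inr (Or.inr (List.mem_of_mem_drop hz))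

theorem getD_map {α β : Type} (φ : α → β) (l : List α) (i : ℕ) (e : α) :
    (l.map φ).getD i (φ e) = φ (l.getD i e) := by
  rw [List.getD_eq_getElem?_getD, List.getD_eq_getElem?_getD, List.getElem?_map]
  cases l[i]? <;> rfl

/-! ### functions of low degree -/

/-- functions of the cube with values in the unitriangular matrices -/
abbrev FU (r : ℕ) : Type := Finset ℕ → U r

/-- degree at most `n - 2`, zero if `n < 2` -/
def low (n : ℕ) : Submodule ℚ (Finset ℕ → ℚ) := if 2 ≤ n then CD (n - 2) else ⊥

theorem low_le (n : ℕ) : low n ≤ CD (n - 1) := by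
  unfold low
  split_ifs with h
  · exact CD_mono (by omega)
  · exact bot_le

theorem low_ind {n : ℕ} {F : Finset ℕ → ℚ} (hF : F ∈ low n) (t : ℕ) :
    (fun S => if t ∈ S then F S else 0) ∈ CD (n - 1) := by
  unfold low at hF
  split_ifs at hF with h
  · have h1 := CD_mul (CD_ind t) hF
    have h2 : 1 + (n - 2) = n - 1 := by omega
    rw [h2] at h1
    have h3 : (fun S => if t ∈ S then F S else 0) = (fun S => if t ∈ S then (1 : ℚ) else 0) * F := by
      funext S
      simp only [Pi.mul_apply]
      split_ifs <;> simp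
    rw [h3]
    exact h1
  · rw [Submodule.mem_bot] at hF
    have h3 : (fun S => if t ∈ S then F S else 0) = (0 : Finset ℕ → ℚ) := by
      funext S
      rw [hF]
      simp
    rw [h3]
    exact Submodule.zero_mem _

theorem low_ind' {n : ℕ} {F : Finset ℕ → ℚ} (hF : F ∈ low n) (t : ℕ) :
    (fun S => if t ∈ S then 0 else F S) ∈ CD (n - 1) := by
  have h1 := Submodule.sub_mem _ (low_le n hF) (low_ind hF t)
  have h2 : (fun S => if t ∈ S then 0 else F S) = F - fun S => if t ∈ S then F S else 0 := by
    funext S
    simp only [Pi.sub_apply]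
    split_ifs <;> simp
  rw [h2]
  exact h1

/-- weight one, up to distance less than `d` -/
def W1lt {r : ℕ} (d : ℕ) (x : FU r) : Prop :=
  ∀ a b : Fin (r + 1), a < b → (b : ℕ) < a + d → (fun S => ent (x S) a b) ∈ CD ((b : ℕ) - a - 1)

theorem W1lt_mono {r d e : ℕ} (h : e ≤ d) {x : FU r} (hx : W1lt d x) : W1lt e x :=
  fun a b hab hb => hx a b hab (by omega)

/-- the middle part of the product -/
def mid {r : ℕ} (x y : FU r) (a b : Fin (r + 1)) : Finset ℕ → ℚ :=
  fun S => ∑ c ∈ Finset.Ioo a b, ent (x S) a c * ent (y S) c b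

theorem ent_split {r : ℕ} (x y : U r) {a b : Fin (r + 1)} (h : a < b) :
    ent (x * y) a b = ent x a b + ent y a b + ∑ c ∈ Finset.Ioo a b, ent x a c * ent y c b := by
  rw [ent_mul]
  have h1 : ∑ c, ent x a c * ent y c b = ∑ c ∈ Finset.Icc a b, ent x a c * ent y c b := by
    symm
    refine Finset.sum_subset (Finset.subset_univ _) ?_
    intro c _ hc
    rw [Finset.mem_Icc, not_and_or] at hc
    rcases hc with hc | hc
    · rw [ent_low x a c (le_of_lt (not_le.1 hc)), if_neg (ne_of_gt (not_le.1 hc)), zero_mul]
    · rw [ent_low y c b (le_of_lt (not_le.1 hc)), if_neg (ne_of_gt (not_le.1 hc)), mul_zero]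
  rw [h1, ← Finset.Ioc_insert_left h.le, Finset.sum_insert (by simp),
    ← Finset.Ioo_insert_right h, Finset.sum_insert (by simp)]
  rw [ent_low x a a le_rfl, if_pos rfl, ent_low y b b le_rfl, if_pos rfl]
  ring

theorem mid_mem {r d : ℕ} {x y : FU r} (hx : W1lt d x) (hy : W1lt d y) {a b : Fin (r + 1)}
    (hd : (b : ℕ) ≤ a + d) : mid x y a b ∈ low ((b : ℕ) - a) := by
  have h1 : mid x y a b = ∑ c ∈ Finset.Ioo a b,
      ((fun S => ent (x S) a c) * (fun S => ent (y S) c b)) := by
    funext S
    rw [Finset.sum_apply]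
    rfl
  rw [h1]
  refine Submodule.sum_mem _ fun c hc => ?_
  rw [Finset.mem_Ioo] at hc
  have hac : (a : ℕ) < c := hc.1
  have hcb : (c : ℕ) < b := hc.2
  unfold low
  rw [if_pos (by omega)]
  have h2 := CD_mul (hx a c hc.1 (by omega)) (hy c b hc.2 (by omega))
  have h3 : ((c : ℕ) - a - 1) + ((b : ℕ) - c - 1) = (b : ℕ) - a - 2 := by omega
  rw [h3] at h2
  exact h2

theorem W1lt_one {r : ℕ} (d : ℕ) : W1lt d (1 : FU r) := by
  intro a b hab _
  have h1 : (fun S => ent ((1 : FU r) S) a b) = (0 : Finset ℕ → ℚ) := by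
    funext S
    rw [Pi.one_apply, ent_one, if_neg hab.ne]
    rfl
  rw [h1]
  exact Submodule.zero_mem _

theorem W1lt_mul {r d : ℕ} {x y : FU r} (hx : W1lt d x) (hy : W1lt d y) : W1lt d (x * y) := by
  intro a b hab hb
  have h1 : (fun S => ent ((x * y) S) a b) =
      (fun S => ent (x S) a b) + (fun S => ent (y S) a b) + mid x y a b := by
    funext S
    exact ent_split (x S) (y S) hab
  rw [h1]
  exact Submodule.add_mem _ (Submodule.add_mem _ (hx a b hab hb) (hy a b hab hb))
    (low_le _ (mid_mem hx hy hb.le))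

theorem inv_split {r : ℕ} (x : FU r) {a b : Fin (r + 1)} (hab : a < b) :
    (fun S => ent (x⁻¹ S) a b) = -(fun S => ent (x S) a b) - mid x⁻¹ x a b := by
  funext S
  have h1 := ent_split (x S)⁻¹ (x S) hab
  rw [inv_mul_cancel, ent_one, if_neg hab.ne] at h1
  simp only [Pi.sub_apply, Pi.neg_apply, Pi.inv_apply, mid]
  linarith

theorem W1lt_inv {r d : ℕ} {x : FU r} (hx : W1lt d x) : W1lt d x⁻¹ := by
  have key : ∀ e, e ≤ d → W1lt e x⁻¹ := by
    intro e
    induction e with
    | zero =>
      intro _ a b hab hb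
      have : (a : ℕ) < b := hab
      omega
    | succ e ih =>
      intro he a b hab hb
      by_cases hb' : (b : ℕ) < a + e
      · exact ih (by omega) a b hab hb'
      · rw [inv_split x hab]
        exact Submodule.sub_mem _ (Submodule.neg_mem _ (hx a b hab (by omega)))
          (low_le _ (mid_mem (ih (by omega)) (W1lt_mono (by omega) hx) (by omega)))
  exact key d le_rfl

/-- the upper left label -/
def c1 {r : ℕ} (t : ℕ) (o : Bool) (x y : FU r) : FU r :=
  fun S => if (if t ∈ S then !o else o) then (x S)⁻¹ * y S * x S else y S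

/-- the upper right label -/
def c2 {r : ℕ} (t : ℕ) (o : Bool) (x y : FU r) : FU r :=
  fun S => if (if t ∈ S then !o else o) then x S else y S * x S * (y S)⁻¹

theorem near1 {r d : ℕ} {x y : FU r} (hx : W1lt d x) (hy : W1lt d y) {a b : Fin (r + 1)}
    (hab : a < b) (hd : (b : ℕ) ≤ a + d) :
    (fun S => ent ((x⁻¹ * y * x) S) a b - ent (y S) a b) ∈ low ((b : ℕ) - a) := by
  have hA : W1lt d (x⁻¹ * y * x) := W1lt_mul (W1lt_mul (W1lt_inv hx) hy) hx
  have h1 : (fun S => ent ((x⁻¹ * y * x) S) a b - ent (y S) a b) =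
      mid y x a b - mid x (x⁻¹ * y * x) a b := by
    funext S
    have h2 := ent_split (y S) (x S) hab
    have h3 := ent_split (x S) ((x⁻¹ * y * x) S) hab
    have h4 : x S * (x⁻¹ * y * x) S = y S * x S := by
      simp only [Pi.mul_apply, Pi.inv_apply]
      group
    rw [h4] at h3
    simp only [Pi.sub_apply, mid]
    linarith
  rw [h1]
  exact Submodule.sub_mem _ (mid_mem hy hx hd) (mid_mem hx hA hd)

theorem near2 {r d : ℕ} {x y : FU r} (hx : W1lt d x) (hy : W1lt d y) {a b : Fin (r + 1)}
    (hab : a < b) (hd : (b : ℕ) ≤ a + d) :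
    (fun S => ent ((y * x * y⁻¹) S) a b - ent (x S) a b) ∈ low ((b : ℕ) - a) := by
  have hA : W1lt d (y * x * y⁻¹) := W1lt_mul (W1lt_mul hy hx) (W1lt_inv hy)
  have h1 : (fun S => ent ((y * x * y⁻¹) S) a b - ent (x S) a b) =
      mid y x a b - mid (y * x * y⁻¹) y a b := by
    funext S
    have h2 := ent_split (y S) (x S) hab
    have h3 := ent_split ((y * x * y⁻¹) S) (y S) hab
    have h4 : (y * x * y⁻¹) S * y S = y S * x S := by
      simp only [Pi.mul_apply, Pi.inv_apply]
      group
    rw [h4] at h3
    simp only [Pi.sub_apply, mid]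
    linarith
  rw [h1]
  exact Submodule.sub_mem _ (mid_mem hy hx hd) (mid_mem hA hy hd)

theorem c1_near {r d : ℕ} (t : ℕ) (o : Bool) {x y : FU r} (hx : W1lt d x) (hy : W1lt d y)
    {a b : Fin (r + 1)} (hab : a < b) (hd : (b : ℕ) ≤ a + d) :
    (fun S => ent (c1 t o x y S) a b - ent (y S) a b) ∈ CD ((b : ℕ) - a - 1) := by
  have h1 := near1 hx hy hab hd
  cases o with
  | false =>
    have h2 := low_ind h1 t
    have h3 : (fun S => ent (c1 t false x y S) a b - ent (y S) a b) = fun S =>
        if t ∈ S then ent ((x⁻¹ * y * x) S) a b - ent (y S) a b else 0 := by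
      funext S
      unfold c1
      by_cases ht : t ∈ S
      · simp only [ht, if_true, Bool.not_false]
        rfl
      · simp [ht]
    rw [h3]
    exact h2
  | true =>
    have h2 := low_ind' h1 t
    have h3 : (fun S => ent (c1 t true x y S) a b - ent (y S) a b) = fun S =>
        if t ∈ S then 0 else ent ((x⁻¹ * y * x) S) a b - ent (y S) a b := by
      funext S
      unfold c1
      by_cases ht : t ∈ S
      · simp [ht]
      · simp only [ht, if_false, if_true]
        rfl
    rw [h3]
    exact h2

theorem c2_near {r d : ℕ} (t : ℕ) (o : Bool) {x y : FU r} (hx : W1lt d x) (hy : W1lt d y)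
    {a b : Fin (r + 1)} (hab : a < b) (hd : (b : ℕ) ≤ a + d) :
    (fun S => ent (c2 t o x y S) a b - ent (x S) a b) ∈ CD ((b : ℕ) - a - 1) := by
  have h1 := near2 hx hy hab hd
  cases o with
  | false =>
    have h2 := low_ind' h1 t
    have h3 : (fun S => ent (c2 t false x y S) a b - ent (x S) a b) = fun S =>
        if t ∈ S then 0 else ent ((y * x * y⁻¹) S) a b - ent (x S) a b := by
      funext S
      unfold c2
      by_cases ht : t ∈ S
      · simp [ht]
      · simp only [ht, if_false]
        rfl
    rw [h3]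
    exact h2
  | true =>
    have h2 := low_ind h1 t
    have h3 : (fun S => ent (c2 t true x y S) a b - ent (x S) a b) = fun S =>
        if t ∈ S then ent ((y * x * y⁻¹) S) a b - ent (x S) a b else 0 := by
      funext S
      unfold c2
      by_cases ht : t ∈ S
      · simp only [ht, if_true, Bool.not_true]
        rfl
      · simp [ht]
    rw [h3]
    exact h2

theorem W1lt_of_near {r d : ℕ} {x z : FU r} (hx : W1lt d x)
    (h : ∀ a b : Fin (r + 1), a < b → (b : ℕ) ≤ a + d →
      (fun S => ent (z S) a b - ent (x S) a b) ∈ CD ((b : ℕ) - a - 1)) : W1lt d z := by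
  intro a b hab hb
  have h1 := Submodule.add_mem _ (h a b hab hb.le) (hx a b hab hb)
  have h2 : (fun S => ent (z S) a b) = (fun S => ent (z S) a b - ent (x S) a b) +
      (fun S => ent (x S) a b) := by
    funext S
    simp only [Pi.add_apply]
    ring
  rw [h2]
  exact h1

/-! ### the labelling of the whole cube -/

def crF {r : ℕ} (t : ℕ) (o : Bool) (x y : FU r) : List (FU r) := [c1 t o x y, c2 t o x y]

def runF {r : ℕ} (c : ℕ → FU r) : ℕ → ℕ → Word k → List (FU r) → List (FU r)
  | _, _, [], l => l
  | t, n, .cross i o :: w, l => runF c (t + 1) n w (at2 i (crF t o) l)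
  | t, n, .cap i :: w, l => runF c (t + 1) n w (at2 i (fun _ _ => []) l)
  | t, n, .cup i _ _ :: w, l => runF c (t + 1) (n + 1) w (ins2 i (c n) (c n)⁻¹ l)

def capsF {r : ℕ} (c : ℕ → FU r) : ℕ → ℕ → Word k → List (FU r) → List (FU r)
  | _, _, [], _ => []
  | t, n, .cross i o :: w, l => capsF c (t + 1) n w (at2 i (crF t o) l)
  | t, n, .cap i :: w, l =>
      (l.getD i 1 * l.getD (i + 1) 1) :: capsF c (t + 1) n w (at2 i (fun _ _ => []) l)
  | t, n, .cup i _ _ :: w, l => capsF c (t + 1) (n + 1) w (ins2 i (c n) (c n)⁻¹ l)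

/-- crossing changes, with an offset -/
def sw (t : ℕ) (S : Finset ℕ) (w : Word k) : Word k :=
  w.mapIdx fun s p => if s + t ∈ S then p.flip else p

theorem sw_cons (t : ℕ) (S : Finset ℕ) (p : Piece k) (w : Word k) :
    sw t S (p :: w) = (if t ∈ S then p.flip else p) :: sw (t + 1) S w := by
  unfold sw
  rw [List.mapIdx_cons]
  congr 1
  · rw [Nat.zero_add]
  · congr 1
    funext s p
    rw [show s + 1 + t = s + (t + 1) by ring]

theorem sw_zero (S : Finset ℕ) (w : Word k) : sw 0 S w = switch S w := rfl

theorem cr_eval {r : ℕ} (t : ℕ) (o : Bool) (S : Finset ℕ) (x y : FU r) :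
    cr (if t ∈ S then !o else o) (x S) (y S) = (crF t o x y).map (fun z => z S) := by
  unfold cr crF c1 c2
  by_cases ht : t ∈ S <;> cases o <;> simp [ht]

theorem run_eval {r : ℕ} (c : ℕ → FU r) (S : Finset ℕ) : ∀ (w : Word k) (t n : ℕ)
    (l : List (FU r)),
    runG (fun m => c m S) n (sw t S w) (l.map fun z => z S) =
      (runF c t n w l).map (fun z => z S) ∧
    capsG (fun m => c m S) n (sw t S w) (l.map fun z => z S) =
      (capsF c t n w l).map (fun z => z S) := by
  intro w
  induction w with
  | nil =>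
    intro t n l
    exact ⟨rfl, rfl⟩
  | cons p w ih =>
    intro t n l
    rw [sw_cons]
    cases p with
    | cross i o =>
      have h1 : (if t ∈ S then (Piece.cross i o : Piece k).flip else Piece.cross i o) =
          Piece.cross i (if t ∈ S then !o else o) := by
        split_ifs <;> rfl
      have h2 := at2_map (fun z : FU r => z S) i (crF t o) (cr (if t ∈ S then !o else o)) l
        (fun x _ y _ => cr_eval t o S x y)
      rw [h1]
      constructor
      · rw [runG, runF, h2]
        exact (ih _ _ _).1
      · rw [capsG, capsF, h2]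
        exact (ih _ _ _).2
    | cap i =>
      have h1 : (if t ∈ S then (Piece.cap i : Piece k).flip else Piece.cap i) =
          Piece.cap i := by
        split_ifs <;> rfl
      have h2 := at2_map (fun z : FU r => z S) i (fun _ _ => []) (fun _ _ => []) l
        (fun x _ y _ => rfl)
      rw [h1]
      constructor
      · rw [runG, runF, h2]
        exact (ih _ _ _).1
      · rw [capsG, capsF, h2, List.map_cons]
        congr 1
        · have h3 := getD_map (fun z : FU r => z S) l i 1
          have h4 := getD_map (fun z : FU r => z S) l (i + 1) 1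
          simp only [Pi.one_apply] at h3 h4
          rw [h3, h4]
          rfl
        · exact (ih _ _ _).2
    | cup i c' d =>
      have h1 : (if t ∈ S then (Piece.cup i c' d : Piece k).flip else Piece.cup i c' d) =
          Piece.cup i c' d := by
        split_ifs <;> rfl
      have h2 := ins2_map (fun z : FU r => z S) i (c n) (c n)⁻¹ l
      rw [h1]
      constructor
      · rw [runG, runF]
        change runG _ _ _ (ins2 i ((fun z : FU r => z S) (c n)) ((fun z : FU r => z S) (c n)⁻¹) _) = _
        rw [h2]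
        exact (ih _ _ _).1
      · rw [capsG, capsF]
        change capsG _ _ _ (ins2 i ((fun z : FU r => z S) (c n)) ((fun z : FU r => z S) (c n)⁻¹) _)
          = _
        rw [h2]
        exact (ih _ _ _).2

/-! ### the abelian labelling -/

section pim

variable {r : ℕ} (d : ℕ) (a b : Fin (r + 1))

/-- the entry modulo functions of degree at most `d - 1` -/
def pim (x : FU r) : Multiplicative ((Finset ℕ → ℚ) ⧸ CD (d - 1)) :=
  Multiplicative.ofAdd (Submodule.Quotient.mk (fun S => ent (x S) a b))

variable {d a b}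

theorem pim_eq {x y : FU r} (h : (fun S => ent (x S) a b - ent (y S) a b) ∈ CD (d - 1)) :
    pim d a b x = pim d a b y := by
  unfold pim
  congr 1
  exact (Submodule.Quotient.eq _).2 h

theorem pim_mul (hd : 1 ≤ d) (hb : (b : ℕ) = a + d) {x y : FU r} (hx : W1lt d x)
    (hy : W1lt d y) : pim d a b (x * y) = pim d a b x * pim d a b y := by
  have hab : a < b := by
    rw [Fin.lt_def]
    omega
  unfold pim
  rw [← ofAdd_add, ← Submodule.Quotient.mk_add]
  congr 1
  rw [Submodule.Quotient.eq]
  have h1 := low_le _ (mid_mem hx hy (a := a) (b := b) hb.le)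
  rw [show (b : ℕ) - a - 1 = d - 1 by omega] at h1
  have h2 : (fun S => ent ((x * y) S) a b) -
      ((fun S => ent (x S) a b) + fun S => ent (y S) a b) = mid x y a b := by
    funext S
    have h3 := ent_split (x S) (y S) hab
    simp only [Pi.sub_apply, Pi.add_apply, Pi.mul_apply, mid]
    linarith
  rw [h2]
  exact h1

theorem pim_one (hd : 1 ≤ d) (hb : (b : ℕ) = a + d) : pim d a b (1 : FU r) = 1 := by
  have hab : a ≠ b := by
    intro h
    rw [h] at hb
    omega
  unfold pim
  have h1 : (fun S => ent ((1 : FU r) S) a b) = (0 : Finset ℕ → ℚ) := by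
    funext S
    rw [Pi.one_apply, ent_one, if_neg hab]
    rfl
  rw [h1, Submodule.Quotient.mk_zero]
  rfl

theorem pim_inv (hd : 1 ≤ d) (hb : (b : ℕ) = a + d) {x : FU r} (hx : W1lt d x) :
    pim d a b x⁻¹ = (pim d a b x)⁻¹ := by
  have h1 := pim_mul hd hb (W1lt_inv hx) hx
  rw [inv_mul_cancel, pim_one hd hb] at h1
  exact eq_inv_of_mul_eq_one_left h1.symm

theorem pim_cr (hd : 1 ≤ d) (hb : (b : ℕ) = a + d) (t : ℕ) (o : Bool) {x y : FU r}
    (hx : W1lt d x) (hy : W1lt d y) :
    cr o (pim d a b x) (pim d a b y) = (crF t o x y).map (pim d a b) := by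
  have hab : a < b := by
    rw [Fin.lt_def]
    omega
  have h1 : pim d a b (c1 t o x y) = pim d a b y := by
    apply pim_eq
    have h := c1_near t o hx hy hab hb.le
    rwa [show (b : ℕ) - a - 1 = d - 1 by omega] at h
  have h2 : pim d a b (c2 t o x y) = pim d a b x := by
    apply pim_eq
    have h := c2_near t o hx hy hab hb.le
    rwa [show (b : ℕ) - a - 1 = d - 1 by omega] at h
  unfold cr crF
  simp only [List.map_cons, List.map_nil]
  rw [h1, h2]
  split_ifs
  · rw [mul_comm, mul_inv_cancel_left]
  · rw [mul_comm (pim d a b y), mul_inv_cancel_right]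

end pim

theorem runF_W1lt {r d : ℕ} (c : ℕ → FU r) (hc : ∀ n, W1lt d (c n)) : ∀ (w : Word k) (t n : ℕ)
    (l : List (FU r)), (∀ x ∈ l, W1lt d x) → ∀ x ∈ runF c t n w l, W1lt d x := by
  intro w
  induction w with
  | nil =>
    intro t n l hl
    exact hl
  | cons p w ih =>
    intro t n l hl
    cases p with
    | cross i o =>
      rw [runF]
      apply ih
      intro z hz
      rcases at2_mem i (crF t o) l z hz with hz | ⟨x, hx, y, hy, hz⟩
      · exact hl z hz
      · unfold crF at hz
        simp only [List.mem_cons, List.not_mem_nil, or_false] at hz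
        rcases hz with rfl | rfl
        · exact W1lt_of_near (hl y hy) fun a b hab hb => c1_near t o (hl x hx) (hl y hy) hab hb
        · exact W1lt_of_near (hl x hx) fun a b hab hb => c2_near t o (hl x hx) (hl y hy) hab hb
    | cap i =>
      rw [runF]
      apply ih
      intro z hz
      rcases at2_mem i (fun _ _ => []) l z hz with hz | ⟨x, hx, y, hy, hz⟩
      · exact hl z hz
      · exact absurd hz List.not_mem_nil
    | cup i c' e =>
      rw [runF]
      apply ih
      intro z hz
      rcases ins2_mem i (c n) (c n)⁻¹ l z hz with rfl | rfl | hz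
      · exact hc n
      · exact W1lt_inv (hc n)
      · exact hl z hz

theorem run_pim {r d : ℕ} {a b : Fin (r + 1)} (hd : 1 ≤ d) (hb : (b : ℕ) = a + d)
    (c : ℕ → FU r) (hc : ∀ n, W1lt d (c n)) : ∀ (w : Word k) (t n : ℕ)
    (l : List (FU r)), (∀ x ∈ l, W1lt d x) →
    capsG (fun m => pim d a b (c m)) n w (l.map (pim d a b)) =
      (capsF c t n w l).map (pim d a b) := by
  intro w
  induction w with
  | nil =>
    intro t n l _
    rfl
  | cons p w ih =>
    intro t n l hl
    have hl1 : ∀ x ∈ runF c t n [p] l, W1lt d x := runF_W1lt c hc [p] t n l hl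
    cases p with
    | cross i o =>
      have h2 := at2_map (pim d a b) i (crF t o) (cr o) l
        (fun x hx y hy => pim_cr hd hb t o (hl x hx) (hl y hy))
      rw [capsG, capsF, h2]
      exact ih _ _ _ hl1
    | cap i =>
      have h2 := at2_map (pim d a b) i (fun _ _ => []) (fun _ _ => []) l
        (fun x _ y _ => rfl)
      rw [capsG, capsF, h2, List.map_cons]
      congr 1
      · have h3 := getD_map (pim d a b) l i 1
        have h4 := getD_map (pim d a b) l (i + 1) 1
        rw [pim_one hd hb] at h3 h4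
        rw [h3, h4]
        have h5 : ∀ j, W1lt d (l.getD j 1) := by
          intro j
          rw [List.getD_eq_getElem?_getD]
          rcases hj : l[j]? with _ | z
          · exact W1lt_one d
          · exact hl z (List.mem_of_getElem? hj)
        exact (pim_mul hd hb (h5 i) (h5 (i + 1))).symm
      · exact ih _ _ _ hl1
    | cup i c' e =>
      have h2 := ins2_map (pim d a b) i (c n) (c n)⁻¹ l
      rw [pim_inv hd hb (hc n)] at h2
      rw [capsG, capsF, h2]
      exact ih _ _ _ hl1

theorem ncup_sw (t : ℕ) (S : Finset ℕ) (w : Word k) : ncup (sw t S w) = ncup w := by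
  induction w generalizing t with
  | nil => rfl
  | cons p w ih =>
    rw [sw_cons]
    cases p <;> split_ifs <;> simp only [Piece.flip, ncup, ih]

/-- all labels at the local minima have weight one -/
theorem cup_W1lt {r : ℕ} (w : SL k) (g : Fin k → FU r) (c : ℕ → FU r)
    (hcap : ∀ x ∈ capsF c 0 0 w.1 (List.ofFn g), x = 1) (hn : ∀ n, ncup w.1 ≤ n → c n = 1)
    (hg : ∀ j d, W1lt d (g j)) : ∀ d n, W1lt d (c n) := by
  intro d
  induction d with
  | zero =>
    intro n a b hab hb
    have : (a : ℕ) < b := hab
    omega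
  | succ d ih =>
    intro n a b hab hb
    by_cases hb' : (b : ℕ) < a + d
    · exact ih n a b hab hb'
    · have hb2 : (b : ℕ) = a + d := by omega
      have hd : 1 ≤ d := by
        have : (a : ℕ) < b := hab
        omega
      have hl : ∀ x ∈ List.ofFn g, W1lt d x := by
        intro x hx
        rw [List.mem_ofFn] at hx
        obtain ⟨j, rfl⟩ := hx
        exact hg j d
      have hgp : ∀ j, pim d a b (g j) = 1 := by
        intro j
        rw [← pim_one hd hb2]
        apply pim_eq
        have h1 := hg j (d + 1) a b hab hb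
        rw [show (b : ℕ) - a - 1 = d - 1 by omega] at h1
        have h2 : (fun S => ent (g j S) a b - ent ((1 : FU r) S) a b) =
            fun S => ent (g j S) a b := by
          funext S
          rw [Pi.one_apply, ent_one, if_neg hab.ne, sub_zero]
        rw [h2]
        exact h1
      have hsol : Sol w.1 (fun _ => (1 : Multiplicative ((Finset ℕ → ℚ) ⧸ CD (d - 1))))
          (fun m => pim d a b (c m)) := by
        constructor
        · intro x hx
          have h1 := run_pim hd hb2 c ih w.1 0 0 (List.ofFn g) hl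
          have h2 : (List.ofFn g).map (pim d a b) =
              List.ofFn (fun _ : Fin k => (1 : Multiplicative ((Finset ℕ → ℚ) ⧸ CD (d - 1)))) := by
            rw [List.map_ofFn]
            congr 1
            funext j
            exact hgp j
          rw [h2] at h1
          rw [h1, List.mem_map] at hx
          obtain ⟨y, hy, rfl⟩ := hx
          rw [hcap y hy]
          exact pim_one hd hb2
        · intro m hm
          change pim d a b (c m) = 1
          rw [hn m hm]
          exact pim_one hd hb2
      have h1 := ab_trivial w _ hsol n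
      unfold pim at h1
      have h2 : (Submodule.Quotient.mk (fun S => ent (c n S) a b) :
          (Finset ℕ → ℚ) ⧸ CD (d - 1)) = 0 := h1
      rw [Submodule.Quotient.mk_eq_zero] at h2
      rw [show (b : ℕ) - a - 1 = d - 1 by omega]
      exact h2

end FTAux

open FTAux

theorem ft {r : ℕ} (w : SL k) (g : Finset ℕ → Fin k → U r) (c : Finset ℕ → ℕ → U r)
    (hs : ∀ S, Sol (switch S w.1) (g S) (c S)) (hg : ∀ j, W1 (fun S => g S j)) (j : Fin k) :
    W1 (fun S => (top (switch S w.1) (g S) (c S)).getD j 1) := by
  obtain ⟨c', hc'⟩ : ∃ c' : ℕ → FU r, ∀ n S, c' n S = c S n := ⟨fun n S => c S n, fun _ _ => rfl⟩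
  obtain ⟨g', hg'⟩ : ∃ g' : Fin k → FU r, ∀ j S, g' j S = g S j := ⟨fun j S => g S j, fun _ _ => rfl⟩
  have hof : ∀ S, (List.ofFn g').map (fun z => z S) = List.ofFn (g S) := by
    intro S
    rw [List.map_ofFn]
    congr 1
    funext j
    exact hg' j S
  have hcS : ∀ S, (fun m => c' m S) = c S := fun S => funext fun m => hc' m S
  have hcap : ∀ x ∈ capsF c' 0 0 w.1 (List.ofFn g'), x = 1 := by
    intro x hx
    funext S
    have h1 := (run_eval c' S w.1 0 0 (List.ofFn g')).2
    rw [hof S, hcS S, sw_zero] at h1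
    have h2 := (hs S).1 (x S) (by
      rw [h1]
      exact List.mem_map.2 ⟨x, hx, rfl⟩)
    exact h2
  have hn : ∀ n, ncup w.1 ≤ n → c' n = 1 := by
    intro n hn
    funext S
    rw [hc']
    exact (hs S).2 n (by
      rw [← sw_zero, ncup_sw]
      exact hn)
  have hg1 : ∀ j d, W1lt d (g' j) := by
    intro j d a b hab _
    have h1 := hg j a b hab
    have h2 : (fun S => ent (g' j S) a b) = fun S => ent (g S j) a b := by
      funext S
      rw [hg']
    rw [h2]
    exact h1
  have hcW := cup_W1lt w g' c' hcap hn hg1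
  have hl : ∀ d, ∀ x ∈ List.ofFn g', W1lt d x := by
    intro d x hx
    rw [List.mem_ofFn] at hx
    obtain ⟨j, rfl⟩ := hx
    exact hg1 j d
  intro a b hab
  have hrun := runF_W1lt c' (hcW (r + 2)) w.1 0 0 (List.ofFn g') (hl (r + 2))
  have hget : W1lt (r + 2) ((runF c' 0 0 w.1 (List.ofFn g')).getD j 1) := by
    rw [List.getD_eq_getElem?_getD]
    rcases hj : (runF c' 0 0 w.1 (List.ofFn g'))[(j : ℕ)]? with _ | z
    · exact W1lt_one _
    · exact hrun z (List.mem_of_getElem? hj)
  have h1 := hget a b hab (by
    have := b.is_lt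
    omega)
  have h2 : (fun S => ent ((top (switch S w.1) (g S) (c S)).getD j 1) a b) =
      fun S => ent (((runF c' 0 0 w.1 (List.ofFn g')).getD j 1) S) a b := by
    funext S
    congr 1
    have h3 := (run_eval c' S w.1 0 0 (List.ofFn g')).1
    rw [hof S, hcS S, sw_zero] at h3
    unfold top
    rw [h3]
    exact getD_map (fun z : FU r => z S) _ _ 1
  rw [h2]
  exact h1

end Pool.Agent.MQ1
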