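import Mathlib

/-! A free group embeds in `SL₂` of a field so that no nontrivial element has trace `2`. -/

set_option autoImplicit false

namespace Pool.Agent.MQ1

namespace Hyp

open Matrix Polynomial

variable {α : Type}

/-- the first vector of a letter -/
noncomputable def vv (l : α × Bool) : Fin 2 → MvPolynomial α ℚ :=
  ![1, if l.2 then MvPolynomial.X l.1 else MvPolynomial.X l.1 + 1]

/-- the second vector of a letter -/
noncomputable def ww (l : α × Bool) : Fin 2 → MvPolynomial α ℚ :=
  if l.2 then ![MvPolynomial.X l.1 + 1, -1] else ![-MvPolynomial.X l.1, 1]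

/-- the pairing of two letters -/
noncomputable def pr (l m : α × Bool) : MvPolynomial α ℚ := ww l 0 * vv m 0 + ww l 1 * vv m 1

/-- the matrix of two letters -/
noncomputable def RR (l m : α × Bool) : Matrix (Fin 2) (Fin 2) (MvPolynomial α ℚ) :=
  !![vv l 0 * ww m 0, vv l 0 * ww m 1; vv l 1 * ww m 0, vv l 1 * ww m 1]

/-- the polynomial matrix of a letter -/
noncomputable def NN (l : α × Bool) : Matrix (Fin 2) (Fin 2) (Polynomial (MvPolynomial α ℚ)) :=
  if l.2 then
    !![C (MvPolynomial.X l.1) + 1 - X ^ 2 * C (MvPolynomial.X l.1), X ^ 2 - 1;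
      C (MvPolynomial.X l.1) * (C (MvPolynomial.X l.1) + 1) * (1 - X ^ 2),
      X ^ 2 * (C (MvPolynomial.X l.1) + 1) - C (MvPolynomial.X l.1)]
  else
    !![X ^ 2 * (C (MvPolynomial.X l.1) + 1) - C (MvPolynomial.X l.1), 1 - X ^ 2;
      -(C (MvPolynomial.X l.1) * (C (MvPolynomial.X l.1) + 1) * (1 - X ^ 2)),
      C (MvPolynomial.X l.1) + 1 - X ^ 2 * C (MvPolynomial.X l.1)]

theorem pr_ne (l m : α × Bool) (h : l.1 = m.1 → l.2 = m.2) : pr l m ≠ 0 := by
  obtain ⟨a, e⟩ := l
  obtain ⟨b, f⟩ := m
  simp only at h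
  by_cases hab : a = b
  · have hef := h hab
    subst hab
    subst hef
    cases e <;> simp [pr, vv, ww]
  · have hX : (MvPolynomial.X a : MvPolynomial α ℚ) ≠ MvPolynomial.X b := fun h0 =>
      hab (MvPolynomial.X_injective h0)
    cases e <;> cases f
    · intro h0
      have h1 := congrArg (MvPolynomial.eval (fun _ => (0 : ℚ))) h0
      simp [pr, vv, ww] at h1
    · intro h0
      apply hX
      simp only [pr, vv, ww] at h0
      simp at h0
      linear_combination -h0
    · intro h0
      apply hX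
      simp only [pr, vv, ww] at h0
      simp at h0
      linear_combination h0
    · intro h0
      have h1 := congrArg (MvPolynomial.eval (fun _ => (0 : ℚ))) h0
      simp [pr, vv, ww] at h1

theorem RR_mul (l m n : α × Bool) (o : α × Bool) : RR l m * RR n o = pr m n • RR l o := by
  refine Matrix.ext fun i j => ?_
  fin_cases i <;> fin_cases j <;> simp [RR, pr, Matrix.mul_apply, Fin.sum_univ_two] <;> ring

theorem trace_RR (l m : α × Bool) : (RR l m).trace = pr m l := by
  simp [RR, pr, Matrix.trace, Fin.sum_univ_two]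
  ring

theorem NN_eval (l : α × Bool) :
    (Polynomial.evalRingHom (0 : MvPolynomial α ℚ)).mapMatrix (NN l) = RR l l := by
  obtain ⟨a, e⟩ := l
  cases e
  · ext i j
    fin_cases i <;> fin_cases j <;> simp [RR, NN, vv, ww] <;> ring
  · ext i j
    fin_cases i <;> fin_cases j <;> simp [RR, NN, vv, ww] <;> ring

theorem prod_eval (l : α × Bool) (L : List (α × Bool)) (h : FreeGroup.IsReduced (l :: L)) :
    ∃ c : MvPolynomial α ℚ, c ≠ 0 ∧
      (Polynomial.evalRingHom (0 : MvPolynomial α ℚ)).mapMatrix (((l :: L).map NN).prod) =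
        c • RR l ((l :: L).getLast (List.cons_ne_nil _ _)) := by
  induction L generalizing l with
  | nil =>
    refine ⟨1, one_ne_zero, ?_⟩
    rw [List.map_cons, List.map_nil, List.prod_singleton, NN_eval, one_smul]
    rfl
  | cons m L ih =>
    have h2 : FreeGroup.IsReduced (m :: L) := by
      simp only [FreeGroup.IsReduced] at h ⊢
      exact (List.isChain_cons_cons.1 h).2
    have h1 : l.1 = m.1 → l.2 = m.2 := by
      simp only [FreeGroup.IsReduced] at h
      exact (List.isChain_cons_cons.1 h).1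
    obtain ⟨c, hc, hprod⟩ := ih m h2
    refine ⟨pr l m * c, mul_ne_zero (pr_ne l m h1) hc, ?_⟩
    rw [List.map_cons, List.prod_cons, map_mul, hprod, NN_eval, Matrix.mul_smul, RR_mul,
      smul_smul, List.getLast_cons_cons, mul_comm c]

/-- the field -/
abbrev KK (α : Type) : Type := FractionRing (Polynomial (MvPolynomial α ℚ))

/-- the variable -/
noncomputable def tt (α : Type) : KK α := algebraMap (Polynomial (MvPolynomial α ℚ)) (KK α) X

theorem tt_ne : tt α ≠ 0 := by
  rw [tt, Ne, IsFractionRing.to_map_eq_zero_iff]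
  exact Polynomial.X_ne_zero

/-- the matrix of a letter -/
noncomputable def MM (l : α × Bool) : Matrix (Fin 2) (Fin 2) (KK α) :=
  (tt α)⁻¹ • (algebraMap (Polynomial (MvPolynomial α ℚ)) (KK α)).mapMatrix (NN l)

theorem det_NN (l : α × Bool) : (NN l).det = X ^ 2 := by
  obtain ⟨a, e⟩ := l
  cases e <;> simp [NN, Matrix.det_fin_two] <;> ring

theorem det_MM (l : α × Bool) : (MM l).det = 1 := by
  rw [MM, Matrix.det_smul, ← RingHom.map_det, det_NN, map_pow, Fintype.card_fin]
  change (tt α)⁻¹ ^ 2 * (tt α) ^ 2 = 1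
  rw [← mul_pow, inv_mul_cancel₀ tt_ne, one_pow]

theorem adj_NN (a : α) : (NN (a, true)).adjugate = NN (a, false) := by
  rw [Matrix.adjugate_fin_two]
  ext i j
  fin_cases i <;> fin_cases j <;> simp [NN]

/-- the image of a generator -/
noncomputable def YY (a : α) : Matrix.SpecialLinearGroup (Fin 2) (KK α) := ⟨MM (a, true), det_MM _⟩

theorem YY_letter (l : α × Bool) : (cond l.2 (YY l.1) (YY l.1)⁻¹).1 = MM l := by
  obtain ⟨a, e⟩ := l
  cases e
  · change ((YY a)⁻¹).1 = MM (a, false)
    rw [Matrix.SpecialLinearGroup.coe_inv]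
    change (MM (a, true)).adjugate = _
    rw [MM, Matrix.adjugate_smul, ← RingHom.map_adjugate, adj_NN, MM]
    simp
  · rfl

/-- the representation -/
noncomputable def rho : FreeGroup α →* Matrix.SpecialLinearGroup (Fin 2) (KK α) :=
  FreeGroup.lift YY

theorem rho_mk (L : List (α × Bool)) : (tt α) ^ L.length • (rho (FreeGroup.mk L)).1 =
    (algebraMap (Polynomial (MvPolynomial α ℚ)) (KK α)).mapMatrix ((L.map NN).prod) := by
  rw [rho, FreeGroup.lift_mk]
  induction L with
  | nil => simp
  | cons l L ih =>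
    rw [List.map_cons, List.prod_cons, List.map_cons, List.prod_cons, map_mul, ← ih,
      Matrix.SpecialLinearGroup.coe_mul, YY_letter, MM, List.length_cons, pow_succ]
    rw [Matrix.smul_mul, smul_smul, Matrix.mul_smul]
    congr 1
    rw [mul_assoc, mul_inv_cancel₀ tt_ne, mul_one]

theorem trace_map {A B : Type} [CommRing A] [CommRing B] (f : A →+* B)
    (M : Matrix (Fin 2) (Fin 2) A) : (f.mapMatrix M).trace = f M.trace := by
  simp [Matrix.trace]

theorem trace_word (L : List (α × Bool)) (h : FreeGroup.IsCyclicallyReduced L) (hL : L ≠ []) :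
    (rho (FreeGroup.mk L)).1.trace ≠ 2 := by
  intro h2
  obtain ⟨l, L, rfl⟩ := List.exists_cons_of_ne_nil hL
  obtain ⟨c, hc, hprod⟩ := prod_eval l L h.1
  have h3 := congrArg Matrix.trace (rho_mk (l :: L))
  rw [Matrix.trace_smul, h2] at h3
  have h4 : ((algebraMap (Polynomial (MvPolynomial α ℚ)) (KK α)).mapMatrix
      (((l :: L).map NN).prod)).trace =
      algebraMap (Polynomial (MvPolynomial α ℚ)) (KK α) ((((l :: L).map NN).prod).trace) :=
    trace_map _ _
  rw [h4] at h3
  have h5 : (X : Polynomial (MvPolynomial α ℚ)) ^ (l :: L).length * 2 =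
      (((l :: L).map NN).prod).trace := by
    apply IsFractionRing.injective (Polynomial (MvPolynomial α ℚ)) (KK α)
    rw [← h3, map_mul, map_pow, smul_eq_mul, map_ofNat]
    rfl
  have h6 := congrArg (Polynomial.evalRingHom (0 : MvPolynomial α ℚ)) h5
  have h7 : Polynomial.evalRingHom (0 : MvPolynomial α ℚ) ((((l :: L).map NN).prod).trace) =
      ((Polynomial.evalRingHom (0 : MvPolynomial α ℚ)).mapMatrix (((l :: L).map NN).prod)).trace :=
    (trace_map _ _).symm
  rw [h7, hprod, Matrix.trace_smul, trace_RR, smul_eq_mul] at h6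
  have h8 : Polynomial.evalRingHom (0 : MvPolynomial α ℚ)
      ((X : Polynomial (MvPolynomial α ℚ)) ^ (l :: L).length * 2) = 0 := by
    simp
  rw [h8] at h6
  refine mul_ne_zero hc (pr_ne _ _ ?_) h6.symm
  have h9 := h.2 ((l :: L).getLast (List.cons_ne_nil _ _))
    (by rw [Option.mem_def]; exact List.getLast?_eq_some_getLast (List.cons_ne_nil _ _))
    l (by simp)
  exact h9

end Hyp

/-- A free group has a representation in `SL₂` of a field of characteristic zero such that no
nontrivial element has trace `2`. -/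
theorem hyp (α : Type) : ∃ (K : Type) (_ : Field K) (_ : CharZero K)
    (ρ : FreeGroup α →* Matrix.SpecialLinearGroup (Fin 2) K),
    ∀ g, g ≠ 1 → Matrix.trace (ρ g).1 ≠ 2 := by
  classical
  refine ⟨Hyp.KK α, inferInstance, ?_, Hyp.rho, ?_⟩
  · exact charZero_of_injective_algebraMap
      (IsFractionRing.injective (Polynomial (MvPolynomial α ℚ)) (Hyp.KK α))
  · intro g hg
    obtain ⟨L, hL⟩ : ∃ L, L = g.toWord := ⟨_, rfl⟩
    have hred : FreeGroup.IsReduced L := by rw [hL]; exact FreeGroup.isReduced_toWord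
    have hg' : g = FreeGroup.mk L := by rw [hL, FreeGroup.mk_toWord]
    have hcyc := FreeGroup.reduceCyclically.isCyclicallyReduced hred
    have hconj := FreeGroup.reduceCyclically.conj_conjugator_reduceCyclically L
    have hg2 : g = FreeGroup.mk (FreeGroup.reduceCyclically.conjugator L) *
        FreeGroup.mk (FreeGroup.reduceCyclically L) *
        (FreeGroup.mk (FreeGroup.reduceCyclically.conjugator L))⁻¹ := by
      rw [hg', FreeGroup.inv_mk, FreeGroup.mul_mk, FreeGroup.mul_mk, hconj]
    have hne : FreeGroup.reduceCyclically L ≠ [] := by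
      intro h0
      apply hg
      rw [hg2, h0]
      rw [← FreeGroup.one_eq_mk, mul_one, mul_inv_cancel]
    have h1 := Hyp.trace_word _ hcyc hne
    rw [hg2, map_mul, map_mul, map_inv]
    rw [Matrix.SpecialLinearGroup.coe_mul, Matrix.trace_mul_comm,
      ← Matrix.SpecialLinearGroup.coe_mul, inv_mul_cancel_left]
    exact h1

/-! ## Hyp.lean : hyperbolic embedding of a free group -/

theorem hyp_embed (F : Type) [Group F] [IsFreeGroup F] :
    ∃ (K : Type) (_ : Field K) (ρ : F →* Matrix.SpecialLinearGroup (Fin 2) K),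
      ∀ y : F, y ≠ 1 → (ρ y).1.trace ≠ 2 := by
  obtain ⟨K, hK, -, ρ, hρ⟩ := hyp (IsFreeGroup.Generators F)
  refine ⟨K, hK, ρ.comp (IsFreeGroup.toFreeGroup F).toMonoidHom, ?_⟩
  intro y hy
  apply hρ
  intro h
  exact hy ((IsFreeGroup.toFreeGroup F).map_eq_one_iff.1 h)

end Pool.Agent.MQ1
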