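import Pool.Agent.MQ1.Defs

set_option autoImplicit false

namespace Pool.Agent.MQ1

open Pool.Agent.StrLink

variable {k : ℕ}

/-! ## MoveB.lean -/

section lists

variable {α : Type}

theorem moveB_at2 (A B : List α) (x y : α) (f : α → α → List α) :
    at2 A.length f (A ++ x :: y :: B) = A ++ (f x y ++ B) := by
  unfold at2
  rw [List.drop_left, List.take_left]
  simp

theorem moveB_at2s (A B : List α) (x y z : α) (f : α → α → List α) :
    at2 (A.length + 1) f (A ++ x :: y :: z :: B) = A ++ x :: (f y z ++ B) := by
  have h := moveB_at2 (A ++ [x]) B y z f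
  rw [List.length_append, List.length_singleton] at h
  simpa using h

theorem moveB_ins2 (A B : List α) (g h : α) :
    ins2 A.length g h (A ++ B) = A ++ g :: h :: B := by
  unfold ins2
  rw [List.drop_left, List.take_left]
  simp

theorem moveB_ins2s (A B : List α) (x g h : α) :
    ins2 (A.length + 1) g h (A ++ x :: B) = A ++ x :: g :: h :: B := by
  have e := moveB_ins2 (A ++ [x]) B g h
  rw [List.length_append, List.length_singleton] at e
  simpa using e

theorem moveB_get0 (A B : List α) (x d : α) : (A ++ x :: B).getD A.length d = x := by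
  simp [List.getD_eq_getElem?_getD]

theorem moveB_get1 (A B : List α) (x y d : α) : (A ++ x :: y :: B).getD (A.length + 1) d = y := by
  simp [List.getD_eq_getElem?_getD]

theorem moveB_get2 (A B : List α) (x y z d : α) :
    (A ++ x :: y :: z :: B).getD (A.length + 1 + 1) d = z := by
  rw [List.getD_eq_getElem?_getD, List.getElem?_append_right (by omega)]
  have : A.length + 1 + 1 - A.length = 2 := by omega
  rw [this]
  rfl

theorem moveB_len (i : ℕ) (x y : α) (l : List α) : (ins2 i x y l).length = l.length + 2 := by
  unfold ins2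
  simp only [List.length_append, List.length_take, List.length_drop, List.length_cons,
    List.length_nil]
  omega

theorem moveB_split0 (l : List α) (i : ℕ) (h : i ≤ l.length) :
    ∃ A B, l = A ++ B ∧ A.length = i :=
  ⟨l.take i, l.drop i, (List.take_append_drop i l).symm, by simp [h]⟩

theorem moveB_split1 (l : List α) (i : ℕ) (h : i < l.length) :
    ∃ A x B, l = A ++ x :: B ∧ A.length = i := by
  obtain ⟨A, B, rfl, hA⟩ := moveB_split0 l i h.le
  rcases B with _ | ⟨x, B⟩
  · rw [List.append_nil] at h
    omega
  · exact ⟨A, x, B, rfl, hA⟩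

theorem moveB_split2 (l : List α) (i : ℕ) (h : i + 1 < l.length) :
    ∃ A x y B, l = A ++ x :: y :: B ∧ A.length = i := by
  obtain ⟨A, x, B, rfl, hA⟩ := moveB_split1 l i (by omega)
  rcases B with _ | ⟨y, B⟩
  · simp only [List.length_append, List.length_cons, List.length_nil] at h
    omega
  · exact ⟨A, x, y, B, rfl, hA⟩

theorem moveB_split3 (l : List α) (i : ℕ) (h : i + 2 < l.length) :
    ∃ A x y z B, l = A ++ x :: y :: z :: B ∧ A.length = i := by
  obtain ⟨A, x, y, B, rfl, hA⟩ := moveB_split2 l i (by omega)
  rcases B with _ | ⟨z, B⟩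
  · simp only [List.length_append, List.length_cons, List.length_nil] at h
    omega
  · exact ⟨A, x, y, z, B, rfl, hA⟩

theorem moveB_lt {l : List α} {i : ℕ} {x : α} (h : l[i]? = some x) : i < l.length := by
  by_contra hcon
  rw [List.getElem?_eq_none (by omega)] at h
  exact absurd h (by simp)

end lists

theorem moveB_at2len {α : Type} (i : ℕ) (f : α → α → List α) (l : List α)
    (hf : ∀ x y, (f x y).length = 2) : (at2 i f l).length = l.length := by
  by_cases h : i + 1 < l.length
  · obtain ⟨A, x, y, B, rfl, rfl⟩ := moveB_split2 l i h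
    rw [moveB_at2]
    simp only [List.length_append, List.length_cons, hf]
    omega
  · unfold at2
    have h1 : (l.drop i).length ≤ 1 := by
      rw [List.length_drop]
      omega
    rcases hd : l.drop i with _ | ⟨x, _ | ⟨y, B⟩⟩
    · rfl
    · rfl
    · rw [hd] at h1
      simp at h1

/-- MoveB : the other eight relations (not `far`), `a` and `b` fit on the line `l` -/
theorem lab_rel {Γ : Type} [Group Γ] {a b : Word k} (h : Rel a b)
    (hfar : ¬ ∃ (p q : Piece k) (m : ℕ), a = [p, q.put (p.pos + p.outs + m)] ∧
      b = [q.put (p.pos + p.ins + m), p])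
    (pts : List (Pt k)) (ha : okW pts a) (hb : okW pts b) (l l' : List Γ)
    (hl : l.length = pts.length) : Lab a l l' → Lab b l l' := by
  cases h with
  | far p q m => exact absurd ⟨p, q, m, rfl, rfl⟩ hfar
  | zigzag i c d =>
    obtain ⟨_, ⟨c', d', _, h2⟩, _⟩ := ha
    have h3 := moveB_lt h2
    simp only [Piece.lab, moveB_len] at h3
    obtain ⟨A, x, B, rfl, rfl⟩ := moveB_split1 l i (by omega)
    rintro ⟨g, hg⟩
    simp only [Lab, moveB_ins2, moveB_get1, moveB_get2, moveB_at2s, List.nil_append] at hg ⊢
    obtain ⟨h4, h5⟩ := hg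
    rw [← h5, inv_mul_eq_one.1 h4]
  | zigzag' i c d =>
    obtain ⟨h1, ⟨c', d', _, h2⟩, _⟩ := ha
    simp only [Piece.ok] at h1
    obtain ⟨A, x, B, rfl, rfl⟩ := moveB_split1 l i (by omega)
    rintro ⟨g, hg⟩
    simp only [Lab, moveB_ins2s, moveB_get0, moveB_get1, moveB_at2, List.nil_append] at hg ⊢
    obtain ⟨h4, h5⟩ := hg
    rw [← h5, mul_eq_one_iff_eq_inv.1 h4]
  | slideCap i o =>
    obtain ⟨_, ⟨c', d', _, h2⟩, _⟩ := ha
    have h3 := moveB_lt h2
    simp only [Piece.lab] at h3
    rw [moveB_at2len _ _ _ (fun _ _ => rfl)] at h3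
    obtain ⟨A, x, y, z, B, rfl, rfl⟩ := moveB_split3 l i (by omega)
    cases o
    · simp only [Lab, cr, moveB_at2, moveB_at2s, moveB_get0, moveB_get1, moveB_get2,
        Bool.not_false, Bool.false_eq_true, if_true, if_false, List.cons_append, List.nil_append]
      rintro ⟨h4, h5⟩
      refine ⟨?_, h5⟩
      have : z = (y * x * y⁻¹)⁻¹ := (inv_eq_of_mul_eq_one_right h4).symm
      rw [this]
      group
    · simp only [Lab, cr, moveB_at2, moveB_at2s, moveB_get0, moveB_get1, moveB_get2,
        Bool.not_true, Bool.false_eq_true, if_true, if_false, List.cons_append, List.nil_append]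
      rintro ⟨h4, h5⟩
      refine ⟨h4, ?_⟩
      have : z = x⁻¹ := (inv_eq_of_mul_eq_one_right h4).symm
      rw [← h5, this, inv_inv]
  | slideCup i o c d =>
    obtain ⟨h1, _, _⟩ := ha
    simp only [Piece.ok] at h1
    obtain ⟨A, x, B, rfl, rfl⟩ := moveB_split1 l i (by omega)
    rintro ⟨g, hg⟩
    cases o
    · refine ⟨g, ?_⟩
      simp only [Lab, cr, moveB_ins2s, moveB_ins2, moveB_at2, moveB_at2s,
        Bool.not_false, Bool.false_eq_true, if_true, if_false, List.cons_append,
        List.nil_append] at hg ⊢
      rw [← hg]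
      simp
    · refine ⟨x⁻¹ * g * x, ?_⟩
      simp only [Lab, cr, moveB_ins2s, moveB_ins2, moveB_at2, moveB_at2s,
        Bool.not_true, Bool.false_eq_true, if_true, if_false, List.cons_append,
        List.nil_append] at hg ⊢
      rw [← hg]
      simp [mul_assoc]
  | r1Cap i o =>
    obtain ⟨h1, _, _⟩ := ha
    simp only [Piece.ok] at h1
    obtain ⟨A, x, y, B, rfl, rfl⟩ := moveB_split2 l i (by omega)
    cases o
    · simp only [Lab, cr, moveB_at2, moveB_get0, moveB_get1,
        Bool.false_eq_true, if_true, if_false, List.cons_append, List.nil_append]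
      rintro ⟨h4, h5⟩
      refine ⟨?_, h5⟩
      have h6 : y * x = 1 := by
        have : y * x = y⁻¹ * (y * (y * x * y⁻¹)) * y := by group
        rw [this, h4]
        group
      have : y = x⁻¹ := eq_inv_of_mul_eq_one_left h6
      rw [this, mul_inv_cancel]
    · simp only [Lab, cr, moveB_at2, moveB_get0, moveB_get1,
        if_true, List.cons_append, List.nil_append]
      rintro ⟨h4, h5⟩
      refine ⟨?_, h5⟩
      have h6 : y * x = 1 := by
        have : y * x = x * (x⁻¹ * y * x * x) * x⁻¹ := by group
        rw [this, h4]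
        group
      have : y = x⁻¹ := eq_inv_of_mul_eq_one_left h6
      rw [this, mul_inv_cancel]
  | r1Cup i o c d =>
    obtain ⟨h1, _, _⟩ := ha
    simp only [Piece.ok] at h1
    obtain ⟨A, B, rfl, rfl⟩ := moveB_split0 l i (by omega)
    rintro ⟨g, hg⟩
    refine ⟨g⁻¹, ?_⟩
    cases o
    · simp only [Lab, cr, moveB_ins2, moveB_at2,
        Bool.false_eq_true, if_false, List.cons_append,
        List.nil_append] at hg ⊢
      rw [← hg]
      simp
    · simp only [Lab, cr, moveB_ins2, moveB_at2, if_true, List.cons_append,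
        List.nil_append] at hg ⊢
      rw [← hg]
      simp
  | r2 i o =>
    obtain ⟨h1, _, _⟩ := ha
    simp only [Piece.ok] at h1
    obtain ⟨A, x, y, B, rfl, rfl⟩ := moveB_split2 l i (by omega)
    cases o
    · simp only [Lab, cr, moveB_at2, Bool.not_false, Bool.false_eq_true, if_true, if_false,
        List.cons_append, List.nil_append]
      intro h4
      rw [← h4]
      simp [mul_assoc]
    · simp only [Lab, cr, moveB_at2, Bool.not_true, Bool.false_eq_true, if_true, if_false,
        List.cons_append, List.nil_append]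
      intro h4
      rw [← h4]
      simp [mul_assoc]
  | r3 i a b c hh =>
    obtain ⟨h1, h2, _⟩ := ha
    simp only [Piece.ok, Piece.lab] at h1 h2
    rw [moveB_at2len _ _ _ (fun _ _ => rfl)] at h2
    obtain ⟨A, x, y, z, B, rfl, rfl⟩ := moveB_split3 l i (by omega)
    cases a <;> cases b <;> cases c <;>
      first
      | exact absurd ⟨rfl, by decide⟩ hh
      | (simp only [Lab, cr, moveB_at2, moveB_at2s, Bool.false_eq_true, if_true, if_false,
          List.cons_append, List.nil_append]
         intro h4
         rw [← h4]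
         simp [mul_assoc])

end Pool.Agent.MQ1
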