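import Pool.Agent.MQ1.MoveA
import Pool.Agent.MQ1.MoveB

set_option autoImplicit false

namespace Pool.Agent.MQ1

open Pool.Agent.StrLink

variable {k : ℕ}

/-! ## MoveC.lean -/

theorem movec_split {α : Type} {i n : ℕ} (s : List α) (h : i + n ≤ s.length) :
    ∃ a m b, s = a ++ m ++ b ∧ a.length = i ∧ m.length = n := by
  refine ⟨s.take i, (s.drop i).take n, (s.drop i).drop n, ?_, ?_, ?_⟩
  · rw [List.append_assoc, List.take_append_drop, List.take_append_drop]
  · simp; omega
  · simp; omega

theorem movec_at2_length {α : Type} {i n : ℕ} (f : α → α → List α) (l : List α)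
    (h : i + 2 ≤ l.length) (hf : ∀ x y, (f x y).length = n) :
    (at2 i f l).length = l.length - 2 + n := by
  obtain ⟨a, m, b, rfl, h1, h2⟩ := movec_split l h
  match m, h2 with
  | [x, y], _ =>
    subst h1
    simp [at2, hf]
    omega

theorem movec_ins2_length {α : Type} {i : ℕ} (x y : α) (l : List α) (h : i ≤ l.length) :
    (ins2 i x y l).length = l.length + 2 := by
  simp only [ins2, List.length_append, List.length_take, List.length_cons, List.length_nil,
    List.length_drop]
  omega

theorem movec_ok_le {p : Piece k} {l : List (Pt k)} (h : p.ok l) :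
    p.pos + p.ins ≤ l.length := by
  cases p with
  | cross i o =>
    simp only [Piece.ok] at h
    simp only [Piece.pos, Piece.ins]
    omega
  | cap i =>
    obtain ⟨c, d, h1, h2⟩ := h
    have := (List.getElem?_eq_some_iff.1 h2).1
    simp only [Piece.pos, Piece.ins]
    omega
  | cup i c d =>
    simp only [Piece.ok] at h
    simp only [Piece.pos, Piece.ins]
    omega

theorem movec_lab_length {p : Piece k} {l : List (Pt k)} (h : p.pos + p.ins ≤ l.length) :
    (p.lab l).length = l.length - p.ins + p.outs := by
  cases p with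
  | cross i o => exact movec_at2_length _ l h fun _ _ => rfl
  | cap i => exact movec_at2_length _ l h fun _ _ => rfl
  | cup i c d =>
    simp only [Piece.pos, Piece.ins] at h
    exact movec_ins2_length _ _ l (by omega)

theorem movec_run_append (l : List (Pt k)) (u v : Word k) : run l (u ++ v) = run (run l u) v := by
  induction u generalizing l with
  | nil => rfl
  | cons p u ih => simp only [List.cons_append, run, ih]

theorem movec_okW_append (l : List (Pt k)) (u v : Word k) :
    okW l (u ++ v) ↔ okW l u ∧ okW (run l u) v := by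
  induction u generalizing l with
  | nil => simp [okW, run]
  | cons p u ih => simp only [List.cons_append, okW, run, ih, and_assoc]

theorem movec_lab_append {Γ : Type} [Group Γ] (u v : Word k) (l l' : List Γ) :
    Lab (u ++ v) l l' ↔ ∃ m, Lab u l m ∧ Lab v m l' := by
  induction u generalizing l with
  | nil => simp [Lab]
  | cons p u ih =>
    cases p with
    | cross i o => simp only [List.cons_append, Lab, ih]
    | cap i =>
      simp only [List.cons_append, Lab, ih]
      constructor
      · rintro ⟨h, m, h1, h2⟩
        exact ⟨m, ⟨h, h1⟩, h2⟩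
      · rintro ⟨m, ⟨h, h1⟩, h2⟩
        exact ⟨h, m, h1, h2⟩
    | cup i c d =>
      simp only [List.cons_append, Lab, ih]
      constructor
      · rintro ⟨g, m, h1, h2⟩
        exact ⟨m, ⟨g, h1⟩, h2⟩
      · rintro ⟨m, ⟨g, h1⟩, h2⟩
        exact ⟨g, m, h1, h2⟩

theorem movec_lab_run_length {Γ : Type} [Group Γ] (w : Word k) (pts : List (Pt k)) (l m : List Γ)
    (hw : okW pts w) (hl : l.length = pts.length) (h : Lab w l m) :
    m.length = (run pts w).length := by
  induction w generalizing pts l with
  | nil =>
    have h' : l = m := h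
    rw [← h', hl]
    rfl
  | cons p w ih =>
    have h0 : p.pos + p.ins ≤ pts.length := movec_ok_le hw.1
    have h1 := movec_lab_length h0
    cases p with
    | cross i o =>
      simp only [Piece.pos, Piece.ins, Piece.outs] at h0 h1
      refine ih _ _ hw.2 ?_ h
      rw [movec_at2_length (n := 2) (cr o) l (by omega) (by intro x y; cases o <;> rfl), h1, hl]
    | cap i =>
      simp only [Piece.pos, Piece.ins, Piece.outs] at h0 h1
      refine ih _ _ hw.2 ?_ h.2
      rw [movec_at2_length (n := 0) _ l (by omega) (fun _ _ => rfl), h1, hl]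
    | cup i c d =>
      simp only [Piece.pos, Piece.ins, Piece.outs] at h0 h1
      obtain ⟨g, hg⟩ := h
      refine ih _ _ hw.2 ?_ hg
      rw [movec_ins2_length _ _ l (by omega), h1, hl]
      omega

/-- MoveC : from the two lemmas above, `Lab` of a concatenation -/
theorem lab_move {Γ : Type} [Group Γ] {w w' : SL k} (h : Move w.1 w'.1) (l l' : List Γ)
    (hl : l.length = k) : Lab w.1 l l' → Lab w'.1 l l' := by
  obtain ⟨u, v, a, b, hab, hw, hw'⟩ := h
  intro hL
  have ho := w.2.1
  have ho' := w'.2.1
  rw [hw, movec_okW_append, movec_okW_append] at ho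
  rw [hw', movec_okW_append, movec_okW_append] at ho'
  rw [hw, movec_lab_append] at hL
  obtain ⟨m2, hL, hv⟩ := hL
  rw [movec_lab_append] at hL
  obtain ⟨m1, hu, ha⟩ := hL
  rw [hw', movec_lab_append]
  refine ⟨m2, ?_, hv⟩
  rw [movec_lab_append]
  refine ⟨m1, hu, ?_⟩
  have hm1 : m1.length = (run (ends k) u).length :=
    movec_lab_run_length u (ends k) l m1 ho.1.1 (by simp [ends, hl]) hu
  have hoa : okW (run (ends k) u) a := ho.1.2
  have hob : okW (run (ends k) u) b := ho'.1.2
  by_cases hfar : ∃ (p q : Piece k) (m : ℕ), a = [p, q.put (p.pos + p.outs + m)] ∧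
      b = [q.put (p.pos + p.ins + m), p]
  · obtain ⟨p, q, m, rfl, rfl⟩ := hfar
    have h1 : p.pos + p.ins ≤ (run (ends k) u).length := movec_ok_le hoa.1
    have h2 := movec_ok_le hoa.2.1
    rw [movec_lab_length h1] at h2
    have e1 : (q.put (p.pos + p.outs + m)).pos = p.pos + p.outs + m := by cases q <;> rfl
    have e2 : (q.put (p.pos + p.outs + m)).ins = q.ins := by cases q <;> rfl
    rw [e1, e2] at h2
    exact lab_far p q m m1 m2 (by omega) (by omega) ha
  · exact lab_rel hab hfar _ hoa hob m1 m2 hm1 ha

end Pool.Agent.MQ1
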