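import Pool.Agent.MQ1.Defs

set_option autoImplicit false

namespace Pool.Agent.MQ1

open Pool.Agent.StrLink

variable {k : ℕ}

/-! ## Rank.lean : `H = ⟨x₀, x₁, u, v⟩` has rational rank 2 (`H` is free by Nielsen-Schreier, so any
two `α, β : H → ℚ` lift to a homomorphism to the Heisenberg group (3x3 unitriangular matrices);
the relation `[u,x₀] = [v,x₁⁻¹]` gives a bilinear identity; take `α` zero on `x₀, x₁` and for `β` the
restrictions of `β0`, `β1`) -/

/-- the rational Heisenberg group -/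
@[ext] structure rank_Heis where
  a : ℚ
  b : ℚ
  c : ℚ

namespace rank_Heis

instance : Mul rank_Heis := ⟨fun p q => ⟨p.a + q.a, p.b + q.b, p.c + q.c + p.a * q.b⟩⟩
instance : One rank_Heis := ⟨⟨0, 0, 0⟩⟩
instance : Inv rank_Heis := ⟨fun p => ⟨-p.a, -p.b, -p.c + p.a * p.b⟩⟩

@[simp] theorem mul_a (p q : rank_Heis) : (p * q).a = p.a + q.a := rfl
@[simp] theorem mul_b (p q : rank_Heis) : (p * q).b = p.b + q.b := rfl
@[simp] theorem mul_c (p q : rank_Heis) : (p * q).c = p.c + q.c + p.a * q.b := rfl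
@[simp] theorem one_a : (1 : rank_Heis).a = 0 := rfl
@[simp] theorem one_b : (1 : rank_Heis).b = 0 := rfl
@[simp] theorem one_c : (1 : rank_Heis).c = 0 := rfl
@[simp] theorem inv_a (p : rank_Heis) : (p⁻¹).a = -p.a := rfl
@[simp] theorem inv_b (p : rank_Heis) : (p⁻¹).b = -p.b := rfl
@[simp] theorem inv_c (p : rank_Heis) : (p⁻¹).c = -p.c + p.a * p.b := rfl

instance : Group rank_Heis := Group.ofLeftAxioms
  (by intro p q r; ext <;> simp <;> ring)
  (by intro p; ext <;> simp)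
  (by intro p; ext <;> simp)

/-- first projection -/
def pa : rank_Heis →* Multiplicative ℚ where
  toFun p := Multiplicative.ofAdd p.a
  map_one' := rfl
  map_mul' _ _ := rfl

/-- second projection -/
def pb : rank_Heis →* Multiplicative ℚ where
  toFun p := Multiplicative.ofAdd p.b
  map_one' := rfl
  map_mul' _ _ := rfl

end rank_Heis

theorem rank_lift {P : Type} [Group P] [IsFreeGroup P] (α β : P →* Multiplicative ℚ) :
    ∃ H : P →* rank_Heis, (∀ g, (H g).a = (α g).toAdd) ∧ ∀ g, (H g).b = (β g).toAdd := by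
  let H : P →* rank_Heis := IsFreeGroup.lift
    (fun s => ⟨(α (IsFreeGroup.of s)).toAdd, (β (IsFreeGroup.of s)).toAdd, 0⟩)
  have e1 : rank_Heis.pa.comp H = α := by
    apply IsFreeGroup.ext_hom
    intro s
    simp only [MonoidHom.comp_apply, H, IsFreeGroup.lift_of]
    rfl
  have e2 : rank_Heis.pb.comp H = β := by
    apply IsFreeGroup.ext_hom
    intro s
    simp only [MonoidHom.comp_apply, H, IsFreeGroup.lift_of]
    rfl
  refine ⟨H, fun g => ?_, fun g => ?_⟩
  · rw [← e1]; rfl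
  · rw [← e2]; rfl

theorem rank_iso {P : Type} [Group P] [IsFreeGroup P] (x0 x1 u v : P)
    (hp : (v * x1 * v⁻¹) * (u * x0 * u⁻¹) = x1 * x0) (α β : P →* Multiplicative ℚ) :
    (α v).toAdd * (β x1).toAdd - (α x1).toAdd * (β v).toAdd +
      ((α u).toAdd * (β x0).toAdd - (α x0).toAdd * (β u).toAdd) = 0 := by
  obtain ⟨H, ha, hb⟩ := rank_lift α β
  have e := congrArg rank_Heis.c (congrArg H hp)
  simp only [map_mul, map_inv, rank_Heis.mul_a, rank_Heis.mul_b, rank_Heis.mul_c,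
    rank_Heis.inv_a, rank_Heis.inv_b, rank_Heis.inv_c, ha, hb] at e
  linarith

theorem rank_two (F : Type) [Group F] [IsFreeGroup F] (x0 x1 u v : F)
    (hp : (v * x1 * v⁻¹) * (u * x0 * u⁻¹) = x1 * x0) (β0 β1 : F →* Multiplicative ℚ)
    (h00 : β0 x0 ≠ 1) (h01 : β0 x1 = 1) (h10 : β1 x0 = 1) (h11 : β1 x1 ≠ 1)
    (H : Subgroup F) (hH : H = Subgroup.closure {x0, x1, u, v})
    (α : H →* Multiplicative ℚ) (ha0 : ∀ h : x0 ∈ H, α ⟨x0, h⟩ = 1)
    (ha1 : ∀ h : x1 ∈ H, α ⟨x1, h⟩ = 1) : α = 1 := by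
  have m0 : x0 ∈ H := by rw [hH]; exact Subgroup.subset_closure (by simp)
  have m1 : x1 ∈ H := by rw [hH]; exact Subgroup.subset_closure (by simp)
  have mu : u ∈ H := by rw [hH]; exact Subgroup.subset_closure (by simp)
  have mv : v ∈ H := by rw [hH]; exact Subgroup.subset_closure (by simp)
  have hp' : ((⟨v, mv⟩ : H) * ⟨x1, m1⟩ * (⟨v, mv⟩ : H)⁻¹) * (⟨u, mu⟩ * ⟨x0, m0⟩ * (⟨u, mu⟩ : H)⁻¹) =
      ⟨x1, m1⟩ * ⟨x0, m0⟩ := Subtype.ext hp
  have i0 := rank_iso (P := H) _ _ _ _ hp' α (β0.comp H.subtype)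
  have i1 := rank_iso (P := H) _ _ _ _ hp' α (β1.comp H.subtype)
  have z0 : (α ⟨x0, m0⟩).toAdd = 0 := by rw [ha0 m0]; rfl
  have z1 : (α ⟨x1, m1⟩).toAdd = 0 := by rw [ha1 m1]; rfl
  have b01 : ((β0.comp H.subtype) ⟨x1, m1⟩).toAdd = 0 := by
    show (β0 x1).toAdd = 0
    rw [h01]; rfl
  have b10 : ((β1.comp H.subtype) ⟨x0, m0⟩).toAdd = 0 := by
    show (β1 x0).toAdd = 0
    rw [h10]; rfl
  have b00 : ((β0.comp H.subtype) ⟨x0, m0⟩).toAdd ≠ 0 := by
    show (β0 x0).toAdd ≠ 0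
    intro h
    exact h00 (Multiplicative.toAdd.injective h)
  have b11 : ((β1.comp H.subtype) ⟨x1, m1⟩).toAdd ≠ 0 := by
    show (β1 x1).toAdd ≠ 0
    intro h
    exact h11 (Multiplicative.toAdd.injective h)
  rw [z0, z1, b01] at i0
  rw [z0, z1, b10] at i1
  have zu : (α ⟨u, mu⟩).toAdd = 0 := by
    have : (α ⟨u, mu⟩).toAdd * ((β0.comp H.subtype) ⟨x0, m0⟩).toAdd = 0 := by linarith
    exact (mul_eq_zero.1 this).resolve_right b00
  have zv : (α ⟨v, mv⟩).toAdd = 0 := by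
    have : (α ⟨v, mv⟩).toAdd * ((β1.comp H.subtype) ⟨x1, m1⟩).toAdd = 0 := by linarith
    exact (mul_eq_zero.1 this).resolve_right b11
  have key : ∀ y (hy : y ∈ Subgroup.closure ({x0, x1, u, v} : Set F)) (hyH : y ∈ H),
      α ⟨y, hyH⟩ = 1 := by
    intro y hy
    induction hy using Subgroup.closure_induction with
    | mem y hy =>
      intro hyH
      simp only [Set.mem_insert_iff, Set.mem_singleton_iff] at hy
      rcases hy with rfl | rfl | rfl | rfl
      · exact ha0 hyH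
      · exact ha1 hyH
      · exact Multiplicative.toAdd.injective zu
      · exact Multiplicative.toAdd.injective zv
    | one =>
      intro hyH
      exact map_one α
    | mul a b ha hb iha ihb =>
      intro hyH
      have haH : a ∈ H := by rw [hH]; exact ha
      have hbH : b ∈ H := by rw [hH]; exact hb
      have : (⟨a * b, hyH⟩ : H) = ⟨a, haH⟩ * ⟨b, hbH⟩ := rfl
      rw [this, map_mul, iha haH, ihb hbH, one_mul]
    | inv a ha iha =>
      intro hyH
      have haH : a ∈ H := by rw [hH]; exact ha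
      have : (⟨a⁻¹, hyH⟩ : H) = (⟨a, haH⟩)⁻¹ := rfl
      rw [this, map_inv, iha haH, inv_one]
  refine MonoidHom.ext fun y => ?_
  have hy : (y : F) ∈ Subgroup.closure ({x0, x1, u, v} : Set F) := by rw [← hH]; exact y.2
  exact key y.1 hy y.2

end Pool.Agent.MQ1
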