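import Pool.Agent.MQ1.Psi
import Pool.Agent.MQ1.Rank
import Pool.Agent.MQ1.UniqU

set_option autoImplicit false

namespace Pool.Agent.MQ1

open Pool.Agent.StrLink

variable {k : ℕ}

/-! ## Sym.lean (from `psi_ker`, `rank_two`, `hom_unique`) -/

theorem sym_range (F : Type) [Group F] (x0 x1 u v : F) :
    (FreeGroup.lift ![x0, x1, u, v]).range = Subgroup.closure {x0, x1, u, v} := by
  rw [FreeGroup.range_lift_eq_closure]
  congr 1
  ext y
  simp only [Set.mem_range, Set.mem_insert_iff, Set.mem_singleton_iff]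
  constructor
  · rintro ⟨i, rfl⟩
    fin_cases i <;> simp
  · rintro (rfl | rfl | rfl | rfl)
    · exact ⟨0, rfl⟩
    · exact ⟨1, rfl⟩
    · exact ⟨2, rfl⟩
    · exact ⟨3, rfl⟩

theorem sym (F : Type) [Group F] [IsFreeGroup F] (x0 x1 t0 t1 u v : F)
    (ht0 : t0 = u * x0 * u⁻¹) (ht1 : t1 = v * x1 * v⁻¹) (hp : t1 * t0 = x1 * x0)
    (β0 β1 : F →* Multiplicative ℚ)
    (h00 : β0 x0 ≠ 1) (h01 : β0 x1 = 1) (h10 : β1 x0 = 1) (h11 : β1 x1 ≠ 1)
    {r : ℕ} (φ φ' : F →* U r) (h0 : φ' x0 = (φ t0)⁻¹) (h1 : φ' x1 = (φ t1)⁻¹) :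
    φ' t0 = φ (t0 * x0⁻¹) * (φ x0)⁻¹ * (φ (t0 * x0⁻¹))⁻¹ ∧
      φ' t1 = φ (t0 * x0⁻¹) * (φ x1)⁻¹ * (φ (t0 * x0⁻¹))⁻¹ := by
  by_cases hc : t0 * x0⁻¹ = 1
  · have e0 : t0 = x0 := mul_inv_eq_one.1 hc
    have e1 : t1 = x1 := by rw [e0] at hp; exact mul_right_cancel hp
    rw [hc, map_one, one_mul, one_mul, inv_one, mul_one, mul_one]
    refine ⟨?_, ?_⟩
    · rw [e0, h0, e0]
    · rw [e1, h1, e1]
  obtain ⟨c, hcdef⟩ : ∃ c, c = t0 * x0⁻¹ := ⟨_, rfl⟩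
  rw [← hcdef] at hc ⊢
  obtain ⟨H, hH⟩ : ∃ H : Subgroup F, H = (FreeGroup.lift ![x0, x1, u, v]).range := ⟨_, rfl⟩
  have hHc : H = Subgroup.closure {x0, x1, u, v} := by rw [hH, sym_range]
  have hker : ∀ W : FreeGroup (Fin 4), FreeGroup.lift ![x0, x1, u, v] W = 1 →
      FreeGroup.lift ![t0⁻¹, t1⁻¹, c * u⁻¹, c * v⁻¹] W = 1 := fun W hW =>
    psi_ker F x0 x1 t0 t1 u v c ht0 ht1 hp hcdef hc W hW
  -- the homomorphism `psi`
  obtain ⟨psi, hpsi⟩ : ∃ psi : H →* F, ∀ (W : FreeGroup (Fin 4))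
      (hW : FreeGroup.lift ![x0, x1, u, v] W ∈ H),
      psi ⟨FreeGroup.lift ![x0, x1, u, v] W, hW⟩ =
        FreeGroup.lift ![t0⁻¹, t1⁻¹, c * u⁻¹, c * v⁻¹] W := by
    have hker' : (FreeGroup.lift ![x0, x1, u, v]).rangeRestrict.ker ≤
        (FreeGroup.lift ![t0⁻¹, t1⁻¹, c * u⁻¹, c * v⁻¹]).ker := by
      intro W hW
      rw [MonoidHom.mem_ker] at hW ⊢
      apply hker
      have := congrArg Subtype.val hW
      exact this
    obtain ⟨p, hp'⟩ : ∃ p : (FreeGroup.lift ![x0, x1, u, v]).range →* F,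
        p.comp (FreeGroup.lift ![x0, x1, u, v]).rangeRestrict =
          FreeGroup.lift ![t0⁻¹, t1⁻¹, c * u⁻¹, c * v⁻¹] := by
      refine ⟨(FreeGroup.lift ![x0, x1, u, v]).rangeRestrict.liftOfSurjective
        (MonoidHom.rangeRestrict_surjective _) ⟨_, hker'⟩, ?_⟩
      exact MonoidHom.liftOfRightInverse_comp _ _ _ _
    subst hH
    refine ⟨p, fun W hW => ?_⟩
    rw [← hp']
    rfl
  have hm0 : x0 ∈ H := by rw [hH]; exact ⟨FreeGroup.of 0, by simp⟩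
  have hm1 : x1 ∈ H := by rw [hH]; exact ⟨FreeGroup.of 1, by simp⟩
  have hmu : u ∈ H := by rw [hH]; exact ⟨FreeGroup.of 2, by simp⟩
  have hmv : v ∈ H := by rw [hH]; exact ⟨FreeGroup.of 3, by simp⟩
  have p0 : psi ⟨x0, hm0⟩ = t0⁻¹ := by
    have := hpsi (FreeGroup.of 0) (by simpa using hm0)
    simpa using this
  have p1 : psi ⟨x1, hm1⟩ = t1⁻¹ := by
    have := hpsi (FreeGroup.of 1) (by simpa using hm1)
    simpa using this
  have pu : psi ⟨u, hmu⟩ = c * u⁻¹ := by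
    have := hpsi (FreeGroup.of 2) (by simpa using hmu)
    simpa using this
  have pv : psi ⟨v, hmv⟩ = c * v⁻¹ := by
    have := hpsi (FreeGroup.of 3) (by simpa using hmv)
    simpa using this
  -- uniqueness
  have huni : φ.comp psi = φ'.comp H.subtype := by
    apply hom_unique ({⟨x0, hm0⟩, ⟨x1, hm1⟩} : Set H)
    · intro α hα
      refine rank_two F x0 x1 u v ?_ β0 β1 h00 h01 h10 h11 H hHc α ?_ ?_
      · rw [← ht0, ← ht1]; exact hp
      · intro h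
        exact hα _ (by simp)
      · intro h
        exact hα _ (by simp)
    · rintro x (rfl | rfl)
      · rw [MonoidHom.comp_apply, MonoidHom.comp_apply, p0, map_inv, Subgroup.subtype_apply, h0]
      · rw [MonoidHom.comp_apply, MonoidHom.comp_apply, p1, map_inv, Subgroup.subtype_apply, h1]
  have ht0H : (⟨u, hmu⟩ * ⟨x0, hm0⟩ * ⟨u, hmu⟩⁻¹ : H).1 = t0 := by
    rw [ht0]; rfl
  have ht1H : (⟨v, hmv⟩ * ⟨x1, hm1⟩ * ⟨v, hmv⟩⁻¹ : H).1 = t1 := by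
    rw [ht1]; rfl
  constructor
  · have h2 := DFunLike.congr_fun huni (⟨u, hmu⟩ * ⟨x0, hm0⟩ * ⟨u, hmu⟩⁻¹ : H)
    rw [MonoidHom.comp_apply, MonoidHom.comp_apply, Subgroup.subtype_apply, ht0H, map_mul psi,
      map_mul psi, map_inv psi, p0, pu] at h2
    rw [← h2, ← map_inv, ← map_inv, ← map_mul, ← map_mul]
    congr 1
    rw [ht0]
    group
  · have h2 := DFunLike.congr_fun huni (⟨v, hmv⟩ * ⟨x1, hm1⟩ * ⟨v, hmv⟩⁻¹ : H)
    rw [MonoidHom.comp_apply, MonoidHom.comp_apply, Subgroup.subtype_apply, ht1H, map_mul psi,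
      map_mul psi, map_inv psi, p1, pv] at h2
    rw [← h2, ← map_inv, ← map_inv, ← map_mul, ← map_mul]
    congr 1
    rw [ht1]
    group

end Pool.Agent.MQ1
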