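import Pool.Agent.MQ1.Exist
import Pool.Agent.MQ1.MoveC
import Pool.Agent.MQ1.FT
import Pool.Agent.MQ1.Sym
import Pool.Agent.MQ1.Ex

set_option autoImplicit false

namespace Pool.Agent.MQ1

open Pool.Agent.StrLink

variable {k : ℕ}

/-! ## Main.lean -/

/-- the top labels as a function of the bottom labels, in a group of unitriangular matrices -/
noncomputable def A (w : SL k) {r : ℕ} (g : Fin k → U r) : List (U r) :=
  top w.1 g (exists_sol w g).choose

theorem A_eq (w : SL k) {r : ℕ} (g : Fin k → U r) (c : ℕ → U r) (h : Sol w.1 g c) :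
    top w.1 g c = A w g := by
  rw [A, sol_unique w g c _ h (exists_sol w g).choose_spec]

theorem A_move {w w' : SL k} (h : Move w.1 w'.1) {r : ℕ} (g : Fin k → U r) : A w g = A w' g := by
  have h1 : Lab w.1 (List.ofFn g) (A w g) :=
    (lab_iff w.1 g _).mpr ⟨_, (exists_sol w g).choose_spec, rfl⟩
  have h2 := lab_move h (List.ofFn g) (A w g) (List.length_ofFn) h1
  obtain ⟨c, hc, hc2⟩ := (lab_iff w'.1 g _).mp h2
  rw [← hc2, A_eq w' g c hc]

/-- the invariant -/
noncomputable def f (w : SL 2) : ℚ :=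
  ent ((A w (fun j : Fin 2 => ((A w (Mag II)).getD j 1)⁻¹)).getD 0 1) 0 (Fin.last 9) -
    ent ((A w (Mag II)).getD 0 1 * (Mag II 0)⁻¹ * (Mag II 0)⁻¹ *
      ((A w (Mag II)).getD 0 1 * (Mag II 0)⁻¹)⁻¹) 0 (Fin.last 9)

theorem W1_const {r : ℕ} (x : U r) : W1 (fun _ => x) := by
  intro a b _
  exact CD_mono (Nat.zero_le _) (CD_const _)

theorem f_mem_V : f ∈ V 2 8 := by
  refine ⟨fun w w' h => ?_, fun w T hT _ => ?_⟩
  · simp only [f, A_move h]
  · have h0 : ∀ j : Fin 2, W1 (fun S : Finset ℕ =>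
        (A (⟨switch S w.1, w.2.switch S⟩ : SL 2) (Mag II)).getD j 1) := by
      intro j
      exact ft w (fun _ => Mag II)
        (fun S => (exists_sol (⟨switch S w.1, w.2.switch S⟩ : SL 2) (Mag II)).choose)
        (fun S => (exists_sol (⟨switch S w.1, w.2.switch S⟩ : SL 2) (Mag II)).choose_spec)
        (fun j => W1_const _) j
    have h1 : W1 (fun S : Finset ℕ => (A (⟨switch S w.1, w.2.switch S⟩ : SL 2) (fun j : Fin 2 =>
        ((A (⟨switch S w.1, w.2.switch S⟩ : SL 2) (Mag II)).getD j 1)⁻¹)).getD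
          ((0 : Fin 2) : ℕ) 1) := by
      exact ft w (fun S => fun j : Fin 2 =>
          ((A (⟨switch S w.1, w.2.switch S⟩ : SL 2) (Mag II)).getD j 1)⁻¹)
        (fun S => (exists_sol (⟨switch S w.1, w.2.switch S⟩ : SL 2) (fun j : Fin 2 =>
          ((A (⟨switch S w.1, w.2.switch S⟩ : SL 2) (Mag II)).getD j 1)⁻¹)).choose)
        (fun S => (exists_sol (⟨switch S w.1, w.2.switch S⟩ : SL 2) (fun j : Fin 2 =>
          ((A (⟨switch S w.1, w.2.switch S⟩ : SL 2) (Mag II)).getD j 1)⁻¹)).choose_spec)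
        (fun j => W1_inv (h0 j)) 0
    have h2 : W1 (fun S : Finset ℕ =>
        (A (⟨switch S w.1, w.2.switch S⟩ : SL 2) (Mag II)).getD ((0 : Fin 2) : ℕ) 1 *
          (Mag II 0)⁻¹ * (Mag II 0)⁻¹ *
          ((A (⟨switch S w.1, w.2.switch S⟩ : SL 2) (Mag II)).getD ((0 : Fin 2) : ℕ) 1 *
            (Mag II 0)⁻¹)⁻¹) :=
      W1_mul (W1_mul (W1_mul (h0 0) (W1_const _)) (W1_const _))
        (W1_inv (W1_mul (h0 0) (W1_const _)))
    have hlt : (0 : Fin (9 + 1)) < Fin.last 9 := by decide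
    have h3 := Submodule.sub_mem _ (h1 0 (Fin.last 9) hlt) (h2 0 (Fin.last 9) hlt)
    exact CD_alt (m := 8) h3 T hT

/-- the upper right entry on `U 1` -/
noncomputable def ent01 : U 1 →* Multiplicative ℚ where
  toFun x := Multiplicative.ofAdd (ent x 0 1)
  map_one' := by
    rw [ent_one]
    simp
  map_mul' x y := by
    rw [ent_mul, Fin.sum_univ_two, ent_low x 0 0 le_rfl, ent_low y 1 1 le_rfl, ← ofAdd_add]
    simp only [if_true, one_mul, mul_one]
    rw [add_comm]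

theorem exists_beta (w : SL 2) (j : Fin 2) : ∃ β : group w →* Multiplicative ℚ,
    β (bot w j) ≠ 1 ∧ ∀ i, i ≠ j → β (bot w i) = 1 := by
  obtain ⟨c, hc⟩ := exists_sol w (Mag (fun _ : Fin 1 => j))
  obtain ⟨φ, h1, -⟩ := hom_of_sol w _ c hc
  refine ⟨ent01.comp φ, ?_, ?_⟩
  · rw [MonoidHom.comp_apply, h1]
    intro h
    have h2 : ent (Mag (fun _ : Fin 1 => j) j) 0 1 = 0 := h
    rw [Mag_ent] at h2
    rw [if_neg (by decide), if_pos ⟨0, rfl, rfl, rfl⟩] at h2
    exact one_ne_zero h2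
  · intro i hi
    rw [MonoidHom.comp_apply, h1]
    change ent (Mag (fun _ : Fin 1 => j) i) 0 1 = 0
    rw [Mag_ent, if_neg (by decide), if_neg]
    rintro ⟨s, h, -⟩
    exact hi h.symm

theorem getD_map {Γ Δ : Type} [Group Γ] [Group Δ] (φ : Γ →* Δ) (l : List Γ) (j : ℕ) :
    (l.map φ).getD j 1 = φ (l.getD j 1) := by
  rw [List.getD_eq_getElem?_getD, List.getD_eq_getElem?_getD, List.getElem?_map]
  cases l[j]? with
  | none => simp
  | some x => simp

theorem A_hom (w : SL 2) {r : ℕ} (φ : group w →* U r) (j : ℕ) :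
    (A w (fun i => φ (bot w i))).getD j 1 = φ ((top w.1 (bot w) (cupg w)).getD j 1) := by
  rw [← getD_map, ← top_map, ← A_eq w (fun i => φ (bot w i)) (fun n => φ (cupg w n))
    (sol_map φ w.1 _ _ (sol_group w))]

theorem f_free (w : SL 2) (hw : IsFreeGroup (group w)) : f w = 0 := by
  obtain ⟨u, hu⟩ := top_conj w (bot w) (cupg w) (sol_group w) 0
  obtain ⟨v, hv⟩ := top_conj w (bot w) (cupg w) (sol_group w) 1
  have hlen := top_length w (bot w) (cupg w)
  have hprod := top_prod w (bot w) (cupg w) (sol_group w)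
  obtain ⟨β0, hb00, hb01⟩ := exists_beta w 0
  obtain ⟨β1, hb11, hb10⟩ := exists_beta w 1
  set t := top w.1 (bot w) (cupg w) with ht
  have hp : t.getD 1 1 * t.getD 0 1 = bot w 1 * bot w 0 := by
    match t, hlen, hprod with
    | [a, b], _, hprod =>
      have h2 : List.ofFn (bot w) = [bot w 0, bot w 1] := by
        simp [List.ofFn_succ]
      rw [h2] at hprod
      simpa using hprod
  obtain ⟨c, hc⟩ := exists_sol w (Mag II)
  obtain ⟨φ, hφ, -⟩ := hom_of_sol w _ c hc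
  have hA : ∀ j : ℕ, (A w (Mag II)).getD j 1 = φ (t.getD j 1) := by
    intro j
    rw [← A_hom w φ j]
    have : (fun i => φ (bot w i)) = Mag II := funext hφ
    rw [this]
  obtain ⟨c', hc'⟩ := exists_sol w (fun j : Fin 2 => ((A w (Mag II)).getD j 1)⁻¹)
  obtain ⟨φ', hφ', -⟩ := hom_of_sol w _ c' hc'
  have hA' : (A w (fun j : Fin 2 => ((A w (Mag II)).getD j 1)⁻¹)).getD 0 1 = φ' (t.getD 0 1) := by
    rw [← A_hom w φ' 0]
    have : (fun i => φ' (bot w i)) = (fun j : Fin 2 => ((A w (Mag II)).getD j 1)⁻¹) := funext hφ'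
    rw [this]
  have h0 : φ' (bot w 0) = (φ (t.getD 0 1))⁻¹ := by
    rw [hφ' 0, hA]
    rfl
  have h1 : φ' (bot w 1) = (φ (t.getD 1 1))⁻¹ := by
    rw [hφ' 1, hA]
    rfl
  have hs := (sym (group w) (bot w 0) (bot w 1) (t.getD 0 1) (t.getD 1 1) u v hu hv hp β0 β1
    hb00 (hb01 1 (by decide)) (hb10 0 (by decide)) hb11 φ φ' h0 h1).1
  rw [f, hA', hA, hs, map_mul, map_inv, hφ 0, sub_eq_zero]

theorem f_ne : f ≠ 0 := by
  obtain ⟨w, c, c', h1, h2, h3⟩ := example_ne
  intro hf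
  have h4 : f w = 0 := by rw [hf]; rfl
  rw [f, ← A_eq w (Mag II) c h1, ← A_eq w _ c' h2, sub_eq_zero] at h4
  exact h3 h4

theorem main : N 2 8 ≠ ⊥ := by
  intro h
  have h1 : f ∈ N 2 8 := ⟨f_mem_V, fun w hw => f_free w hw⟩
  rw [h] at h1
  exact f_ne ((Submodule.mem_bot ℚ).mp h1)

end Pool.Agent.MQ1
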