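import Pool.Agent.MQ1.Defs

set_option autoImplicit false

namespace Pool.Agent.MQ1

open Pool.Agent.StrLink

variable {k : ℕ}

/-! ## MoveA.lean -/

/-- the local relation of a piece: the labels below it and above it -/
def movea_loc {Γ : Type} [Group Γ] : Piece k → List Γ → List Γ → Prop
  | .cross _ o, X, X' => ∃ g h, X = [g, h] ∧ X' = cr o g h
  | .cap _, X, X' => ∃ g h : Γ, X = [g, h] ∧ g * h = 1 ∧ X' = []
  | .cup _ _ _, X, X' => X = [] ∧ ∃ g : Γ, X' = [g, g⁻¹]

theorem movea_at2 {α : Type} (A B : List α) (x y : α) (f : α → α → List α) :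
    at2 A.length f (A ++ ([x, y] ++ B)) = A ++ (f x y ++ B) := by
  unfold at2
  rw [List.drop_left, List.take_left]
  simp

theorem movea_ins2 {α : Type} (A B : List α) (x y : α) :
    ins2 A.length x y (A ++ B) = A ++ ([x, y] ++ B) := by
  unfold ins2
  rw [List.drop_left, List.take_left]
  simp

theorem movea_cr_length {Γ : Type} [Group Γ] (o : Bool) (g h : Γ) : (cr o g h).length = 2 := by
  cases o <;> rfl

theorem movea_len {Γ : Type} [Group Γ] (p : Piece k) (X X' : List Γ) (h : movea_loc p X X') :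
    X.length = p.ins ∧ X'.length = p.outs := by
  cases p with
  | cross i o =>
    obtain ⟨g, h, rfl, rfl⟩ := h
    exact ⟨rfl, movea_cr_length o g h⟩
  | cap i =>
    obtain ⟨g, h, rfl, -, rfl⟩ := h
    exact ⟨rfl, rfl⟩
  | cup i c d =>
    obtain ⟨rfl, g, rfl⟩ := h
    exact ⟨rfl, rfl⟩

theorem movea_put {Γ : Type} [Group Γ] (p : Piece k) (j : ℕ) (X X' : List Γ) :
    movea_loc (p.put j) X X' ↔ movea_loc p X X' := by
  cases p <;> rfl

theorem movea_pos_put (p : Piece k) (j : ℕ) : (p.put j).pos = j := by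
  cases p <;> rfl

theorem movea_ins_put (p : Piece k) (j : ℕ) : (p.put j).ins = p.ins := by
  cases p <;> rfl

/-- one step of a labelling -/
theorem movea_cons {Γ : Type} [Group Γ] (p : Piece k) (w : Word k) (A X B l' : List Γ)
    (hA : A.length = p.pos) (hX : X.length = p.ins) :
    Lab (p :: w) (A ++ (X ++ B)) l' ↔ ∃ X', movea_loc p X X' ∧ Lab w (A ++ (X' ++ B)) l' := by
  cases p with
  | cross i o =>
    have hA' : A.length = i := hA
    have hX' : X.length = 2 := hX
    obtain ⟨x, y, rfl⟩ := List.length_eq_two.1 hX'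
    subst hA'
    show Lab w (at2 A.length (cr o) (A ++ ([x, y] ++ B))) l' ↔ _
    rw [movea_at2]
    constructor
    · intro h
      exact ⟨cr o x y, ⟨x, y, rfl, rfl⟩, h⟩
    · rintro ⟨X', ⟨g, h, h1, rfl⟩, h2⟩
      simp only [List.cons.injEq, and_true] at h1
      obtain ⟨rfl, rfl⟩ := h1
      exact h2
  | cap i =>
    have hA' : A.length = i := hA
    have hX' : X.length = 2 := hX
    obtain ⟨x, y, rfl⟩ := List.length_eq_two.1 hX'
    subst hA'
    show (_ ∧ Lab w (at2 A.length (fun _ _ => []) (A ++ ([x, y] ++ B))) l') ↔ _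
    rw [movea_at2]
    have h1 : (A ++ ([x, y] ++ B)).getD A.length 1 = x := by
      simp [List.getD_eq_getElem?_getD]
    have h2 : (A ++ ([x, y] ++ B)).getD (A.length + 1) 1 = y := by
      simp [List.getD_eq_getElem?_getD]
    rw [h1, h2]
    constructor
    · rintro ⟨h3, h4⟩
      exact ⟨[], ⟨x, y, rfl, h3, rfl⟩, h4⟩
    · rintro ⟨X', ⟨g, h, h3, h4, rfl⟩, h5⟩
      simp only [List.cons.injEq, and_true] at h3
      obtain ⟨rfl, rfl⟩ := h3
      exact ⟨h4, h5⟩
  | cup i c d =>
    have hA' : A.length = i := hA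
    have hX' : X.length = 0 := hX
    obtain rfl := List.length_eq_zero_iff.1 hX'
    subst hA'
    show (∃ g : Γ, Lab w (ins2 A.length g g⁻¹ (A ++ ([] ++ B))) l') ↔ _
    rw [List.nil_append]
    constructor
    · rintro ⟨g, h⟩
      rw [movea_ins2] at h
      exact ⟨[g, g⁻¹], ⟨rfl, g, rfl⟩, h⟩
    · rintro ⟨X', ⟨-, g, rfl⟩, h⟩
      refine ⟨g, ?_⟩
      rw [movea_ins2]
      exact h

theorem movea_split {α : Type} (l : List α) (a x m y : ℕ) (h : a + x + m + y ≤ l.length) :
    ∃ A X M Y B : List α, l = A ++ (X ++ (M ++ (Y ++ B))) ∧ A.length = a ∧ X.length = x ∧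
      M.length = m ∧ Y.length = y := by
  refine ⟨l.take a, (l.drop a).take x, ((l.drop a).drop x).take m,
    (((l.drop a).drop x).drop m).take y, (((l.drop a).drop x).drop m).drop y, ?_, ?_, ?_, ?_, ?_⟩
  · rw [List.take_append_drop, List.take_append_drop, List.take_append_drop,
      List.take_append_drop]
  · rw [List.length_take]
    omega
  · rw [List.length_take, List.length_drop]
    omega
  · rw [List.length_take, List.length_drop, List.length_drop]
    omega
  · rw [List.length_take, List.length_drop, List.length_drop, List.length_drop]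
    omega

/-- MoveA : the far commutation -/
theorem lab_far {Γ : Type} [Group Γ] (p q : Piece k) (m : ℕ) (l l' : List Γ)
    (hp : p.pos + p.ins ≤ l.length)
    (hq : p.pos + p.outs + m + q.ins ≤ l.length + p.outs - p.ins) :
    Lab [p, q.put (p.pos + p.outs + m)] l l' → Lab [q.put (p.pos + p.ins + m), p] l l' := by
  intro h
  obtain ⟨A, X, M, Y, B, rfl, hA, hX, hM, hY⟩ :=
    movea_split l p.pos p.ins m q.ins (by omega)
  rw [movea_cons p _ A X (M ++ (Y ++ B)) l' hA hX] at h
  obtain ⟨X', h1, h2⟩ := h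
  have hX' := (movea_len p X X' h1).2
  have e1 : A ++ (X' ++ (M ++ (Y ++ B))) = (A ++ X' ++ M) ++ (Y ++ B) := by
    simp only [List.append_assoc]
  rw [e1, movea_cons _ _ (A ++ X' ++ M) Y B l'
    (by rw [movea_pos_put, List.length_append, List.length_append, hA, hX', hM])
    (by rw [movea_ins_put, hY])] at h2
  obtain ⟨Y', h3, h4⟩ := h2
  rw [movea_put] at h3
  have e2 : A ++ (X ++ (M ++ (Y ++ B))) = (A ++ X ++ M) ++ (Y ++ B) := by
    simp only [List.append_assoc]
  rw [e2, movea_cons _ _ (A ++ X ++ M) Y B l'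
    (by rw [movea_pos_put, List.length_append, List.length_append, hA, hX, hM])
    (by rw [movea_ins_put, hY])]
  refine ⟨Y', (movea_put q _ Y Y').2 h3, ?_⟩
  have e3 : (A ++ X ++ M) ++ (Y' ++ B) = A ++ (X ++ (M ++ (Y' ++ B))) := by
    simp only [List.append_assoc]
  rw [e3, movea_cons p _ A X (M ++ (Y' ++ B)) l' hA hX]
  refine ⟨X', h1, ?_⟩
  have e4 : A ++ (X' ++ (M ++ (Y' ++ B))) = (A ++ X' ++ M) ++ (Y' ++ B) := by
    simp only [List.append_assoc]
  rw [e4]
  exact h4

end Pool.Agent.MQ1
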