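import Pool.Agent.MQ1.Hyp

set_option autoImplicit false

/-! ## Psi.lean (conjugation by `C = 1 - ρ c`, `c = u x₀ u⁻¹ x₀⁻¹ = v x₁⁻¹ v⁻¹ x₁`, `det C = 2 - tr`:
`C ρ(x₀) = ρ(t₀)⁻¹ C`, `C ρ(u) = ρ(c u⁻¹) C`, `C ρ(x₁) = ρ(t₁)⁻¹ C`, `C ρ(v) = ρ(c v⁻¹) C`
by `X + X⁻¹ = tr X` in `SL₂`) -/

namespace Pool.Agent.MQ1

section psi

variable {K : Type} [Field K] {F : Type} [Group F] (ρ : F →* Matrix.SpecialLinearGroup (Fin 2) K)

/-- The matrix of an element. -/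
private def psi_f (g : F) : Matrix (Fin 2) (Fin 2) K := (ρ g).1

private theorem psi_f_mul (g h : F) : psi_f ρ (g * h) = psi_f ρ g * psi_f ρ h := by
  rw [psi_f, map_mul]; rfl

private theorem psi_f_one : psi_f ρ 1 = 1 := by
  rw [psi_f, map_one]; rfl

private theorem psi_ch (g : F) :
    psi_f ρ g + psi_f ρ g⁻¹ = (psi_f ρ g).trace • (1 : Matrix (Fin 2) (Fin 2) K) := by
  have h : psi_f ρ g⁻¹ = Matrix.adjugate (psi_f ρ g) := by
    rw [psi_f, map_inv, Matrix.SpecialLinearGroup.coe_inv]; rfl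
  rw [h, Matrix.adjugate_fin_two]
  ext i j
  fin_cases i <;> fin_cases j <;> simp [Matrix.trace, Fin.sum_univ_two, add_comm]

private theorem psi_key (g a b : F) : psi_f ρ (a * g * b) + psi_f ρ (a * g⁻¹ * b) =
    (psi_f ρ g).trace • psi_f ρ (a * b) := by
  have h := psi_ch ρ g
  rw [psi_f_mul, psi_f_mul, psi_f_mul, psi_f_mul, psi_f_mul, ← add_mul, ← mul_add, h,
    Matrix.mul_smul, mul_one, Matrix.smul_mul]

private theorem psi_trace_conj (g u : F) : (psi_f ρ (u * g * u⁻¹)).trace = (psi_f ρ g).trace := by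
  rw [psi_f_mul, psi_f_mul, Matrix.trace_mul_cycle, ← psi_f_mul, inv_mul_cancel, psi_f_one, one_mul]

/-- The matrix `1 - ρ c`. -/
private def psi_C (c : F) : Matrix (Fin 2) (Fin 2) K := 1 - psi_f ρ c

private theorem psi_left (c g : F) : psi_C ρ c * psi_f ρ g = psi_f ρ g - psi_f ρ (c * g) := by
  rw [psi_C, sub_mul, one_mul, psi_f_mul]

private theorem psi_right (c g : F) : psi_f ρ g * psi_C ρ c = psi_f ρ g - psi_f ρ (g * c) := by
  rw [psi_C, mul_sub, mul_one, psi_f_mul]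

private theorem psi_det (c : F) : (psi_C ρ c).det = 2 - (ρ c).1.trace := by
  have h : (psi_f ρ c).det = 1 := (ρ c).2
  rw [Matrix.det_fin_two] at h
  rw [psi_C, Matrix.det_fin_two]
  simp only [Matrix.sub_apply, Matrix.one_apply_eq, Matrix.one_apply_ne (show (0 : Fin 2) ≠ 1 by decide),
    Matrix.one_apply_ne (show (1 : Fin 2) ≠ 0 by decide), Matrix.trace, Fin.sum_univ_two,
    Matrix.diag_apply]
  change (1 - psi_f ρ c 0 0) * (1 - psi_f ρ c 1 1) - (0 - psi_f ρ c 0 1) * (0 - psi_f ρ c 1 0) =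
    2 - (psi_f ρ c 0 0 + psi_f ρ c 1 1)
  linear_combination h

/-- The case of `x₀`. -/
private theorem psi_a {x t c u : F} (ht : t = u * x * u⁻¹) (hc : c = t * x⁻¹) :
    psi_C ρ c * psi_f ρ x = psi_f ρ t⁻¹ * psi_C ρ c := by
  rw [psi_left, psi_right]
  have e1 : c * x = t := by rw [hc]; group
  have e2 : t⁻¹ * c = x⁻¹ := by rw [hc]; group
  have h1 := psi_ch ρ x
  have h2 := psi_ch ρ t
  have h3 : (psi_f ρ t).trace = (psi_f ρ x).trace := by rw [ht, psi_trace_conj]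
  rw [e1, e2, sub_eq_sub_iff_add_eq_add, h1, add_comm, h2, h3]

/-- The case of `u` (`c = u y u⁻¹ y⁻¹`). -/
private theorem psi_b {y c u : F} (hc : c = u * y * u⁻¹ * y⁻¹) :
    psi_C ρ c * psi_f ρ u = psi_f ρ (c * u⁻¹) * psi_C ρ c := by
  rw [psi_left, psi_right]
  have h1 := psi_key ρ u c 1
  have h2 := psi_key ρ u (u * y) (u⁻¹ * y⁻¹)
  have e1 : u * y * u * (u⁻¹ * y⁻¹) = u := by group
  have e2 : u * y * u⁻¹ * (u⁻¹ * y⁻¹) = c * u⁻¹ * c := by rw [hc]; group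
  have e3 : u * y * (u⁻¹ * y⁻¹) = c := by rw [hc]; group
  rw [mul_one, mul_one, mul_one] at h1
  rw [e1, e2, e3, ← h1] at h2
  rw [sub_eq_sub_iff_add_eq_add, h2, add_comm]

/-- The case of `x₁`. -/
private theorem psi_c {x t c v : F} (ht : t = v * x * v⁻¹) (hc : c = t⁻¹ * x) :
    psi_C ρ c * psi_f ρ x = psi_f ρ t⁻¹ * psi_C ρ c := by
  rw [psi_left, psi_right]
  have h1 := psi_key ρ t t⁻¹ x
  have h2 := psi_key ρ x (t⁻¹ * x) 1
  have e1 : t⁻¹ * t * x = x := by group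
  have e2 : t⁻¹ * t⁻¹ * x = t⁻¹ * c := by rw [hc]; group
  have e3 : t⁻¹ * x * x * 1 = c * x := by rw [hc]; group
  have e4 : t⁻¹ * x * x⁻¹ * 1 = t⁻¹ := by group
  have h3 : (psi_f ρ t).trace = (psi_f ρ x).trace := by rw [ht, psi_trace_conj]
  rw [e1, e2, ← hc, h3] at h1
  rw [e3, e4, mul_one, ← hc, ← h1] at h2
  rw [sub_eq_sub_iff_add_eq_add, ← h2, add_comm]

private theorem psi_inv {c g h : F} (hgh : psi_C ρ c * psi_f ρ g = psi_f ρ h * psi_C ρ c) :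
    psi_C ρ c * psi_f ρ g⁻¹ = psi_f ρ h⁻¹ * psi_C ρ c := by
  have h1 : psi_f ρ h⁻¹ * (psi_C ρ c * psi_f ρ g) * psi_f ρ g⁻¹ =
      psi_f ρ h⁻¹ * (psi_f ρ h * psi_C ρ c) * psi_f ρ g⁻¹ := by rw [hgh]
  rw [← mul_assoc, mul_assoc, ← psi_f_mul, mul_inv_cancel, psi_f_one, mul_one, ← mul_assoc,
    ← psi_f_mul, inv_mul_cancel, psi_f_one, one_mul] at h1
  exact h1.symm

private theorem psi_word {c : F} {n : ℕ} (g h : Fin n → F)
    (hgh : ∀ i, psi_C ρ c * psi_f ρ (g i) = psi_f ρ (h i) * psi_C ρ c) (W : FreeGroup (Fin n)) :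
    psi_C ρ c * psi_f ρ (FreeGroup.lift g W) = psi_f ρ (FreeGroup.lift h W) * psi_C ρ c := by
  induction W using FreeGroup.induction_on with
  | C1 => rw [map_one, map_one, psi_f_one, mul_one, one_mul]
  | of i => rw [FreeGroup.lift_apply_of, FreeGroup.lift_apply_of]; exact hgh i
  | inv_of i ih =>
    rw [map_inv, map_inv]
    exact psi_inv ρ ih
  | mul a b ha hb =>
    rw [map_mul, map_mul, psi_f_mul, psi_f_mul, ← mul_assoc, ha, mul_assoc, hb, mul_assoc]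

end psi

theorem psi_ker (F : Type) [Group F] [IsFreeGroup F] (x0 x1 t0 t1 u v c : F)
    (ht0 : t0 = u * x0 * u⁻¹) (ht1 : t1 = v * x1 * v⁻¹) (hp : t1 * t0 = x1 * x0)
    (hc : c = t0 * x0⁻¹) (hc1 : c ≠ 1) (W : FreeGroup (Fin 4))
    (hW : FreeGroup.lift ![x0, x1, u, v] W = 1) :
    FreeGroup.lift ![t0⁻¹, t1⁻¹, c * u⁻¹, c * v⁻¹] W = 1 := by
  obtain ⟨K, _, ρ, hρ⟩ := hyp_embed F
  have hc' : c = t1⁻¹ * x1 := by
    rw [hc, mul_inv_eq_iff_eq_mul, mul_assoc, ← hp]; group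
  have hC : ∀ i, psi_C ρ c * psi_f ρ (![x0, x1, u, v] i) =
      psi_f ρ (![t0⁻¹, t1⁻¹, c * u⁻¹, c * v⁻¹] i) * psi_C ρ c := by
    intro i
    fin_cases i
    · exact psi_a ρ ht0 hc
    · exact psi_c ρ ht1 hc'
    · exact psi_b ρ (c := c) (u := u) (y := x0) (by rw [hc, ht0])
    · exact psi_b ρ (c := c) (u := v) (y := x1⁻¹) (by rw [hc', ht1]; group)
  have h1 := psi_word ρ _ _ hC W
  rw [hW, psi_f_one, mul_one] at h1
  have hdet : (psi_C ρ c).det ≠ 0 := by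
    rw [psi_det, sub_ne_zero]
    exact (hρ c hc1).symm
  have h2 : psi_f ρ (FreeGroup.lift ![t0⁻¹, t1⁻¹, c * u⁻¹, c * v⁻¹] W) = 1 := by
    have hu : IsUnit (psi_C ρ c) := (Matrix.isUnit_iff_isUnit_det _).2 (isUnit_iff_ne_zero.2 hdet)
    have h3 : psi_f ρ (FreeGroup.lift ![t0⁻¹, t1⁻¹, c * u⁻¹, c * v⁻¹] W) * psi_C ρ c =
        1 * psi_C ρ c := by rw [← h1, one_mul]
    exact hu.mul_right_cancel h3
  by_contra hne
  apply hρ _ hne
  change (psi_f ρ _).trace = 2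
  rw [h2]
  simp [Matrix.trace]

end Pool.Agent.MQ1
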