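import Pool.Agent.MQ1.Defs

set_option autoImplicit false

namespace Pool.Agent.MQ1

open Pool.Agent.StrLink

variable {k : ℕ}

/-! ## Track.lean : strands are arcs from bottom `j` to top `j` -/

namespace TrackAux

theorem at2_app {α : Type} {i : ℕ} (f : α → α → List α) (a b : List α) (x y : α)
    (h : a.length = i) : at2 i f (a ++ x :: y :: b) = a ++ f x y ++ b := by
  subst h
  simp [at2]

theorem ins2_app {α : Type} {i : ℕ} (x y : α) (a b : List α) (h : a.length = i) :
    ins2 i x y (a ++ b) = a ++ x :: y :: b := by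
  subst h
  simp [ins2]

theorem split2 {α : Type} {i : ℕ} (s : List α) (h : i + 1 < s.length) :
    ∃ a x y b, s = a ++ x :: y :: b ∧ a.length = i := by
  refine ⟨s.take i, s[i], s[i + 1], s.drop (i + 2), ?_, ?_⟩
  · rw [← List.drop_eq_getElem_cons (i := i + 1) (by omega),
      ← List.drop_eq_getElem_cons (i := i) (by omega), List.take_append_drop]
  · simp; omega

theorem split0 {α : Type} {i : ℕ} (s : List α) (h : i ≤ s.length) :
    ∃ a b, s = a ++ b ∧ a.length = i :=
  ⟨s.take i, s.drop i, (List.take_append_drop i s).symm, by simp; omega⟩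

/-- a point of the line with its name and its label -/
structure T (k : ℕ) (Q : Type) where
  pt : Pt k
  nm : ℕ
  lb : Q

variable {Q : Type}

/-- points with the same name are the two ends of an arc -/
def R (σ : Q → Q) (t t' : T k Q) : Prop :=
  t.nm = t'.nm → t.pt.1 = t'.pt.1 ∧ t.pt.2 ≠ t'.pt.2 ∧ t'.lb = σ t.lb

theorem R_symm {σ : Q → Q} (hσ : ∀ x, σ (σ x) = x) {t t' : T k Q} (h : R σ t t') : R σ t' t := by
  intro he
  obtain ⟨h1, h2, h3⟩ := h he.symm
  exact ⟨h1.symm, h2.symm, by rw [h3, hσ]⟩

/-- the invariant -/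
structure Inv (σ : Q → Q) (q : Fin k → Q) (N : ℕ) (s : List (T k Q)) : Prop where
  lt : ∀ t ∈ s, t.nm < N
  pw : s.Pairwise (R σ)
  fr : ∀ t ∈ s, 2 ≤ (s.map T.nm).count t.nm ∨ ∃ j, t.pt = (j, true) ∧ t.lb = q j

theorem Inv.perm {σ : Q → Q} (hσ : ∀ x, σ (σ x) = x) {q : Fin k → Q} {N : ℕ} {s s' : List (T k Q)}
    (h : Inv σ q N s) (hp : s.Perm s') : Inv σ q N s' := by
  refine ⟨fun t ht => h.lt t (hp.mem_iff.2 ht), ?_, fun t ht => ?_⟩
  · exact (hp.pairwise_iff (fun {a b} hab => R_symm hσ hab)).1 h.pw
  · rcases h.fr t (hp.mem_iff.2 ht) with h1 | h1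
    · left
      rwa [(hp.map T.nm).count_eq] at h1
    · exact Or.inr h1

/-- renaming -/
def ren (u v : ℕ) (t : T k Q) : T k Q := ⟨t.pt, if t.nm = v then u else t.nm, t.lb⟩

theorem count_ren (u v : ℕ) (h : u ≠ v) (l : List (T k Q)) :
    ((l.map (ren u v)).map T.nm).count u = (l.map T.nm).count u + (l.map T.nm).count v := by
  induction l with
  | nil => simp
  | cons t l ih =>
    simp only [List.map_cons, List.count_cons, ren, beq_iff_eq] at ih ⊢
    by_cases h1 : t.nm = v
    · have h2 : ¬ t.nm = u := fun h3 => h (h3.symm.trans h1)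
      simp only [h1, if_true] at ih ⊢
      rw [if_neg (fun h3 : v = u => h h3.symm)]
      rw [ih]
      omega
    · simp only [h1, if_false]
      rw [ih]
      omega

theorem count_ren_ne (u v z : ℕ) (hu : z ≠ u) (hv : z ≠ v) (l : List (T k Q)) :
    ((l.map (ren u v)).map T.nm).count z = (l.map T.nm).count z := by
  induction l with
  | nil => simp
  | cons t l ih =>
    simp only [List.map_cons, List.count_cons, ren, beq_iff_eq] at ih ⊢
    rw [ih]
    by_cases h1 : t.nm = v
    · simp only [h1, if_true]
      rw [if_neg (fun h3 : u = z => hu h3.symm), if_neg (fun h3 : v = z => hv h3.symm)]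
    · simp only [h1, if_false]

/-- the partner of one of the two ends that are joined -/
theorem partner {σ : Q → Q} (hσ : ∀ x, σ (σ x) = x) {q : Fin k → Q} {N : ℕ} {s : List (T k Q)}
    {t1 t2 : T k Q}
    (h : Inv σ q N (t1 :: t2 :: s)) (hn : t1.nm ≠ t2.nm) (hd : t1.pt.2 ≠ t2.pt.2)
    (hl : t2.lb = σ t1.lb) : ∃ t ∈ s, t1.lb = t.lb ∨ t1.lb = σ t.lb := by
  have key : ∀ t ∈ s, t.nm = t1.nm → t1.lb = σ t.lb := by
    intro t ht he
    have h1 := (List.pairwise_cons.1 h.pw).1 t (List.mem_cons_of_mem _ ht)
    obtain ⟨-, -, h3⟩ := h1 he.symm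
    rw [h3, hσ]
  have key2 : ∀ t ∈ s, t.nm = t2.nm → t1.lb = t.lb := by
    intro t ht he
    have h1 := (List.pairwise_cons.1 (List.pairwise_cons.1 h.pw).2).1 t ht
    obtain ⟨-, -, h3⟩ := h1 he.symm
    rw [h3, hl, hσ]
  rcases h.fr t1 (by simp) with h1 | ⟨j, h1, -⟩
  · simp only [List.map_cons, List.count_cons, beq_self_eq_true, if_true, beq_iff_eq,
      if_neg hn.symm] at h1
    have h2 : 0 < (s.map T.nm).count t1.nm := by omega
    obtain ⟨t, ht, he⟩ := List.mem_map.1 (List.count_pos_iff.1 h2)
    exact ⟨t, ht, Or.inr (key t ht he)⟩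
  · rcases h.fr t2 (by simp) with h2 | ⟨j', h2, -⟩
    · simp only [List.map_cons, List.count_cons, beq_self_eq_true, if_true, beq_iff_eq,
        if_neg hn] at h2
      have h3 : 0 < (s.map T.nm).count t2.nm := by omega
      obtain ⟨t, ht, he⟩ := List.mem_map.1 (List.count_pos_iff.1 h3)
      exact ⟨t, ht, Or.inl (key2 t ht he)⟩
    · rw [h1, h2] at hd
      exact absurd rfl hd

theorem Inv.cap {σ : Q → Q} (hσ : ∀ x, σ (σ x) = x) {q : Fin k → Q} {N : ℕ} {s : List (T k Q)}
    {t1 t2 : T k Q}
    (h : Inv σ q N (t1 :: t2 :: s)) (hn : t1.nm ≠ t2.nm) (hc : t1.pt.1 = t2.pt.1)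
    (hd : t1.pt.2 ≠ t2.pt.2) (hl : t2.lb = σ t1.lb) : Inv σ q N (s.map (ren t1.nm t2.nm)) := by
  have r1 : ∀ t ∈ s, R σ t1 t := fun t ht =>
    (List.pairwise_cons.1 h.pw).1 t (List.mem_cons_of_mem _ ht)
  have r2 : ∀ t ∈ s, R σ t2 t := (List.pairwise_cons.1 (List.pairwise_cons.1 h.pw).2).1
  have hs : s.Pairwise (R σ) := (List.pairwise_cons.1 (List.pairwise_cons.1 h.pw).2).2
  refine ⟨fun t ht => ?_, ?_, fun t ht => ?_⟩
  · obtain ⟨t', ht', rfl⟩ := List.mem_map.1 ht
    simp only [ren]
    split_ifs
    · exact h.lt t1 (by simp)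
    · exact h.lt t' (by simp [ht'])
  · rw [List.pairwise_map]
    refine hs.imp_of_mem ?_
    intro t t' ht ht' hR
    simp only [R, ren]
    intro he
    by_cases e1 : t.nm = t2.nm
    · by_cases e2 : t'.nm = t2.nm
      · exact hR (e1.trans e2.symm)
      · rw [if_pos e1, if_neg e2] at he
        obtain ⟨a1, a2, a3⟩ := r2 t ht e1.symm
        obtain ⟨b1, b2, b3⟩ := r1 t' ht' he
        refine ⟨a1.symm.trans (hc.symm.trans b1), ?_, ?_⟩
        · revert a2 b2 hd
          cases t.pt.2 <;> cases t'.pt.2 <;> cases t1.pt.2 <;> cases t2.pt.2 <;> simp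
        · rw [b3, a3, hl, hσ]
    · by_cases e2 : t'.nm = t2.nm
      · rw [if_neg e1, if_pos e2] at he
        obtain ⟨a1, a2, a3⟩ := r1 t ht he.symm
        obtain ⟨b1, b2, b3⟩ := r2 t' ht' e2.symm
        refine ⟨a1.symm.trans (hc.trans b1), ?_, ?_⟩
        · revert a2 b2 hd
          cases t.pt.2 <;> cases t'.pt.2 <;> cases t1.pt.2 <;> cases t2.pt.2 <;> simp
        · rw [b3, a3, hl]
      · rw [if_neg e1, if_neg e2] at he
        exact hR he
  · obtain ⟨t', ht', rfl⟩ := List.mem_map.1 ht
    rcases h.fr t' (by simp [ht']) with h1 | h1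
    · have hm : 0 < (s.map T.nm).count t'.nm :=
        List.count_pos_iff.2 (List.mem_map.2 ⟨t', ht', rfl⟩)
      by_cases e2 : t'.nm = t2.nm
      · rcases h.fr t1 (by simp) with h3 | ⟨j, h3, h4⟩
        · left
          simp only [List.map_cons, List.count_cons, beq_self_eq_true, if_true, beq_iff_eq,
            if_neg hn.symm] at h3
          simp only [ren, if_pos e2]
          have := count_ren t1.nm t2.nm hn s
          rw [this]
          rw [e2] at hm
          omega
        · right
          obtain ⟨a1, a2, a3⟩ := r2 t' ht' e2.symm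
          refine ⟨j, ?_, ?_⟩
          · simp only [ren]
            refine Prod.ext ?_ ?_
            · rw [← a1, ← hc, h3]
            · rw [h3] at hd
              revert a2 hd
              cases t'.pt.2 <;> cases t2.pt.2 <;> simp
          · simp only [ren]
            rw [a3, hl, hσ, h4]
      · by_cases e1 : t'.nm = t1.nm
        · rcases h.fr t2 (by simp) with h3 | ⟨j, h3, h4⟩
          · left
            simp only [List.map_cons, List.count_cons, beq_self_eq_true, if_true, beq_iff_eq,
              if_neg hn] at h3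
            simp only [ren, if_neg e2]
            rw [e1]
            have := count_ren t1.nm t2.nm hn s
            rw [this]
            rw [e1] at hm
            omega
          · right
            obtain ⟨a1, a2, a3⟩ := r1 t' ht' e1.symm
            refine ⟨j, ?_, ?_⟩
            · simp only [ren]
              refine Prod.ext ?_ ?_
              · rw [← a1, hc, h3]
              · rw [h3] at hd
                revert a2 hd
                cases t'.pt.2 <;> cases t1.pt.2 <;> simp
            · simp only [ren]
              rw [a3, ← hl, h4]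
        · left
          simp only [ren, if_neg e2]
          have := count_ren_ne t1.nm t2.nm t'.nm e1 e2 s
          rw [this]
          simp only [List.map_cons, List.count_cons, beq_iff_eq] at h1
          rw [if_neg (fun h => e2 h.symm), if_neg (fun h => e1 h.symm)] at h1
          omega
    · right
      exact h1

theorem Inv.cup {σ : Q → Q} {q : Fin k → Q} {N : ℕ} {s : List (T k Q)}
    (h : Inv σ q N s) (c : Fin k) (d : Bool) (x : Q) :
    Inv σ q (N + 1) (⟨(c, d), N, x⟩ :: ⟨(c, !d), N, σ x⟩ :: s) := by
  have hN : ∀ t ∈ s, t.nm ≠ N := fun t ht he => absurd (h.lt t ht) (by omega)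
  refine ⟨?_, ?_, ?_⟩
  · intro t ht
    simp only [List.mem_cons] at ht
    rcases ht with rfl | rfl | ht
    · simp
    · simp
    · exact (h.lt t ht).trans (by omega)
  · refine List.pairwise_cons.2 ⟨?_, List.pairwise_cons.2 ⟨?_, h.pw⟩⟩
    · intro t ht
      simp only [List.mem_cons] at ht
      rcases ht with rfl | ht
      · intro _
        exact ⟨rfl, by cases d <;> simp, rfl⟩
      · intro he
        exact absurd he.symm (hN t ht)
    · intro t ht he
      exact absurd he.symm (hN t ht)
  · intro t ht
    simp only [List.mem_cons] at ht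
    rcases ht with rfl | rfl | ht
    · left
      simp
    · left
      simp
    · rcases h.fr t ht with h1 | h1
      · left
        simp only [List.map_cons, List.count_cons]
        omega
      · exact Or.inr h1

theorem aux {σ : Q → Q} (hσ : ∀ x, σ (σ x) = x) (q : Fin k → Q) (c : ℕ → Q) (w : Word k) :
    ∀ (n N : ℕ) (s : List (T k Q)), Inv σ q N s → okW (s.map T.pt) w →
      run (s.map T.pt) w = ends k → noClosed N (s.map T.nm) w → okQ σ c n w (s.map T.lb) →
      (∀ m < n, ∃ t ∈ s, c m = t.lb ∨ c m = σ t.lb) →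
      runQ σ c n w (s.map T.lb) = List.ofFn q ∧
        ∀ m < n + ncup w, ∃ j, c m = q j ∨ c m = σ (q j) := by
  induction w with
  | nil =>
    intro n N s hI _ hr _ _ hG
    simp only [run] at hr
    have hdir : ∀ t ∈ s, t.pt.2 = true := by
      intro t ht
      have h1 : t.pt ∈ ends k := by
        rw [← hr]
        exact List.mem_map_of_mem ht
      simp only [ends, List.mem_ofFn] at h1
      obtain ⟨j, hj⟩ := h1
      rw [← hj]
    have hnd : (s.map T.nm).Nodup := by
      rw [List.Nodup, List.pairwise_map]
      refine hI.pw.imp_of_mem ?_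
      intro t t' ht ht' hR he
      have := (hR he).2.1
      rw [hdir t ht, hdir t' ht'] at this
      exact this rfl
    have hlab : ∀ t ∈ s, t.lb = q t.pt.1 := by
      intro t ht
      rcases hI.fr t ht with h1 | ⟨j, h1, h2⟩
      · have := List.nodup_iff_count_le_one.1 hnd t.nm
        omega
      · rw [h1, h2]
    have hmap : s.map T.lb = (s.map T.pt).map (fun p => q p.1) := by
      rw [List.map_map]
      exact List.map_congr_left hlab
    refine ⟨?_, ?_⟩
    · simp only [runQ]
      rw [hmap, hr, ends, List.map_ofFn]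
      rfl
    · intro m hm
      simp only [ncup, Nat.add_zero] at hm
      obtain ⟨t, ht, h1⟩ := hG m hm
      exact ⟨t.pt.1, by rwa [hlab t ht] at h1⟩
  | cons p w ih =>
    intro n N s hI hok hr hnc hq hG
    obtain ⟨hp, hok⟩ := hok
    cases p with
    | cross i o =>
      simp only [Piece.ok, List.length_map] at hp
      obtain ⟨a, x, y, b, rfl, ha⟩ := split2 s hp
      have hperm : (a ++ x :: y :: b).Perm (a ++ y :: x :: b) :=
        List.Perm.append_left a (List.Perm.swap y x b)
      have e1 : ∀ {β : Type} (f : T k Q → β), at2 i (fun u v => [v, u])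
          ((a ++ x :: y :: b).map f) = (a ++ y :: x :: b).map f := by
        intro β f
        simp only [List.map_append, List.map_cons]
        rw [at2_app _ _ _ _ _ (by simpa using ha)]
        simp
      have := ih n N (a ++ y :: x :: b) (hI.perm hσ hperm) (by rw [← e1]; exact hok)
        (by rw [← e1]; exact hr) (by rw [← e1]; exact hnc) (by rw [← e1]; exact hq)
        (fun m hm => by
          obtain ⟨t, ht, h1⟩ := hG m hm
          exact ⟨t, hperm.mem_iff.1 ht, h1⟩)
      rw [← e1] at this
      exact this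
    | cap i =>
      obtain ⟨c0, d, g1, g2⟩ := hp
      have hlen : i + 1 < s.length := by
        have := (List.getElem?_eq_some_iff.1 g2).1
        simpa using this
      obtain ⟨a, x, y, b, rfl, ha⟩ := split2 s hlen
      subst ha
      have gx : (a ++ x :: y :: b)[a.length]? = some x := by simp
      have gy : (a ++ x :: y :: b)[a.length + 1]? = some y := by
        rw [List.getElem?_append_right (by omega)]
        simp
      rw [List.getElem?_map, gx] at g1
      rw [List.getElem?_map, gy] at g2
      simp only [Option.map_some, Option.some.injEq] at g1 g2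
      obtain ⟨⟨z, z1, z2⟩, hq⟩ := hq
      rw [List.getElem?_map, gx] at z1
      rw [List.getElem?_map, gy] at z2
      simp only [Option.map_some, Option.some.injEq] at z1 z2
      obtain ⟨hne, hnc⟩ := hnc
      have nx : ((a ++ x :: y :: b).map T.nm).getD a.length 0 = x.nm := by
        rw [List.getD_eq_getElem?_getD, List.getElem?_map, gx]
        rfl
      have ny : ((a ++ x :: y :: b).map T.nm).getD (a.length + 1) 0 = y.nm := by
        rw [List.getD_eq_getElem?_getD, List.getElem?_map, gy]
        rfl
      rw [nx, ny] at hne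
      rw [nx, ny] at hnc
      have hperm : (a ++ x :: y :: b).Perm (x :: y :: (a ++ b)) := by
        refine (List.perm_middle).trans (List.Perm.cons x ?_)
        exact List.perm_middle
      have hI' := hI.perm hσ hperm
      have hc1 : x.pt.1 = y.pt.1 := by rw [g1, g2]
      have hd1 : x.pt.2 ≠ y.pt.2 := by rw [g1, g2]; cases d <;> simp
      have hl1 : y.lb = σ x.lb := by rw [z1, z2]
      have hcap := hI'.cap hσ hne hc1 hd1 hl1
      have e1 : ∀ {β : Type} (f : T k Q → β), at2 a.length (fun _ _ => [])
          ((a ++ x :: y :: b).map f) = (a ++ b).map f := by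
        intro β f
        simp only [List.map_append, List.map_cons]
        rw [at2_app _ _ _ _ _ (by simp)]
        simp
      have ept : ((a ++ b).map (ren x.nm y.nm)).map T.pt = (a ++ b).map T.pt := by
        rw [List.map_map]; rfl
      have elb : ((a ++ b).map (ren x.nm y.nm)).map T.lb = (a ++ b).map T.lb := by
        rw [List.map_map]; rfl
      have enm : ((a ++ b).map (ren x.nm y.nm)).map T.nm =
          ((a ++ b).map T.nm).map (fun z => if z = y.nm then x.nm else z) := by
        rw [List.map_map, List.map_map]; rfl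
      have := ih n N ((a ++ b).map (ren x.nm y.nm)) hcap (by rw [ept, ← e1]; exact hok)
        (by rw [ept, ← e1]; exact hr) (by rw [enm, ← e1]; exact hnc)
        (by rw [elb, ← e1]; exact hq)
        (fun m hm => by
          obtain ⟨t, ht, h1⟩ := hG m hm
          obtain ⟨t', ht', h2⟩ := partner hσ hI' hne hd1 hl1
          rcases List.mem_cons.1 (hperm.mem_iff.1 ht) with rfl | ht
          · refine ⟨ren t.nm y.nm t', List.mem_map_of_mem ht', ?_⟩
            show c m = t'.lb ∨ c m = σ t'.lb
            rcases h1 with h1 | h1 <;> rcases h2 with h2 | h2 <;> rw [h1, h2] <;> simp [hσ]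
          · rcases List.mem_cons.1 ht with rfl | ht
            · refine ⟨ren x.nm t.nm t', List.mem_map_of_mem ht', ?_⟩
              show c m = t'.lb ∨ c m = σ t'.lb
              rcases h1 with h1 | h1 <;> rcases h2 with h2 | h2 <;> rw [h1, hl1, h2] <;> simp [hσ]
            · exact ⟨ren x.nm y.nm t, List.mem_map_of_mem ht, h1⟩)
      rw [elb, ← e1] at this
      exact this
    | cup i c0 d =>
      simp only [Piece.ok, List.length_map] at hp
      obtain ⟨a, b, rfl, ha⟩ := split0 s hp
      have hperm : (⟨(c0, d), N, c n⟩ :: ⟨(c0, !d), N, σ (c n)⟩ :: (a ++ b) : List (T k Q)).Perm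
          (a ++ ⟨(c0, d), N, c n⟩ :: ⟨(c0, !d), N, σ (c n)⟩ :: b) := by
        refine List.Perm.symm ?_
        refine (List.perm_middle).trans (List.Perm.cons _ ?_)
        exact List.perm_middle
      have hI' := (hI.cup c0 d (c n)).perm hσ hperm
      have e1 : ∀ {β : Type} (f : T k Q → β), ins2 i (f ⟨(c0, d), N, c n⟩)
          (f ⟨(c0, !d), N, σ (c n)⟩) ((a ++ b).map f) =
          (a ++ ⟨(c0, d), N, c n⟩ :: ⟨(c0, !d), N, σ (c n)⟩ :: b).map f := by
        intro β f
        simp only [List.map_append, List.map_cons]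
        rw [ins2_app _ _ _ _ (by simpa using ha)]
      have := ih (n + 1) (N + 1) _ hI' (by rw [← e1]; exact hok)
        (by rw [← e1]; exact hr) (by rw [← e1]; exact hnc) (by rw [← e1]; exact hq)
        (fun m hm => by
          by_cases hmn : m = n
          · subst hmn
            exact ⟨⟨(c0, d), N, c m⟩, by simp, Or.inl rfl⟩
          · obtain ⟨t, ht, h1⟩ := hG m (by omega)
            refine ⟨t, hperm.mem_iff.1 ?_, h1⟩
            exact List.mem_cons_of_mem _ (List.mem_cons_of_mem _ ht))
      rw [← e1] at this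
      refine ⟨this.1, fun m hm => this.2 m ?_⟩
      simp only [ncup] at hm
      omega

end TrackAux

open TrackAux in
theorem track {Q : Type} (σ : Q → Q) (hσ : ∀ x, σ (σ x) = x) (w : SL k) (q : Fin k → Q)
    (c : ℕ → Q) (h : okQ σ c 0 w.1 (List.ofFn q)) :
    runQ σ c 0 w.1 (List.ofFn q) = List.ofFn q ∧
      ∀ n < ncup w.1, ∃ j, c n = q j ∨ c n = σ (q j) := by
  obtain ⟨w, h1, h2, h3⟩ := w
  let s : List (T k Q) := List.ofFn fun j : Fin k => ⟨(j, true), j, q j⟩
  have ept : s.map T.pt = ends k := by
    simp only [s, ends, List.map_ofFn]; rfl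
  have enm : s.map T.nm = List.range k := by
    simp only [s, List.map_ofFn]
    apply List.ext_getElem
    · simp
    · intro i _ _
      simp
  have elb : s.map T.lb = List.ofFn q := by
    simp only [s, List.map_ofFn]; rfl
  have hI : Inv σ q k s := by
    refine ⟨?_, ?_, ?_⟩
    · intro t ht
      simp only [s, List.mem_ofFn] at ht
      obtain ⟨j, rfl⟩ := ht
      exact j.2
    · have hnd : (s.map T.nm).Nodup := by rw [enm]; exact List.nodup_range
      rw [List.Nodup, List.pairwise_map] at hnd
      exact hnd.imp fun {a b} hab he => absurd he hab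
    · intro t ht
      simp only [s, List.mem_ofFn] at ht
      obtain ⟨j, rfl⟩ := ht
      exact Or.inr ⟨j, rfl, rfl⟩
  have := aux hσ q c w 0 k s hI (by rw [ept]; exact h1) (by rw [ept]; exact h2)
    (by rw [enm]; exact h3) (by rw [elb]; exact h) (fun m hm => absurd hm (Nat.not_lt_zero _))
  rw [elb, Nat.zero_add] at this
  exact this

end Pool.Agent.MQ1
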