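import Pool.Agent.MQ1.Defs

set_option autoImplicit false

namespace Pool.Agent.MQ1

open Pool.Agent.StrLink

variable {k : ℕ}

/-! ## Uni.lean : unitriangular matrices -/

theorem ent_one {r : ℕ} (a b : Fin (r + 1)) : ent (1 : U r) a b = if a = b then 1 else 0 := by
  show (1 : Mat r) a b = _
  rw [Matrix.one_apply]

theorem ent_low {r : ℕ} (x : U r) (a b : Fin (r + 1)) (h : b ≤ a) :
    ent x a b = if a = b then 1 else 0 := by
  exact x.2.1 a b h

theorem ent_mul {r : ℕ} (x y : U r) (a b : Fin (r + 1)) :
    ent (x * y) a b = ∑ c, ent x a c * ent y c b := by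
  exact Matrix.mul_apply

theorem U_ext {r : ℕ} {x y : U r} (h : ∀ a b, ent x a b = ent y a b) : x = y := by
  exact Subtype.ext (Units.ext (Matrix.ext h))

/-- every unitriangular matrix is an element of `U r` -/
theorem exists_U {r : ℕ} (M : Mat r) (hM : uni M) : ∃ x : U r, ∀ a b, ent x a b = M a b := by
  have hbt : M.BlockTriangular id := by
    intro a b hab
    simp only [id] at hab
    rw [hM a b hab.le, if_neg (ne_of_gt hab)]
  have hdet : M.det = 1 := by
    rw [Matrix.det_of_isUpperTriangular hbt]
    apply Finset.prod_eq_one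
    intro a _
    rw [hM a a le_rfl, if_pos rfl]
  have : Invertible M := M.invertibleOfIsUnitDet (by rw [hdet]; exact isUnit_one)
  have hN : (M⁻¹).BlockTriangular id := Matrix.blockTriangular_inv_of_blockTriangular hbt
  have hmul : M * M⁻¹ = 1 := Matrix.mul_nonsing_inv M (by rw [hdet]; exact isUnit_one)
  have hmul' : M⁻¹ * M = 1 := Matrix.nonsing_inv_mul M (by rw [hdet]; exact isUnit_one)
  have huN : uni (M⁻¹) := by
    intro a b hab
    rcases hab.lt_or_eq with h | h
    · rw [if_neg (ne_of_gt h)]
      exact hN h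
    · subst h
      rw [if_pos rfl]
      have h1 := congrFun (congrFun hmul b) b
      rw [Matrix.mul_apply, Matrix.one_apply_eq, Finset.sum_eq_single b] at h1
      · rwa [hM b b le_rfl, if_pos rfl, one_mul] at h1
      · intro c _ hc
        rcases lt_or_gt_of_ne hc with h2 | h2
        · rw [hM b c h2.le, if_neg (ne_of_gt h2), zero_mul]
        · have : M⁻¹ c b = 0 := hN h2
          rw [this, mul_zero]
      · intro hb
        exact absurd (Finset.mem_univ b) hb
  exact ⟨⟨⟨M, M⁻¹, hmul, hmul'⟩, hM, huN⟩, fun a b => rfl⟩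

theorem agree_mul {r d : ℕ} {x x' y y' : U r} (hx : Agree d x x') (hy : Agree d y y') :
    Agree d (x * y) (x' * y') := by
  intro a b hab
  rw [ent_mul, ent_mul]
  apply Finset.sum_congr rfl
  intro c _
  by_cases h1 : c < a
  · rw [ent_low x a c h1.le, ent_low x' a c h1.le, if_neg (ne_of_gt h1), zero_mul, zero_mul]
  · by_cases h2 : b < c
    · rw [ent_low y c b h2.le, ent_low y' c b h2.le, if_neg (ne_of_gt h2), mul_zero, mul_zero]
    · have h3 : (a : ℕ) ≤ c := not_lt.1 h1
      have h4 : (c : ℕ) ≤ b := not_lt.1 h2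
      rw [hx a c (by omega), hy c b (by omega)]

theorem agree_inv {r d : ℕ} {x x' : U r} (hx : Agree d x x') : Agree d x⁻¹ x'⁻¹ := by
  have h1 : Agree d (x⁻¹ * x' * x'⁻¹) (x⁻¹ * x * x'⁻¹) :=
    agree_mul (agree_mul (fun _ _ _ => rfl) (fun a b hab => (hx a b hab).symm))
      (fun _ _ _ => rfl)
  rwa [mul_assoc, mul_inv_cancel, mul_one, inv_mul_cancel, one_mul] at h1

/-- at distance exactly `d` the differences add up -/
theorem diff_mul {r d : ℕ} (hd : 1 ≤ d) {x x' y y' : U r} (hx : Agree d x x') (hy : Agree d y y')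
    (a b : Fin (r + 1)) (hab : (b : ℕ) = a + d) :
    ent (x * y) a b - ent (x' * y') a b =
      (ent x a b - ent x' a b) + (ent y a b - ent y' a b) := by
  rw [ent_mul, ent_mul, ← Finset.sum_sub_distrib]
  have hterm : ∀ c : Fin (r + 1), ent x a c * ent y c b - ent x' a c * ent y' c b =
      (if c = b then ent x a b - ent x' a b else 0) +
        (if c = a then ent y a b - ent y' a b else 0) := by
    intro c
    by_cases h1 : c < a
    · have h5 : c ≠ b := by
        rintro rfl
        have : (c : ℕ) < a := h1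
        omega
      rw [ent_low x a c h1.le, ent_low x' a c h1.le, if_neg (ne_of_gt h1), if_neg h5,
        if_neg (ne_of_lt h1)]
      ring
    · by_cases h2 : b < c
      · have h5 : c ≠ a := by
          rintro rfl
          have : (b : ℕ) < c := h2
          omega
        rw [ent_low y c b h2.le, ent_low y' c b h2.le, if_neg (ne_of_gt h2), if_neg h5,
          if_neg (ne_of_gt h2)]
        ring
      · have h3 : (a : ℕ) ≤ c := not_lt.1 h1
        have h4 : (c : ℕ) ≤ b := not_lt.1 h2
        by_cases h6 : c = a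
        · subst h6
          have h7 : c ≠ b := by
            rintro rfl
            omega
          rw [ent_low x c c le_rfl, ent_low x' c c le_rfl, if_pos rfl, if_neg h7, if_pos rfl]
          ring
        · by_cases h7 : c = b
          · subst h7
            rw [ent_low y c c le_rfl, ent_low y' c c le_rfl, if_pos rfl, if_pos rfl, if_neg h6]
            ring
          · have h8 : (a : ℕ) ≠ c := fun h => h6 (Fin.ext h.symm)
            have h9 : (c : ℕ) ≠ b := fun h => h7 (Fin.ext h)
            rw [hx a c (by omega), hy c b (by omega), if_neg h6, if_neg h7]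
            ring
  simp_rw [hterm]
  rw [Finset.sum_add_distrib, Finset.sum_ite_eq', Finset.sum_ite_eq']
  simp

theorem diff_inv {r d : ℕ} (hd : 1 ≤ d) {x x' : U r} (hx : Agree d x x')
    (a b : Fin (r + 1)) (hab : (b : ℕ) = a + d) :
    ent x⁻¹ a b - ent x'⁻¹ a b = -(ent x a b - ent x' a b) := by
  have h := diff_mul hd hx (agree_inv hx) a b hab
  rw [mul_inv_cancel, mul_inv_cancel, sub_self] at h
  linarith


/-- the Magnus matrices -/
theorem magnus_uni {r : ℕ} (I : Fin r → Fin k) (i : Fin k) :
    ∃ x : U r, ∀ a b, ent x a b = if a = b then 1 else if ∃ s : Fin r, I s = i ∧ a = s.castSucc ∧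
      b = s.succ then 1 else 0 := by
  apply exists_U
  intro a b hab
  by_cases h : a = b
  · simp only [if_pos h]
  · have hn : ¬ ∃ s : Fin r, I s = i ∧ a = s.castSucc ∧ b = s.succ := by
      rintro ⟨s, -, rfl, rfl⟩
      exact absurd hab (not_le.2 (Fin.castSucc_lt_succ (i := s)))
    simp only [if_neg h, if_neg hn]

/-- the Magnus matrices -/
noncomputable def Mag {r : ℕ} (I : Fin r → Fin k) (i : Fin k) : U r := (magnus_uni I i).choose

theorem Mag_ent {r : ℕ} (I : Fin r → Fin k) (i : Fin k) (a b : Fin (r + 1)) : ent (Mag I i) a b =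
    if a = b then 1 else if ∃ s : Fin r, I s = i ∧ a = s.castSucc ∧ b = s.succ then 1 else 0 :=
  (magnus_uni I i).choose_spec a b

end Pool.Agent.MQ1
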